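import Pool.Agent.Lib.MP_c1e359_an.Defs

/-!
Lebesgue null sets, Borel sets, Borel probability measures, universally null sets and the
additivity of an ideal inside a structure `(M, E)` for the language of set theory.  Every notion
quantifies only over elements of `M` and uses only `E` and equality.  `F` holds the reals of the
structure and `w` is its set of natural numbers.
-/

namespace Pool.Agent.Lib.MP_f79ffc_lc.St

open Pool.Agent.Lib.MP_5d9fac_lc Pool.Agent.Lib.MP_c1e359_an

universe u

variable {M : Type u} (E : M → M → Prop)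

/-- `U` is the union of the family `G`. -/
def IsUn (U G : M) : Prop := ∀ x, E x U ↔ ∃ A, E A G ∧ E x A

/-- `U` is the union of the values of the function `f`. -/
def IsUnV (U f : M) : Prop := ∀ x, E x U ↔ ∃ n A, App E f n A ∧ E x A

/-- Some family of size `k` consists of sets in `I` and its union is not in `I`. -/
def Bad (I : M → Prop) (k : M) : Prop :=
  ∃ G U, Equinum E k G ∧ (∀ A, E A G → I A) ∧ IsUn E U G ∧ ¬ I U

/-- `k = add(I)`: the least size of a family of sets in `I` whose union is not in `I`. -/
def IsAdd (I : M → Prop) (k : M) : Prop :=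
  IsCard E k ∧ Bad E I k ∧ ∀ l, IsCard E l → Bad E I l → Sub E k l

variable (F : RF M)

/-- `a < b`. -/
def Less (a b : M) : Prop := App E F.le a b ∧ a ≠ b

variable (w : M)

/-- `c` is a sequence of reals and all its partial sums are at most `r`. -/
def SumLe (c r : M) : Prop :=
  IsFun E c w F.R ∧ ∃ p, IsFun E p w F.R ∧ (∀ z, IsEmp E z → App E p z F.zero) ∧
    (∀ n m s t v, IsSuc E m n → App E p n s → App E c n t → App E p m v → Op E F.add s t v) ∧
    ∀ n s, App E p n s → App E F.le s r

/-- `s` is the least upper bound of the partial sums of `c`, that is the sum of the series when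
its terms are not negative. -/
def IsSum (c s : M) : Prop := SumLe E F w c s ∧ ∀ r, E r F.R → SumLe E F w c r → App E F.le s r

/-- `X` is a Lebesgue null set of reals: for every `e > 0` it is covered by a sequence of
intervals `(a n, a n + c n)` with `c n ≥ 0` and total length at most `e`. -/
def LebNull (X : M) : Prop :=
  Sub E X F.R ∧ ∀ e, Pos E F e → ∃ a c, IsFun E a w F.R ∧ SumLe E F w c e ∧
    (∀ n t, App E c n t → App E F.le F.zero t) ∧
    ∀ x, E x X → ∃ n s t v, App E a n s ∧ App E c n t ∧ Op E F.add s t v ∧
      Less E F s x ∧ Less E F x v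

/-- `S` is a family of sets of reals that contains all rays `(-∞, a)` and is closed under
complements and countable unions. -/
def IsSig (S : M) : Prop :=
  (∀ A, E A S → Sub E A F.R) ∧
  (∀ a A, E a F.R → (∀ x, E x A ↔ E x F.R ∧ Less E F x a) → E A S) ∧
  (∀ A C, E A S → (∀ x, E x C ↔ E x F.R ∧ ¬ E x A) → E C S) ∧
  ∀ f U, IsFun E f w S → IsUnV E U f → E U S

/-- `Bo` is the Borel sigma algebra of the reals. -/
def IsBorel (Bo : M) : Prop := IsSig E F w Bo ∧ ∀ S, IsSig E F w S → Sub E Bo S

/-- `μ` is an atomless probability measure on `Bo`: nonnegative, total mass one, zero on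
singletons and countably additive. -/
def IsProb (Bo μ : M) : Prop :=
  IsFun E μ Bo F.R ∧ (∀ A t, App E μ A t → App E F.le F.zero t) ∧ App E μ F.R F.one ∧
  (∀ x A, E x F.R → IsUPair E A x x → App E μ A F.zero) ∧
  ∀ f c U s, IsFun E f w Bo → (∀ n m A C x, App E f n A → App E f m C → E x A → E x C → n = m) →
    IsUnV E U f → IsFun E c w F.R → (∀ n A t, App E f n A → App E c n t → App E μ A t) →
    App E μ U s → IsSum E F w c s

/-- `X` is a universally null set of reals: its outer measure is zero for every atomless Borel
probability measure. -/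
def UnivNull (Bo X : M) : Prop :=
  Sub E X F.R ∧ ∀ μ, IsProb E F w Bo μ → ∀ e, Pos E F e →
    ∃ A t, Sub E X A ∧ App E μ A t ∧ App E F.le t e

/-- the statement of the hand-in -/
def Goal : Prop := ∃ (M : Type 1) (E : M → M → Prop), IsZFC E ∧ ∃ w : M, IsOmega E w ∧
  ∀ F : RF M, IsReals E F → ∀ Bo : M, IsBorel E F w Bo →
    ∃ k l : M, IsAdd E (LebNull E F w) k ∧ IsAdd E (UnivNull E F w Bo) l ∧ E k l

end Pool.Agent.Lib.MP_f79ffc_lc.St
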