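import Pool.Agent.Lib.MP_5d9fac_lc.Funcs
import Pool.Agent.Lib.MP_f79ffc_lc.U.M.Defs

/-!
Cardinal bookkeeping in the quotient models: every set has a cardinality, and the comparison of
the additivities of two ideals.
-/

namespace Pool.Agent.Lib.MP_f79ffc_lc.St

open Pool.Agent.Lib.MP_5d9fac_lc Cardinal

variable {B : Type} [CompleteBooleanAlgebra B]

instance clopen_isUn (x y : Name B) : Clopen fun U => IsUn (Mem U) (cl U x) (cl U y) := by
  unfold IsUn; infer_instance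

instance clopen_bad (I : ∀ U : Ult B, Mod U → Prop) [∀ n : Name B, Clopen fun U => I U (cl U n)]
    (x : Name B) : Clopen fun U => Bad (Mem U) (I U) (cl U x) := by
  unfold Bad; infer_instance

/-- composition of bijections -/
theorem card_equinum_trans {U : Ult B} {A C D : Mod U} (h1 : Equinum (Mem U) A C)
    (h2 : Equinum (Mem U) C D) : Equinum (Mem U) A D := by
  obtain ⟨f, hf⟩ := h1
  obtain ⟨g, hg⟩ := h2
  obtain ⟨A, rfl⟩ := cl_surj U A
  obtain ⟨C, rfl⟩ := cl_surj U C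
  obtain ⟨D, rfl⟩ := cl_surj U D
  obtain ⟨f, rfl⟩ := cl_surj U f
  obtain ⟨g, rfl⟩ := cl_surj U g
  let h : A.Idx → D.Idx → B := fun i j => A.wt i ⊓ D.wt j ⊓
    bv fun W => ∃ b, App (Mem W) (cl W f) (cl W (A.ch i)) b ∧
      App (Mem W) (cl W g) b (cl W (D.ch j))
  have hh : ∀ i j (W : Ult B), W.In (h i j) ↔ (W.In (A.wt i) ∧ W.In (D.wt j)) ∧
      ∃ b, App (Mem W) (cl W f) (cl W (A.ch i)) b ∧ App (Mem W) (cl W g) b (cl W (D.ch j)) := by
    intro i j W
    simp only [h]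
    rw [W.inf_iff, W.inf_iff, in_bv]
  have key : ∀ a, Mem U a (cl U A) → ∀ c, Mem U c (cl U D) →
      (∃ b, App (Mem U) (cl U f) a b ∧ App (Mem U) (cl U g) b c) →
      App (Mem U) (cl U (relN A.ch D.ch h)) a c := by
    refine mem_ind (fun _ => True) (fun U a => ∀ c, Mem U c (cl U D) →
      (∃ b, App (Mem U) (cl U f) a b ∧ App (Mem U) (cl U g) b c) →
      App (Mem U) (cl U (relN A.ch D.ch h)) a c) trivial ?_
    intro i W _ hi
    refine mem_ind (fun W => W.In (A.wt i)) (fun U c =>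
      (∃ b, App (Mem U) (cl U f) (cl U (A.ch i)) b ∧ App (Mem U) (cl U g) b c) →
      App (Mem U) (cl U (relN A.ch D.ch h)) (cl U (A.ch i)) c) hi ?_
    intro j W hi hj hb
    exact app_relN ((hh i j W).2 ⟨⟨hi, hj⟩, hb⟩)
  refine ⟨_, isBij_relN (x := A.ch) (y := D.ch) (h := h)
    (fun W => IsBij (Mem W) (cl W f) (cl W A) (cl W C) ∧ IsBij (Mem W) (cl W g) (cl W C) (cl W D))
    ⟨hf, hg⟩ ?_ ?_ ?_ ?_⟩
  · intro i j W _ hij
    obtain ⟨⟨h1, h2⟩, -⟩ := (hh i j W).1 hij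
    exact ⟨mem_of_wt h1, mem_of_wt h2⟩
  · intro a ha
    obtain ⟨b, hb, -⟩ := hf.1.2 a ha
    obtain ⟨c, hc, -⟩ := hg.1.2 b (hf.1.app_mem hb).2
    exact ⟨c, key a ha c (hg.1.app_mem hc).2 ⟨b, hb, hc⟩⟩
  · intro c hc
    obtain ⟨b, hb, -⟩ := hg.2 c hc
    obtain ⟨a, ha, -⟩ := hf.2 b (hg.1.app_mem hb).1
    exact ⟨a, key a (hf.1.app_mem ha).1 c hc ⟨b, ha, hb⟩⟩
  · intro i j i' j' W hW hij hij'
    obtain ⟨-, b, h1, h2⟩ := (hh i j W).1 hij
    obtain ⟨-, b', h3, h4⟩ := (hh i' j' W).1 hij'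
    constructor
    · intro e
      rw [e] at h1
      obtain rfl := hW.1.1.app_unique h1 h3
      exact hW.2.1.app_unique h2 h4
    · intro e
      rw [e] at h2
      obtain rfl := hW.2.app_inj h2 h4
      exact hW.1.app_inj h1 h3

/-- the domain of the increasing enumeration is an initial segment -/
theorem enumB_down {I : Type} [LinearOrder I] [WellFoundedLT I] (a : I → B) {γ δ : I}
    (h : δ < γ) (m : I) : enumB a γ m ≤ ⨆ α, enumB a δ α := by
  let g : I → B := fun α => a α ⊓ (⨆ ε, ⨆ _ : ε < δ, enumB a ε α)ᶜ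
  have h1 : enumB a γ m ≤ ⨆ α, g α := by
    refine le_iSup_of_le m ?_
    rw [enumB_eq a γ m]
    refine inf_le_left.trans (inf_le_inf_left _ (compl_le_compl ?_))
    exact iSup₂_le fun ε hε => le_iSup₂_of_le ε (hε.trans h) le_rfl
  rw [iSup_eq_iSup_least] at h1
  refine h1.trans (iSup_mono fun α => ?_)
  rw [enumB_eq]
  refine inf_le_inf_left _ (le_iInf₂ fun β hβ => ?_)
  refine Ult.le_of fun U hU => ?_
  rw [U.himp_iff]
  intro hb
  by_contra h4
  exact U.compl_iff.1 hU (U.iSup_intro β (U.iSup_intro hβ (U.inf hb (U.compl_iff.2 h4))))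

/-- an ordinal of the model contained in `o` is a member of `o + 1` -/
theorem mem_succ_of_sub {o : Ordinal.{0}} {U : Ult B} {d : Mod U} (hd : IsOrd (Mem U) d)
    (h : Sub (Mem U) d (cl U (ordN o))) : Mem U d (cl U (ordN (o + 1))) :=
  (sub_or_mem (o + 1) d hd).resolve_left fun h1 =>
    mod_irrefl U _ (h _ (h1 _ (ordN_mem (lt_add_one o) U)))

theorem isOrd_of_mem {o : Ordinal.{0}} {U : Ult B} {d : Mod U}
    (h : Mem U d (cl U (ordN o))) : IsOrd (Mem U) d :=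
  ord_ind (fun _ => True) (fun U d => IsOrd (Mem U) d) trivial
    (fun a _ W _ => isOrd_ordN a W) d h

/-- a name indexed by the ordinal `o` is in bijection with an ordinal `≤ o` -/
theorem exists_ord_equinum {o : Ordinal.{0}} (x : o.ToType → Name B) (v : o.ToType → B)
    (U : Ult B) : ∃ d, Mem U d (cl U (ordN (o + 1))) ∧
      Equinum (Mem U) d (cl U (Name.mk o.ToType x v)) := by
  let a : o.ToType → B := fun m =>
    v m ⊓ (⨆ m', ⨆ _ : m' < m, v m' ⊓ Name.beq (x m') (x m))ᶜ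
  have hleast : ∀ (m : o.ToType) (W : Ult B), W.In (v m) →
      W.In (⨆ m', a m' ⊓ Name.beq (x m') (x m)) := by
    intro m W hm
    have h1 : W.In (⨆ m', v m' ⊓ Name.beq (x m') (x m)) :=
      W.iSup_intro m (W.inf hm (by rw [Name.beq_refl]; exact W.top))
    rw [iSup_eq_iSup_least] at h1
    refine W.iSup_elim h1 W.top fun m' W _ h2 => W.iSup_intro m' ?_
    rw [W.inf_iff, W.inf_iff, W.compl_iff] at h2
    refine W.inf (W.inf h2.1.1 (W.compl_iff.2 fun h3 => h2.2 ?_)) h2.1.2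
    refine W.iSup_elim h3 h2.1.2 fun k W h5 h6 => ?_
    refine W.iSup_elim h6 h5 fun hk W h5 h6 => ?_
    refine W.iSup_intro k (W.iSup_intro hk ?_)
    rw [W.inf_iff] at h6 ⊢
    exact ⟨h6.1, W.mono (Name.beq_trans _ _ _) (W.inf h6.2 h5)⟩
  let c : o.ToType → B := fun γ => ⨆ m, enumB a γ m
  refine ⟨cl U (setN c), mem_succ_of_sub ⟨?_, fun y z hy hz =>
    (isOrd_ordN o U).2 y z (setN_sub c U y hy) (setN_sub c U z hz)⟩ (setN_sub c U), ?_⟩
  · refine mem_mk_ind (fun _ => True) (fun U y => Sub (Mem U) y (cl U (setN c))) trivial ?_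
    intro γ W _ hγ
    refine ord_ind (fun W => W.In (c γ)) (fun U z => Mem U z (cl U (setN c))) hγ ?_
    intro β hβ W hγ
    have hβo : β < o := hβ.trans γ.toOrd.2
    have h1 : Ordinal.ToType.mk ⟨β, hβo⟩ < γ := by
      rw [← Ordinal.ToType.mk.symm.lt_iff_lt, OrderIso.symm_apply_apply]
      exact hβ
    have h2 := (mem_setN c W (Ordinal.ToType.mk ⟨β, hβo⟩)).2
      (W.mono (iSup_le fun m => enumB_down a h1 m) hγ)
    simpa [oN] using h2
  refine ⟨_, isBij_relN (x := oN) (y := x) (h := enumB a) (fun _ => True) trivial ?_ ?_ ?_ ?_⟩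
  · intro γ m W _ h
    exact ⟨(mem_setN c W γ).2 (W.iSup_intro m h),
      mem_mk m (W.mono ((enumB_le a γ m).trans inf_le_left) h)⟩
  · refine mem_mk_ind (fun _ => True) (fun U z => ∃ b, App (Mem U)
      (cl U (relN oN x (enumB a))) z b) trivial ?_
    intro γ W _ hγ
    refine iSup_elim (fun _ => True) (fun U => ∃ b, App (Mem U)
      (cl U (relN oN x (enumB a))) (cl U (oN γ)) b) hγ trivial ?_
    intro m W _ h
    exact ⟨_, app_relN h⟩
  · refine mem_mk_ind (fun _ => True) (fun U z => ∃ b, App (Mem U)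
      (cl U (relN oN x (enumB a))) b z) trivial ?_
    intro m W _ hm
    refine iSup_elim (fun _ => True) (fun U => ∃ b, App (Mem U)
      (cl U (relN oN x (enumB a))) b (cl U (x m))) (hleast m W hm) trivial ?_
    intro m' W _ h
    rw [W.inf_iff, ← cl_eq] at h
    refine iSup_elim (fun W => cl W (x m') = cl W (x m)) (fun U => ∃ b, App (Mem U)
      (cl U (relN oN x (enumB a))) b (cl U (x m))) (W.mono (enumB_surj a m') h.1) h.2 ?_
    intro γ W e h
    rw [← e]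
    exact ⟨_, app_relN h⟩
  · intro γ m γ' m' W _ h h'
    constructor
    · intro e
      obtain rfl := oN_inj e
      by_cases hm : m = m'
      · rw [hm]
      · exact (W.ne_bot (W.inf h h') (enumB_fun a γ m m' hm)).elim
    · intro e
      have h1 := W.inf_iff.1 (W.mono (enumB_le a _ _) h)
      have h2 := W.inf_iff.1 (W.mono (enumB_le a _ _) h')
      have hm : m = m' := by
        rcases lt_trichotomy m m' with h3 | h3 | h3
        · exact (W.compl_iff.1 h2.2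
            (W.iSup_intro m (W.iSup_intro h3 (W.inf h1.1 ((cl_eq _ _ _).1 e))))).elim
        · exact h3
        · exact (W.compl_iff.1 h1.2
            (W.iSup_intro m' (W.iSup_intro h3 (W.inf h2.1 ((cl_eq _ _ _).1 e.symm))))).elim
      subst hm
      by_cases hγ : γ = γ'
      · rw [hγ]
      · exact (W.ne_bot (W.inf h h') (enumB_inj a γ γ' m hγ)).elim

/-- the least ordinal in bijection with a set is a cardinal -/
theorem exists_card_mem {o : Ordinal.{0}} {U : Ult B} {G d : Mod U}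
    (hd : Mem U d (cl U (ordN o))) (h : Equinum (Mem U) d G) :
    ∃ k, Mem U k (cl U (ordN o)) ∧ IsCard (Mem U) k ∧ Equinum (Mem U) k G := by
  obtain ⟨G, rfl⟩ := cl_surj U G
  obtain ⟨k, hk, hmin⟩ := mod_found U
    (cl U (sepN (fun U b => Equinum (Mem U) b (cl U G)) (ordN o)))
    ⟨d, (mem_sepN _ _ U d).2 ⟨hd, h⟩⟩
  rw [mem_sepN] at hk
  exact ⟨k, hk.1, ⟨isOrd_of_mem hk.1, fun b hb e => hmin b hb ((mem_sepN _ _ U b).2
    ⟨(isOrd_ordN o U).1 k hk.1 b hb, card_equinum_trans e hk.2⟩)⟩, hk.2⟩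

theorem exists_card_ord (U : Ult B) (G : Mod U) : ∃ (o : Ordinal.{0}) (k : Mod U),
    Mem U k (cl U (ordN o)) ∧ IsCard (Mem U) k ∧ Equinum (Mem U) k G := by
  obtain ⟨G, rfl⟩ := cl_surj U G
  obtain ⟨e⟩ : Nonempty ((#G.Idx).ord.ToType ≃ G.Idx) := by
    rw [← Cardinal.eq, mk_ord_toType]
  obtain ⟨d, hd, h⟩ := exists_ord_equinum (fun m => G.ch (e m)) (fun m => G.wt (e m)) U
  have hG : cl U (Name.mk _ (fun m => G.ch (e m)) fun m => G.wt (e m)) = cl U G := by
    refine mod_ext U _ _ fun z => ⟨?_, ?_⟩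
    · exact mem_mk_ind (fun _ => True) (fun U z => Mem U z (cl U G)) trivial
        (fun i W _ hi => mem_of_wt hi) z
    · refine mem_ind (fun _ => True) (fun U z => Mem U z
        (cl U (Name.mk _ (fun m => G.ch (e m)) fun m => G.wt (e m)))) trivial ?_ z
      intro i W _ hi
      obtain ⟨m, rfl⟩ := e.surjective i
      exact mem_mk (A := fun m => G.ch (e m)) m hi
  rw [hG] at h
  exact ⟨_, exists_card_mem hd h⟩

/-- every set of the model has a cardinality -/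
theorem exists_card (U : Ult B) (G : Mod U) : ∃ k, IsCard (Mem U) k ∧ Equinum (Mem U) k G := by
  obtain ⟨o, k, -, h⟩ := exists_card_ord U G
  exact ⟨k, h⟩

/-- the additivity exists as soon as there is a bad family -/
theorem exists_isAdd (I : ∀ U : Ult B, Mod U → Prop) [∀ n : Name B, Clopen fun U => I U (cl U n)]
    {o : Ordinal.{0}} {U : Ult B} {b : Mod U} (hb : Mem U b (cl U (ordN o)))
    (h1 : IsCard (Mem U) b) (h2 : Bad (Mem U) (I U) b) :
    ∃ k, Mem U k (cl U (ordN o)) ∧ IsAdd (Mem U) (I U) k := by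
  obtain ⟨k, hk, hmin⟩ := mod_found U
    (cl U (sepN (fun U b => IsCard (Mem U) b ∧ Bad (Mem U) (I U) b) (ordN o)))
    ⟨b, (mem_sepN _ _ U b).2 ⟨hb, h1, h2⟩⟩
  rw [mem_sepN] at hk
  refine ⟨k, hk.1, hk.2.1, hk.2.2, fun l hl hl' => ?_⟩
  rcases sub_or_mem o l hl.1 with h | h
  · exact fun z hz => h z ((isOrd_ordN o U).1 k hk.1 z hz)
  · rcases (isOrd_ordN o U).2 k l hk.1 h with h3 | h3 | h3
    · exact hl.1.1 k h3
    · exact fun z hz => h3 ▸ hz
    · exact (hmin l h3 ((mem_sepN _ _ U l).2 ⟨h, hl, hl'⟩)).elim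

/-- `I` has a bad family indexed by the ordinal `o`, `J` has none but has some bad family -/
theorem add_lt (I J : ∀ U : Ult B, Mod U → Prop) [∀ n : Name B, Clopen fun U => I U (cl U n)]
    [∀ n : Name B, Clopen fun U => J U (cl U n)] (o : Ordinal.{0}) (U : Ult B)
    (hI : ∃ g Y V, IsFun (Mem U) g (cl U (ordN o)) Y ∧ (∀ n A, App (Mem U) g n A → I U A) ∧
      IsUnV (Mem U) V g ∧ ¬ I U V)
    (hJ : ∀ g D Y V, Sub (Mem U) D (cl U (ordN o)) → IsFun (Mem U) g D Y →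
      (∀ n A, App (Mem U) g n A → J U A) → IsUnV (Mem U) V g → J U V)
    (hJ' : ∃ G V, (∀ A, Mem U A G → J U A) ∧ IsUn (Mem U) V G ∧ ¬ J U V) :
    ∃ k l, IsAdd (Mem U) (I U) k ∧ IsAdd (Mem U) (J U) l ∧ Mem U k l := by
  obtain ⟨g, Y, V, hg, hgI, hV, hVI⟩ := hI
  obtain ⟨g, rfl⟩ := cl_surj U g
  obtain ⟨Y, rfl⟩ := cl_surj U Y
  choose x hx using fun m : o.ToType =>
    max_principle fun U A => App (Mem U) (cl U g) (cl U (oN m)) A
  have hmem : ∀ A, Mem U A (cl U (Name.mk o.ToType x fun _ => ⊤)) ↔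
      ∃ n, App (Mem U) (cl U g) n A := by
    intro A
    constructor
    · refine mem_mk_ind (fun U => IsFun (Mem U) (cl U g) (cl U (ordN o)) (cl U Y))
        (fun U A => ∃ n, App (Mem U) (cl U g) n A) hg ?_ A
      intro m W hW _
      exact ⟨_, hx m W (hW.2 _ (oN_mem m W)).exists⟩
    · rintro ⟨n, hn⟩
      refine oN_ind (fun U => IsFun (Mem U) (cl U g) (cl U (ordN o)) (cl U Y))
        (fun U n => ∀ A, App (Mem U) (cl U g) n A →
          Mem U A (cl U (Name.mk o.ToType x fun _ => ⊤))) hg ?_ n (hg.app_mem hn).1 A hn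
      intro m W hW A hA
      rw [hW.app_unique hA (hx m W ⟨A, hA⟩)]
      exact mem_mk m W.top
  obtain ⟨d, hd, hdG⟩ := exists_ord_equinum x (fun _ => ⊤) U
  obtain ⟨k0, hk0, hk1, hk2⟩ := exists_card_mem hd hdG
  obtain ⟨k, hk, hkI⟩ := exists_isAdd I hk0 hk1 ⟨_, V, hk2, fun A hA => by
    obtain ⟨n, hn⟩ := (hmem A).1 hA
    exact hgI n A hn, fun z => by
    rw [hV z]
    exact ⟨fun ⟨n, A, h1, h2⟩ => ⟨A, (hmem A).2 ⟨n, h1⟩, h2⟩, fun ⟨A, h1, h2⟩ =>
      ((hmem A).1 h1).elim fun n hn => ⟨n, A, hn, h2⟩⟩, hVI⟩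
  obtain ⟨G, V', hG, hV', hVJ⟩ := hJ'
  obtain ⟨o', l0, hl0, hl1, hl2⟩ := exists_card_ord U G
  obtain ⟨l, -, hl⟩ := exists_isAdd J hl0 hl1 ⟨G, V', hl2, hG, hV', hVJ⟩
  refine ⟨k, l, hkI, hl, ?_⟩
  rcases sub_or_mem (o + 1) l hl.1.1 with h | h
  · exact h k hk
  · obtain ⟨G', V'', ⟨f, hf⟩, h1, h2, h3⟩ := hl.2.1
    refine (h3 (hJ f l G' V'' ?_ hf.1 (fun n A hA => h1 A (hf.1.app_mem hA).2) fun z => ?_)).elim
    · rcases (isSuc_ordN o U l).1 h with h4 | h4
      · exact (isOrd_ordN o U).1 l h4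
      · exact fun z hz => h4 ▸ hz
    · rw [h2 z]
      exact ⟨fun ⟨A, h4, h5⟩ => (hf.2 A h4).exists.elim fun n hn => ⟨n, A, hn, h5⟩,
        fun ⟨n, A, h4, h5⟩ => ⟨A, (hf.1.app_mem h4).2, h5⟩⟩

end Pool.Agent.Lib.MP_f79ffc_lc.St
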