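import Pool.Agent.Lib.MP_f79ffc_lc.U.Base

/-!
Points of the Cantor space, measures, covers and universally null sets of a Boolean extension,
written with matrices of truth values only.
-/

namespace Pool.Agent.Lib.MP_f79ffc_lc.U

variable {A B : Type} [CompleteBooleanAlgebra A] [CompleteBooleanAlgebra B]

/-- `b` or its complement -/
def lit (c : Bool) (b : B) : B := cond c b bᶜ

/-- the point `x` (with `x n` the truth value of: bit `n` is one) lies in the cell `s` -/
def inC (x : ℕ → B) (s : List Bool) : B := ⨅ n : Fin s.length, lit (s.get n) (x n)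

/-- the points `x` and `y` are equal -/
def eqv (x y : ℕ → B) : B := ⨅ n, (x n ⇨ y n) ⊓ (y n ⇨ x n)

/-- `X x` is the truth value of a membership: it respects equality -/
def Ext (X : (ℕ → B) → B) : Prop := ∀ x y, eqv x y ⊓ X x ≤ X y

/-- below `p`, `m s r` is the truth value of: the cell `s` has measure at most `r`, for an
atomless probability measure -/
structure IsMeas (p : B) (m : List Bool → ℚ → B) : Prop where
  mono : ∀ s {a b : ℚ}, a ≤ b → p ⊓ m s a ≤ m s b
  closed : ∀ s (a : ℚ), p ⊓ (⨅ b, ⨅ _ : a < b, m s b) ≤ m s a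
  neg : ∀ s {a : ℚ}, a < 0 → p ⊓ m s a = ⊥
  le_one : ∀ s, p ≤ m s 1
  one : ∀ {a : ℚ}, a < 1 → p ⊓ m [] a = ⊥
  sub : ∀ s (a b : ℚ), p ⊓ m (s ++ [false]) a ⊓ m (s ++ [true]) b ≤ m s (a + b)
  sup : ∀ s (a b : ℚ), p ⊓ m s (a + b) ≤ m (s ++ [false]) a ⊔ m (s ++ [true]) b
  atomless : ∀ ε : ℚ, 0 < ε → p ≤ ⨆ n, ⨅ s : List Bool, ⨅ _ : s.length = n, m s ε

/-- below `p`, `w` is a set of pairs (cell, bound for its measure) of total cost at most `ε` -/
structure IsCov (p : B) (m : List Bool → ℚ → B) (ε : ℚ) (w : List Bool × ℚ → B) : Prop where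
  valid : ∀ t, p ⊓ w t ≤ m t.1 t.2
  cost : ∀ F : Finset (List Bool × ℚ), p ⊓ F.inf w ≠ ⊥ → ∑ t ∈ F, t.2 ≤ ε

/-- the point `x` is covered by `w` -/
def cov (w : List Bool × ℚ → B) (x : ℕ → B) : B := ⨆ t, w t ⊓ inC x t.1

/-- `p` forces that `X` is universally null -/
def UNb (p : B) (X : (ℕ → B) → B) : Prop :=
  ∀ p', p' ≤ p → ∀ m, IsMeas p' m → ∀ ε : ℚ, 0 < ε →
    ∃ w, IsCov p' m ε w ∧ ∀ x, p' ⊓ X x ≤ cov w x

/-- below `p`, `w` is a set of cells of total coin tossing measure at most `ε` -/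
def IsCovL (p : B) (ε : ℚ) (w : List Bool → B) : Prop :=
  ∀ F : Finset (List Bool), p ⊓ F.inf w ≠ ⊥ → ∑ s ∈ F, (1 / 2 : ℚ) ^ s.length ≤ ε

/-- the point `x` is covered by the set of cells `w` -/
def covL (w : List Bool → B) (x : ℕ → B) : B := ⨆ s, w s ⊓ inC x s

/-- the point `x` lies in a cell of `C n` for infinitely many `n` -/
def limC (C : ℕ → Finset (List Bool)) (x : ℕ → B) : B :=
  ⨅ m, ⨆ n, ⨆ _ : m ≤ n, ⨆ s, ⨆ _ : s ∈ C n, inC x s

/-- `ι` many null sets have a union that is not null -/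
def SmallAdd (B : Type) [CompleteBooleanAlgebra B] (ι : Type) : Prop :=
  ∃ C : ι → ℕ → Finset (List Bool),
    (∀ i n, ∑ s ∈ C i n, (1 / 2 : ℚ) ^ s.length ≤ (1 / 2 : ℚ) ^ n) ∧
    ∀ p : B, p ≠ ⊥ → ∀ w, IsCovL p (1 / 2) w → ∃ i x, p ⊓ limC (C i) x ⊓ (covL w x)ᶜ ≠ ⊥

/-- the union of `ι` many universally null sets is universally null -/
def BigAdd (B : Type) [CompleteBooleanAlgebra B] (ι : Type) : Prop :=
  ∀ (X : ι → (ℕ → B) → B) (p : B), p ≠ ⊥ → (∀ i, Ext (X i)) → (∀ i, UNb p (X i)) →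
    ∀ m, IsMeas p m → ∀ ε : ℚ, 0 < ε → ∃ p', p' ≤ p ∧ p' ≠ ⊥ ∧
      ∃ w, IsCov p' m ε w ∧ ∀ i x, p' ⊓ X i x ≤ cov w x

/-- what the forcing construction delivers -/
def GoodAlg : Prop := ∃ (B : Type) (_ : CompleteBooleanAlgebra B) (ι : Type),
  (⊤ : B) ≠ ⊥ ∧ SmallAdd B ι ∧ BigAdd B ι

theorem map_lit (f : Hm A B) (c : Bool) (a : A) : f (lit c a) = lit c (f a) := by
  cases c
  · exact hm_compl f a
  · rfl

theorem map_inC (f : Hm A B) (x : ℕ → A) (s : List Bool) :
    f (inC x s) = inC (fun n => f (x n)) s := by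
  simp only [inC, map_iInf, map_lit]

theorem map_eqv (f : Hm A B) (x y : ℕ → A) :
    f (eqv x y) = eqv (fun n => f (x n)) fun n => f (y n) := by
  simp only [eqv, map_iInf, map_inf, hm_himp]

theorem map_cov (f : Hm A B) (w : List Bool × ℚ → A) (x : ℕ → A) :
    f (cov w x) = cov (fun t => f (w t)) fun n => f (x n) := by
  simp only [cov, map_iSup, map_inf, map_inC]

theorem map_covL (f : Hm A B) (w : List Bool → A) (x : ℕ → A) :
    f (covL w x) = covL (fun t => f (w t)) fun n => f (x n) := by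
  simp only [covL, map_iSup, map_inf, map_inC]

theorem map_limC (f : Hm A B) (C : ℕ → Finset (List Bool)) (x : ℕ → A) :
    f (limC C x) = limC C fun n => f (x n) := by
  simp only [limC, map_iSup, map_iInf, map_inC]

theorem inC_nil (x : ℕ → B) : inC x [] = ⊤ := by simp [inC]

theorem le_inC {x : ℕ → B} {s : List Bool} {p : B} :
    p ≤ inC x s ↔ ∀ (n : ℕ) (h : n < s.length), p ≤ lit s[n] (x n) := by
  rw [inC, le_iInf_iff]
  exact ⟨fun h n hn => h ⟨n, hn⟩, fun h n => h n.1 n.2⟩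

theorem inC_concat (x : ℕ → B) (s : List Bool) (c : Bool) :
    inC x (s ++ [c]) = inC x s ⊓ lit c (x s.length) := by
  refine eq_of_forall_le_iff fun p => ?_
  rw [le_inf_iff, le_inC, le_inC]
  refine ⟨fun h => ⟨fun n hn => ?_, ?_⟩, fun h n hn => ?_⟩
  · have := h n (by simp; omega)
    rwa [List.getElem_append_left hn] at this
  · simpa using h s.length (by simp)
  · by_cases h1 : n < s.length
    · rw [List.getElem_append_left h1]
      exact h.1 n h1
    · obtain rfl : n = s.length := by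
        simp at hn
        omega
      simpa using h.2

theorem eqv_le_iff {p : B} {x y : ℕ → B} : p ≤ eqv x y ↔ ∀ n, p ⊓ x n = p ⊓ y n := by
  simp only [eqv, le_iInf_iff, le_inf_iff, le_himp_iff]
  exact forall_congr' fun n => ⟨fun h => le_antisymm (le_inf inf_le_left h.1)
    (le_inf inf_le_left h.2), fun h => ⟨h.le.trans inf_le_right, h.ge.trans inf_le_right⟩⟩

theorem eqv_comm (x y : ℕ → B) : eqv x y = eqv y x := by simp only [eqv, inf_comm]

theorem eqv_lit (x y : ℕ → B) (c : Bool) (n : ℕ) : eqv x y ⊓ lit c (x n) ≤ lit c (y n) := by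
  have h := eqv_le_iff.1 (le_refl (eqv x y)) n
  cases c
  · show eqv x y ⊓ (x n)ᶜ ≤ (y n)ᶜ
    rw [le_compl_iff_disjoint_right, disjoint_iff, inf_right_comm, ← h, inf_assoc,
      inf_compl_eq_bot, inf_bot_eq]
  · exact h.le.trans inf_le_right

theorem ext_inC (s : List Bool) : Ext fun x : ℕ → B => inC x s := fun x y =>
  le_inC.2 fun n hn => (inf_le_inf_left _ (le_inC.1 le_rfl n hn)).trans (eqv_lit x y _ n)

theorem ext_cov (w : List Bool × ℚ → B) : Ext (cov w) := fun x y => by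
  rw [cov, inf_iSup_eq]
  refine iSup_mono fun t => ?_
  rw [inf_left_comm]
  exact inf_le_inf_left _ (ext_inC t.1 x y)

theorem IsMeas.anti {p p' : B} {m : List Bool → ℚ → B} (h : IsMeas p m) (H : p' ≤ p) :
    IsMeas p' m :=
  ⟨fun s _ _ e => (inf_le_inf_right _ H).trans (h.mono s e),
    fun s a => (inf_le_inf_right _ H).trans (h.closed s a),
    fun s _ e => le_bot_iff.1 ((inf_le_inf_right _ H).trans (h.neg s e).le),
    fun s => H.trans (h.le_one s),
    fun e => le_bot_iff.1 ((inf_le_inf_right _ H).trans (h.one e).le),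
    fun s a b => (inf_le_inf_right _ (inf_le_inf_right _ H)).trans (h.sub s a b),
    fun s a b => (inf_le_inf_right _ H).trans (h.sup s a b),
    fun ε e => H.trans (h.atomless ε e)⟩

theorem IsCov.anti {p p' : B} {m : List Bool → ℚ → B} {ε : ℚ} {w : List Bool × ℚ → B}
    (h : IsCov p m ε w) (H : p' ≤ p) : IsCov p' m ε w :=
  ⟨fun t => (inf_le_inf_right _ H).trans (h.valid t),
    fun F e => h.cost F (ne_bot_of_le (inf_le_inf_right _ H) e)⟩

theorem UNb.anti {p p' : B} {X : (ℕ → B) → B} (h : UNb p X) (H : p' ≤ p) : UNb p' X :=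
  fun r hr => h r (hr.trans H)

end Pool.Agent.Lib.MP_f79ffc_lc.U
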