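import Pool.Agent.Lib.MP_f79ffc_lc.U.M.Kit

/-!
The Borel sigma algebra exists in the quotient models.
-/

namespace Pool.Agent.Lib.MP_f79ffc_lc.St

open Pool.Agent.Lib.MP_5d9fac_lc Pool.Agent.Lib.MP_c1e359_an

variable {B : Type} [CompleteBooleanAlgebra B]

theorem exists_borel (U : Ult B) (F : RF (Mod U)) :
    ∃ Bo, IsBorel (Mem U) F (cl U (ordN Ordinal.omega0)) Bo := by
  obtain ⟨R, add, mul, le, zero, one⟩ := F
  obtain ⟨R, rfl⟩ := cl_surj U R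
  obtain ⟨add, rfl⟩ := cl_surj U add
  obtain ⟨mul, rfl⟩ := cl_surj U mul
  obtain ⟨le, rfl⟩ := cl_surj U le
  obtain ⟨zero, rfl⟩ := cl_surj U zero
  obtain ⟨one, rfl⟩ := cl_surj U one
  let N : RF (Name B) := ⟨R, add, mul, le, zero, one⟩
  obtain ⟨Bo, hBo⟩ := exists_sep (q := (⊤ : B)) (fun W A => ∀ S,
    IsSig (Mem W.1) (clF W.1 N) (cl W.1 omN) S → Mem W.1 A S) (powN R)
  replace hBo : ∀ A, Mem U A (cl U Bo) ↔ Sub (Mem U) A (cl U R) ∧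
      ∀ S, IsSig (Mem U) (clF U N) (cl U omN) S → Mem U A S := fun A => by
    rw [← isPow_powN R U A]
    exact hBo ⟨U, U.top⟩ A
  refine ⟨cl U Bo, ⟨fun A hA => ((hBo A).1 hA).1, fun a A ha hA => ?_, fun A C hA hC => ?_,
    fun f V hf hV => ?_⟩, fun S hS A hA => ((hBo A).1 hA).2 S hS⟩
  · exact (hBo A).2 ⟨fun x hx => ((hA x).1 hx).1, fun S hS => hS.2.1 a A ha hA⟩
  · exact (hBo C).2 ⟨fun x hx => ((hC x).1 hx).1,
      fun S hS => hS.2.2.1 A C (((hBo A).1 hA).2 S hS) hC⟩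
  · refine (hBo V).2 ⟨fun x hx => ?_, fun S hS => hS.2.2.2 f V ⟨fun p hp => ?_, hf.2⟩ hV⟩
    · obtain ⟨n, A, h1, h2⟩ := (hV x).1 hx
      exact ((hBo A).1 (hf.app_mem h1).2).1 x h2
    · obtain ⟨a, b, h1, h2, h3⟩ := hf.1 p hp
      exact ⟨a, b, h1, ((hBo b).1 h2).2 S hS, h3⟩

end Pool.Agent.Lib.MP_f79ffc_lc.St
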