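import Pool.Agent.Lib.MP_c1e359_an.Fin
import Pool.Agent.Lib.MP_f79ffc_lc.U.M.Defs

/-!
Sequences, series and suprema in the quotient models.
-/

namespace Pool.Agent.Lib.MP_f79ffc_lc.St

open Pool.Agent.Lib.MP_5d9fac_lc Pool.Agent.Lib.MP_c1e359_an Filter

variable {B : Type} [CompleteBooleanAlgebra B]

/-- the name of the set of natural numbers -/
noncomputable abbrev omN : Name B := ordN Ordinal.omega0

section
set_option synthInstance.maxSize 4096
variable {q : B} (N : RF (Name B)) (a b c : ∀ W : Pt q, Mod W.1) [RepM a] [RepM b] [RepM c]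

instance clEmp : Cl fun W => IsEmp (Mem W.1) (a W) := by unfold IsEmp; infer_instance
instance clSuc : Cl fun W => IsSuc (Mem W.1) (a W) (b W) := by unfold IsSuc; infer_instance
instance clUn : Cl fun W => IsUn (Mem W.1) (a W) (b W) := by unfold IsUn; infer_instance
instance clUnV : Cl fun W => IsUnV (Mem W.1) (a W) (b W) := by unfold IsUnV; infer_instance
instance clLess : Cl fun W => Less (Mem W.1) (clF W.1 N) (a W) (b W) := by
  unfold Less Ne; infer_instance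
instance clSumLe : Cl fun W => SumLe (Mem W.1) (clF W.1 N) (cl W.1 omN) (a W) (b W) := by
  unfold SumLe; infer_instance
instance clSum : Cl fun W => IsSum (Mem W.1) (clF W.1 N) (cl W.1 omN) (a W) (b W) := by
  unfold IsSum; infer_instance
instance clLeb : Cl fun W => LebNull (Mem W.1) (clF W.1 N) (cl W.1 omN) (a W) := by
  unfold LebNull; infer_instance
instance clSig : Cl fun W => IsSig (Mem W.1) (clF W.1 N) (cl W.1 omN) (a W) := by
  unfold IsSig; infer_instance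
instance clBorel : Cl fun W => IsBorel (Mem W.1) (clF W.1 N) (cl W.1 omN) (a W) := by
  unfold IsBorel; infer_instance
instance clProb : Cl fun W => IsProb (Mem W.1) (clF W.1 N) (cl W.1 omN) (a W) (b W) := by
  unfold IsProb; infer_instance
instance clUN : Cl fun W => UnivNull (Mem W.1) (clF W.1 N) (cl W.1 omN) (a W) (b W) := by
  unfold UnivNull; infer_instance
end

theorem nat_mem (U : Ult B) (n : ℕ) : Mem U (cl U (ordN n)) (cl U omN) :=
  ordN_mem (Ordinal.natCast_lt_omega0 n) U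

theorem nat_inj {U : Ult B} {n m : ℕ} (h : cl U (ordN n) = cl U (ordN m)) : n = m := by
  exact_mod_cast ordN_inj h

theorem nat_ind {q : B} (Q : ∀ W : Pt q, Mod W.1 → Prop) [∀ n : Name B, Cl fun W => Q W (cl W.1 n)]
    (H : ∀ (i : ℕ) W, Q W (cl W.1 (ordN i))) (W : Pt q) (z : Mod W.1)
    (hz : Mem W.1 z (cl W.1 omN)) : Q W z := (ixN q).ind Q H W z hz

theorem gen_nat {q : B} (n : Name B) : ∀ᶠ W in gen q,
    Mem W.1 (cl W.1 n) (cl W.1 omN) → ∃ i : ℕ, cl W.1 n = cl W.1 (ordN i) := (ixN q).gen n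

theorem emp_eq {U : Ult B} {z : Mod U} (h : IsEmp (Mem U) z) : z = cl U (ordN (0 : ℕ)) := by
  rw [Nat.cast_zero]
  exact mod_ext U _ _ fun x => ⟨fun h' => (h x h').elim, fun h' => (isEmp_ordN U x h').elim⟩

theorem isSuc_nat (U : Ult B) (n : ℕ) :
    IsSuc (Mem U) (cl U (ordN (n + 1 : ℕ))) (cl U (ordN n)) := by
  rw [Nat.cast_succ]
  exact isSuc_ordN n U

theorem suc_eq {U : Ult B} {n : ℕ} {z : Mod U} (h : IsSuc (Mem U) z (cl U (ordN n))) :
    z = cl U (ordN (n + 1 : ℕ)) := mod_ext U _ _ fun x => by rw [h x, isSuc_nat U n x]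

theorem exists_seq {q : B} (y : ℕ → Name B) (Y : Name B)
    (h : ∀ n (W : Pt q), Mem W.1 (cl W.1 (y n)) (cl W.1 Y)) :
    ∃ f : Name B, ∀ W : Pt q, IsFun (Mem W.1) (cl W.1 f) (cl W.1 omN) (cl W.1 Y) ∧
      ∀ n : ℕ, App (Mem W.1) (cl W.1 f) (cl W.1 (ordN n)) (cl W.1 (y n)) := by
  let f : Name B := Name.mk ℕ (fun n => opairN (ordN n) (y n)) fun _ => ⊤
  have e1 : ∀ (W : Pt q) (n : ℕ), App (Mem W.1) (cl W.1 f) (cl W.1 (ordN n)) (cl W.1 (y n)) :=
    fun W n => ⟨_, isOPair_opairN _ _ _,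
      mem_mk (A := fun n : ℕ => opairN (ordN n) (y n)) n W.1.top⟩
  refine ⟨f, fun W => ⟨⟨?_, ?_⟩, e1 W⟩⟩
  · refine mk_ind (fun W p => ∃ x z, Mem W.1 x (cl W.1 omN) ∧ Mem W.1 z (cl W.1 Y) ∧
      IsOPair (Mem W.1) p x z) (fun i W _ => ?_) W
    exact ⟨_, _, nat_mem _ i, h i W, isOPair_opairN _ _ _⟩
  · refine nat_ind (fun W x => ∃! z, App (Mem W.1) (cl W.1 f) x z) (fun i W => ?_) W
    refine ⟨_, e1 W i, ?_⟩
    rintro z ⟨p, hp1, hp2⟩
    refine mk_ind (fun W p => ∀ z, IsOPair (Mem W.1) p (cl W.1 (ordN i)) z → z = cl W.1 (y i))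
      (fun j W _ z hz => ?_) W p hp2 z hp1
    obtain ⟨h3, rfl⟩ := opair_inj hz (isOPair_opairN _ _ _)
    rw [nat_inj h3]

variable {S : Base B}

theorem less_iff {W : Pt S.q} {a b : S.KK W} :
    Less (Mem W.1) (clF W.1 S.N) a.1 b.1 ↔ a < b := by
  rw [lt_iff_le_and_ne, Less, K.le_iff]
  exact and_congr_right fun _ => ⟨fun h e => h (congrArg Subtype.val e), fun h e => h (K.ext e)⟩

/-- a sequence of terms as one function of the model -/
theorem exists_rseq (τ : ℕ → ∀ W : Pt S.q, S.KK W) [h : ∀ n, Rep (τ n)] :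
    ∃ c : Name B, ∀ W : Pt S.q, IsFun (Mem W.1) (cl W.1 c) (cl W.1 omN) (clF W.1 S.N).R ∧
      ∀ n : ℕ, ev (S.ctx W) (cl W.1 c) (cl W.1 (ordN n)) = τ n W := by
  choose y hy using fun n => (h n).ex_name
  obtain ⟨c, hc⟩ := exists_seq (q := S.q) y S.N.R fun n W => by
    rw [← hy]
    exact (τ n W).2
  exact ⟨c, fun W => ⟨(hc W).1, fun n =>
    K.ext ((ev_of_app (hc W).1 ((hc W).2 n)).symm.trans (hy n W).symm)⟩⟩

theorem SumLe.sum_le {W : Pt S.q} {c : Mod W.1} {r : S.KK W}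
    (h : SumLe (Mem W.1) (clF W.1 S.N) (cl W.1 omN) c r.1) (N : ℕ) :
    ∑ n ∈ Finset.range N, ev (S.ctx W) c (cl W.1 (ordN n)) ≤ r := by
  obtain ⟨hc, p, hp, h0, h1, h2⟩ := h
  have key : ∀ N : ℕ, ev (S.ctx W) p (cl W.1 (ordN N)) =
      ∑ n ∈ Finset.range N, ev (S.ctx W) c (cl W.1 (ordN n)) := by
    intro N
    induction N with
    | zero =>
      refine (K.ext (ev_of_app hp (h0 _ ?_))).symm
      rw [Nat.cast_zero]
      exact isEmp_ordN W.1
    | succ N ih =>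
      rw [Finset.sum_range_succ, ← ih]
      exact K.ext (K.add_iff.1 (h1 _ _ _ _ _ (isSuc_nat W.1 N) (app_ev hp (nat_mem _ N))
        (app_ev hc (nat_mem _ N)) (app_ev hp (nat_mem _ (N + 1)))))
  rw [← key]
  exact h2 _ _ (app_ev hp (nat_mem _ N))

theorem sumLe_of (c : Name B) (τ : ∀ W : Pt S.q, S.KK W) [Rep τ] (P : Pt S.q → Prop) [Cl P]
    (hc : ∀ W, P W → IsFun (Mem W.1) (cl W.1 c) (cl W.1 omN) (clF W.1 S.N).R)
    (h : ∀ N W, P W → ∑ n ∈ Finset.range N, ev (S.ctx W) (cl W.1 c) (cl W.1 (ordN n)) ≤ τ W)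
    (W : Pt S.q) (hW : P W) :
    SumLe (Mem W.1) (clF W.1 S.N) (cl W.1 omN) (cl W.1 c) (τ W).1 := by
  obtain ⟨p, hp⟩ := exists_rseq (S := S) fun N W =>
    ∑ n ∈ Finset.range N, ev (S.ctx W) (cl W.1 c) (cl W.1 (ordN n))
  refine ⟨hc W hW, cl W.1 p, (hp W).1, fun z hz => ?_, fun n m s t v h1 h2 => ?_,
    fun n s h1 => ?_⟩
  · have := app_ev (h := S.ctx W) (hp W).1 (nat_mem _ 0)
    rw [(hp W).2, Finset.sum_range_zero] at this
    rw [emp_eq hz]
    exact this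
  · refine nat_ind (fun W n => P W → ∀ m s t v, IsSuc (Mem W.1) m n →
      App (Mem W.1) (cl W.1 p) n s → App (Mem W.1) (cl W.1 c) n t →
      App (Mem W.1) (cl W.1 p) m v → Op (Mem W.1) (clF W.1 S.N).add s t v)
      (fun i V hV m s t v e1 e2 e3 e4 => ?_) W n ((hp W).1.app_mem h2).1 hW m s t v h1 h2
    rw [suc_eq e1] at e4
    rw [ev_of_app (h := S.ctx V) (hp V).1 e2, ev_of_app (h := S.ctx V) (hc V hV) e3,
      ev_of_app (h := S.ctx V) (hp V).1 e4, (hp V).2, (hp V).2, Finset.sum_range_succ]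
    exact K.add_spec _ _
  · refine nat_ind (fun W n => P W → ∀ s, App (Mem W.1) (cl W.1 p) n s →
      App (Mem W.1) (clF W.1 S.N).le s (τ W).1) (fun i V hV s e => ?_) W n
      ((hp W).1.app_mem h1).1 hW s h1
    rw [ev_of_app (h := S.ctx V) (hp V).1 e, (hp V).2]
    exact h i V hV

/-- least upper bounds of weighted families of terms -/
theorem exists_lub {I : Type} (v : I → ∀ W : Pt S.q, S.KK W) [h : ∀ i, Rep (v i)] (wt : I → B) :
    ∃ τ : ∀ W : Pt S.q, S.KK W, Rep τ ∧ ∀ (β : ∀ W : Pt S.q, S.KK W) [Rep β]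
      (P : Pt S.q → Prop) [Cl P], (∀ i W, P W → W.1.In (wt i) → v i W ≤ β W) →
      ∀ W i, P W → W.1.In (wt i) → v i W ≤ τ W ∧ τ W ≤ β W := by
  choose l hl using fun i => (h i).ex_name
  let X : Name B := Name.mk I l wt
  let τ : ∀ W : Pt S.q, S.KK W := fun W => the fun s =>
    (∀ z, Mem W.1 z (cl W.1 X) → val (S.ctx W) z ≤ s) ∧
      ∀ t, (∀ z, Mem W.1 z (cl W.1 X) → val (S.ctx W) z ≤ t) → s ≤ t
  refine ⟨τ, by unfold τ; infer_instance, fun β _ P _ H W i hW hi => ?_⟩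
  have h0 : Sub (Mem W.1) (cl W.1 X) (clF W.1 S.N).R :=
    mk_ind (fun W z => Mem W.1 z (clF W.1 S.N).R) (fun j V _ => by
      rw [← hl]
      exact (v j V).2) W
  have h2 : Mem W.1 (v i W).1 (cl W.1 X) := by
    rw [hl]
    exact mem_mk (A := l) i hi
  have h3 : ∀ z, Mem W.1 z (cl W.1 X) → val (S.ctx W) z ≤ β W := fun z hz =>
    mk_ind (fun W z => P W → val (S.ctx W) z ≤ β W) (fun j V hj hV => by
      rw [← hl, val_coe]
      exact H j V hV hj) W z hz hW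
  obtain ⟨s, hs⟩ := K.complete (h := S.ctx W) (S := cl W.1 X) h0 _ (β W) h2 fun s hs => by
    simpa only [val_coe] using h3 _ hs
  have h5 : ∀ z, Mem W.1 z (cl W.1 X) → val (S.ctx W) z ≤ s := fun z hz =>
    hs.1 (show Mem W.1 (val (S.ctx W) z).1 (cl W.1 X) by rwa [val_of_mem (h0 z hz)])
  have h6 : ∀ t, (∀ z, Mem W.1 z (cl W.1 X) → val (S.ctx W) z ≤ t) → s ≤ t :=
    fun t ht => hs.2 fun s' hs' => by simpa only [val_coe] using ht _ hs'
  have h7 : τ W = s := the_eq ⟨h5, h6⟩ fun t ht => le_antisymm (ht.2 s h5) (h6 t ht.1)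
  rw [h7]
  exact ⟨hs.1 h2, h6 _ h3⟩

/-- a rational in a small interval above a term -/
theorem gen_above (τ : ∀ W : Pt S.q, S.KK W) [Rep τ] {ε : ℚ} (hε : 0 < ε) :
    ∀ᶠ W in gen S.q, ∃ t : ℚ, τ W < t ∧ (t : S.KK W) ≤ τ W + ε := by
  filter_upwards [gen_rat τ (ε := ε / 4) (by positivity)] with W ⟨t, ht⟩
  have h1 : (0 : S.KK W) < ε := by exact_mod_cast hε
  rw [abs_le] at ht
  push_cast at ht
  exact ⟨t + ε / 2, by push_cast; linarith [ht.2], by push_cast; linarith [ht.1]⟩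

/-- a rational in a small interval below a term -/
theorem gen_below (τ : ∀ W : Pt S.q, S.KK W) [Rep τ] {ε : ℚ} (hε : 0 < ε) :
    ∀ᶠ W in gen S.q, ∃ t : ℚ, (t : S.KK W) < τ W ∧ τ W - ε ≤ t := by
  filter_upwards [gen_rat τ (ε := ε / 4) (by positivity)] with W ⟨t, ht⟩
  have h1 : (0 : S.KK W) < ε := by exact_mod_cast hε
  rw [abs_le] at ht
  push_cast at ht
  exact ⟨t - ε / 2, by push_cast; linarith [ht.1], by push_cast; linarith [ht.2]⟩

/-- a positive term lies above a positive rational -/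
theorem gen_pos (τ : ∀ W : Pt S.q, S.KK W) [Rep τ] :
    ∀ᶠ W in gen S.q, 0 < τ W → ∃ ε : ℚ, 0 < ε ∧ (ε : S.KK W) ≤ τ W := by
  filter_upwards [gen_arch fun W => (τ W)⁻¹] with W ⟨k, hk⟩ h
  refine ⟨1 / (k + 1), by positivity, ?_⟩
  push_cast
  rw [div_le_iff₀ (by positivity)]
  rw [inv_le_iff_one_le_mul₀ h] at hk
  nlinarith

/-- two rationals between two terms -/
theorem gen_between (τ σ : ∀ W : Pt S.q, S.KK W) [Rep τ] [Rep σ] :
    ∀ᶠ W in gen S.q, τ W < σ W → ∃ u v : ℚ, τ W < u ∧ u < v ∧ (v : S.KK W) < σ W := by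
  have h1 : ∀ᶠ W in gen S.q, τ W < σ W →
      ∃ ε : {ε : ℚ // 0 < ε}, (ε.1 : S.KK W) ≤ σ W - τ W := by
    filter_upwards [gen_pos fun W => σ W - τ W] with W h h'
    obtain ⟨ε, h2, h3⟩ := h (sub_pos.2 h')
    exact ⟨⟨ε, h2⟩, h3⟩
  filter_upwards [gen_bind h1 fun ε => gen_above τ (ε := ε.1 / 3) (by have := ε.2; positivity)]
    with W h h'
  obtain ⟨⟨ε, h2⟩, h3, t, h4, h5⟩ := h h'
  have h6 : (0 : S.KK W) < ε := by exact_mod_cast h2
  push_cast at h5
  exact ⟨t, t + ε / 3, h4, by linarith, by push_cast; linarith⟩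

theorem le_of_eps (τ σ : ∀ W : Pt S.q, S.KK W) [Rep τ] [Rep σ] (P : Pt S.q → Prop)
    [Cl P] (h : ∀ ε : ℚ, 0 < ε → ∀ᶠ W in gen S.q, P W → τ W ≤ σ W + ε) (W : Pt S.q)
    (hW : P W) : τ W ≤ σ W :=
  le_of_small τ σ (fun _ => 1) P (fun ε hε => by simpa only [one_mul] using h ε hε) W hW

/-- order of the algebra below the base condition -/
theorem inf_le_of {q a b : B} (h : ∀ W : Pt q, W.1.In a → W.1.In b) : q ⊓ a ≤ b :=
  Ult.le_of fun U hU => h ⟨U, (U.inf_iff.1 hU).1⟩ (U.inf_iff.1 hU).2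

theorem q_le_of {q b : B} (h : ∀ W : Pt q, W.1.In b) : q ≤ b := Ult.le_of fun U hU => h ⟨U, hU⟩

theorem Pt.of_le {q a b : B} (h : q ⊓ a ≤ b) (W : Pt q) (ha : W.1.In a) : W.1.In b :=
  W.1.mono h (W.1.inf W.2 ha)

/-- restriction of the base condition -/
def res (S : Base B) {p : B} (h : p ≤ S.q) : Base B :=
  ⟨p, S.N, fun W => S.reals ⟨W.1, W.1.mono h W.2⟩⟩

/-- a choice function with truth values -/
theorem exists_pick {I : Type} (g : I → B) : ∃ d : I → B, (∀ i, d i ≤ g i) ∧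
    (∀ i j, i ≠ j → d i ⊓ d j = ⊥) ∧ ⨆ i, g i = ⨆ i, d i := by
  obtain ⟨_, _⟩ := exists_wellFoundedLT I
  exact ⟨_, fun _ => inf_le_left, disjoint_least g, iSup_eq_iSup_least g⟩

/-- mixing of matrices -/
theorem exists_mixm {I : Type} (Φ : (I → B) → B)
    (h : ∀ (p : B) v v', (∀ i, p ⊓ v i = p ⊓ v' i) → p ⊓ Φ v ≤ Φ v') :
    ∃ v, ∀ v', Φ v' ≤ Φ v := by
  obtain ⟨d, h1, h2, h3⟩ := exists_pick Φ
  refine ⟨fun i => ⨆ v, d v ⊓ v i, fun v' => (le_iSup Φ v').trans ?_⟩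
  rw [h3]
  refine iSup_le fun v => le_trans (le_inf le_rfl (h1 v)) (h (d v) v _ fun i => ?_)
  refine le_antisymm (le_inf inf_le_left (le_iSup (fun v => d v ⊓ v i) v)) ?_
  rw [inf_iSup_eq]
  refine iSup_le fun u => ?_
  by_cases e : v = u
  · rw [← e]
    exact inf_le_right
  · rw [← inf_assoc, h2 v u e, bot_inf_eq]
    exact bot_le

theorem in_finset_inf {U : Ult B} {ι : Type*} {F : Finset ι} {f : ι → B} :
    U.In (F.inf f) ↔ ∀ i ∈ F, U.In (f i) := by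
  classical
  induction F using Finset.induction_on with
  | empty => simpa using U.top
  | insert a s _ ih => rw [Finset.inf_insert, U.inf_iff, ih, Finset.forall_mem_insert]

end Pool.Agent.Lib.MP_f79ffc_lc.St
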