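import Pool.Agent.Lib.MP_f79ffc_lc.R.Gen
import Pool.Agent.Lib.MP_f79ffc_lc.U.M.Kit

/-!
The quotient models have a complete ordered field.
-/

namespace Pool.Agent.Lib.MP_f79ffc_lc.St.Rl

open Pool.Agent.Lib.MP_5d9fac_lc Pool.Agent.Lib.MP_c1e359_an Filter

variable {B : Type} [CompleteBooleanAlgebra B]

/-- measurable real functions of the ultrafilter -/
def MF (B : Type) [CompleteBooleanAlgebra B] : Type := {f : Ult B → ℝ // Measurable f}

/-- the value of `P` lies in `U` -/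
def Tr (U : Ult B) (P : Ult B → Prop) : Prop := U.In (R.bv {W | P W})

instance (P : Ult B → Prop) : Clopen fun U => Tr U P := ⟨_, fun _ => Iff.rfl⟩

variable {U : Ult B} {P Q : Ult B → Prop}

theorem tr_of (C : Ult B → Prop) [Clopen C] (h : ∀ᶠ W in R.gen B, C W → Q W) (hU : C U) :
    Tr U Q :=
  U.mono (le_sSup (h.mono fun W h1 h2 => h1 ((in_bv C W).1 h2))) ((in_bv C U).2 hU)

theorem gen_tr (h : MeasurableSet {W | P W}) : ∀ᶠ W in R.gen B, Tr W P ↔ P W := R.In_bv h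

theorem Tr.mono (h : Tr U P) (H : ∀ W, P W → Q W) : Tr U Q := by
  refine U.mono (sSup_le_sSup fun a ha => ?_) h
  exact (show ∀ᶠ W in R.gen B, W.In a → P W from ha).mono fun W h1 h2 => H W (h1 h2)

theorem Tr.and (h : Tr U P) (h' : Tr U Q) : Tr U fun W => P W ∧ Q W := by
  refine U.mono ?_ (U.inf h h')
  rw [R.bv, R.bv, sSup_inf_sSup]
  refine iSup₂_le fun p hp => le_sSup ?_
  show ∀ᶠ W in R.gen B, W.In (p.1 ⊓ p.2) → P W ∧ Q W
  filter_upwards [show ∀ᶠ W in R.gen B, W.In p.1 → P W from hp.1,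
    show ∀ᶠ W in R.gen B, W.In p.2 → Q W from hp.2] with W h1 h2 h3
  exact ⟨h1 (W.inf_iff.1 h3).1, h2 (W.inf_iff.1 h3).2⟩

theorem tr_all (H : ∀ W, P W) : Tr U P :=
  tr_of (fun _ => True) (Eventually.of_forall fun W _ => H W) trivial

theorem Tr.elim (h : Tr U P) (H : ∀ W, ¬ P W) : False := by
  refine U.ne_bot h (le_bot_iff.1 (sSup_le fun a ha => R.le_iff_gen.2 ?_))
  exact Eventually.mono ha fun W h1 h2 => (H W (h1 h2)).elim

theorem tr_of_not (hP : MeasurableSet {W | P W}) (h : ¬ Tr U P) (H : ∀ W, ¬ P W → Q W) :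
    Tr U Q :=
  tr_of (fun W => ¬ Tr W P) ((gen_tr hP).mono fun W h1 h2 => H W fun h3 => h2 (h1.2 h3)) h

theorem of_gen' (C D : Ult B → Prop) [Clopen C] [Clopen D] (h : ∀ᶠ W in R.gen B, C W → D W)
    (hU : C U) : D U := by
  rw [← in_bv D]
  refine U.mono (R.le_iff_gen.2 ?_) ((in_bv C U).2 hU)
  simpa only [in_bv] using h

/-- the name of a rational -/
noncomputable def qN (q : ℚ) : Name B := ordN (Encodable.encode q : ℕ)

theorem qN_inj {q r : ℚ} (h : cl U (qN q) = cl U (qN r)) : q = r :=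
  Encodable.encode_injective (nat_inj h)

/-- the name of the lower cut of `f` -/
noncomputable def nm (f : MF B) : Name B := Name.mk ℚ qN fun q => R.bv {W | (q : ℝ) < f.1 W}

theorem ms_lt (q : ℚ) (f : MF B) : MeasurableSet {W | (q : ℝ) < f.1 W} :=
  measurableSet_lt measurable_const f.2

theorem gen_lt (f : MF B) :
    ∀ᶠ W in R.gen B, ∀ q : ℚ, (Tr W fun V => (q : ℝ) < f.1 V) ↔ (q : ℝ) < f.1 W :=
  eventually_countable_forall.2 fun q => gen_tr (ms_lt q f)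

theorem mem_nm {q : ℚ} {f : MF B} :
    Mem U (cl U (qN q)) (cl U (nm f)) ↔ Tr U fun W => (q : ℝ) < f.1 W := by
  refine ⟨fun h => ?_, fun h => mem_mk (A := qN) q h⟩
  refine mem_mk_ind (fun _ => True) (fun U z => z = cl U (qN q) → Tr U fun W => (q : ℝ) < f.1 W)
    trivial (fun r W _ h1 h2 => ?_) _ h rfl
  exact qN_inj h2 ▸ h1

theorem nm_sub {f g : MF B} (h : Tr U fun W => f.1 W ≤ g.1 W) :
    Sub (Mem U) (cl U (nm f)) (cl U (nm g)) :=
  mem_mk_ind (fun U => Tr U fun W => f.1 W ≤ g.1 W) (fun U z => Mem U z (cl U (nm g))) h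
    fun _ _ h1 h2 => mem_nm.2 ((Tr.and h1 h2).mono fun _ h3 => h3.2.trans_le h3.1)

theorem nm_eq {f g : MF B} : cl U (nm f) = cl U (nm g) ↔ Tr U fun W => f.1 W = g.1 W := by
  refine ⟨fun h => tr_of (fun U => cl U (nm f) = cl U (nm g)) ?_ h, fun h => mod_ext U _ _ fun x =>
    ⟨nm_sub (h.mono fun _ h => h.le) x, nm_sub (h.mono fun _ h => h.ge) x⟩⟩
  filter_upwards [gen_lt f, gen_lt g] with W h1 h2 h3
  refine eq_of_forall_rat_lt_iff_lt fun q => ?_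
  rw [← h1, ← h2, ← mem_nm, ← mem_nm, h3]

theorem exists_mf (p : B) (x : ℚ → B) (h1 : ∀ q r, q ≤ r → p ⊓ x r ≤ x q)
    (h2 : ∀ q, p ⊓ x q ≤ ⨆ r, ⨆ _ : q < r, x r) (h3 : p ≤ ⨆ q, x q) (h4 : p ≤ ⨆ q, (x q)ᶜ) :
    ∃ f : MF B, ∀ (U : Ult B) (q : ℚ), U.In p → ((Tr U fun W => (q : ℝ) < f.1 W) ↔ U.In (x q)) := by
  classical
  let f : Ult B → ℝ := fun W => if W.In p then sSup {t : ℝ | ∃ q : ℚ, W.In (x q) ∧ t = q} else 0
  have key : ∀ᶠ W in R.gen B, W.In p → ∀ q : ℚ, (q : ℝ) < f W ↔ W.In (x q) := by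
    filter_upwards [R.gen_iSup x, R.gen_iSup fun q => (x q)ᶜ, eventually_countable_forall.2
      fun q => R.gen_iSup fun r : {r // q < r} => x r.1] with W e1 e2 e3 hp q
    obtain ⟨a, ha⟩ := e1.1 (W.mono h3 hp)
    obtain ⟨b, hb⟩ := e2.1 (W.mono h4 hp)
    have hbd : BddAbove {t : ℝ | ∃ q : ℚ, W.In (x q) ∧ t = q} := ⟨b, by
      rintro _ ⟨r, hr, rfl⟩
      by_contra hc
      have : b ≤ r := by exact_mod_cast (not_le.1 hc).le
      exact W.compl_iff.1 hb (W.mono (h1 b r this) (W.inf hp hr))⟩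
    simp only [f, if_pos hp]
    rw [lt_csSup_iff hbd ⟨a, a, ha, rfl⟩]
    refine ⟨?_, fun hq => ?_⟩
    · rintro ⟨_, ⟨r, hr, rfl⟩, h⟩
      exact W.mono (h1 q r (by exact_mod_cast h.le)) (W.inf hp hr)
    · obtain ⟨r, hr⟩ := (e3 q).1 (by
        rw [iSup_subtype]
        exact W.mono (h2 q) (W.inf hp hq))
      exact ⟨r.1, ⟨r.1, hr, rfl⟩, by exact_mod_cast r.2⟩
  have hm : ∀ q : ℚ, MeasurableSet {W | (q : ℝ) < f W} := fun q => by
    refine ⟨p ⊓ x q ⊔ pᶜ ⊓ ⨆ _ : q < 0, ⊤, key.mono fun W h => ?_⟩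
    rw [W.sup_iff, W.inf_iff, W.inf_iff, W.compl_iff, Set.mem_ofPred_eq]
    by_cases hp : W.In p
    · simp [hp, h hp]
    · by_cases hq : q < 0
      · simp [f, hp, hq, W.top]
      · simp [f, hp, hq, W.not_bot]
  have hf : Measurable f := by
    refine measurable_of_Ioi fun t => ?_
    have : f ⁻¹' Set.Ioi t = ⋃ q : {q : ℚ // t < q}, {W | (q.1 : ℝ) < f W} := by
      ext W
      simp only [Set.mem_preimage, Set.mem_Ioi, Set.mem_iUnion, Set.mem_ofPred_eq]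
      refine ⟨fun h => ?_, fun ⟨q, h⟩ => q.2.trans h⟩
      obtain ⟨q, h5, h6⟩ := exists_rat_btwn h
      exact ⟨⟨q, h5⟩, h6⟩
    rw [this]
    exact MeasurableSet.iUnion fun q => hm q.1
  refine ⟨⟨f, hf⟩, fun U q hp => ⟨fun h => ?_, fun h => ?_⟩⟩
  · refine of_gen' (fun U => U.In p ∧ Tr U fun W => (q : ℝ) < f W) (fun U => U.In (x q)) ?_ ⟨hp, h⟩
    filter_upwards [key, gen_tr (hm q)] with W e1 e2 e3
    exact (e1 e3.1 q).1 (e2.1 e3.2)
  · exact tr_of (fun U => U.In p ∧ U.In (x q)) (key.mono fun W e1 e2 => (e1 e2.1 q).2 e2.2) ⟨hp, h⟩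

/-- the name of the set of reals -/
noncomputable def RN (B : Type) [CompleteBooleanAlgebra B] : Name B :=
  Name.mk (MF B) nm fun _ => ⊤

theorem nm_mem (f : MF B) : Mem U (cl U (nm f)) (cl U (RN B)) := mem_mk (A := nm) f U.top

theorem RN_ind (C : Ult B → Prop) [Clopen C] (D : ∀ U : Ult B, Mod U → Prop)
    [∀ n : Name B, Clopen fun U => D U (cl U n)] (hp : C U)
    (H : ∀ f (W : Ult B), C W → D W (cl W (nm f))) : ∀ z, Mem U z (cl U (RN B)) → D U z :=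
  mem_mk_ind C D hp fun f W h _ => H f W h

theorem le_of_RN (n : Name B) {a b : B}
    (H : ∀ f (W : Ult B), cl W n = cl W (nm f) → W.In a → W.In b) :
    Name.bmem n (RN B) ⊓ a ≤ b := Ult.le_of fun U hU =>
  RN_ind (fun U => U.In a) (fun U z => cl U n = z → U.In b) (U.inf_iff.1 hU).2
    (fun f W h1 h2 => H f W h2 h1) (cl U n) (U.inf_iff.1 hU).1 rfl

theorem tr_open (f : MF B) (q : ℚ) {g : ℚ → B} (C : Ult B → Prop) [Clopen C]
    (h : ∀ (r : ℚ) W, C W → (Tr W fun V => (r : ℝ) < f.1 V) → W.In (g r)) (hC : C U)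
    (hq : Tr U fun V => (q : ℝ) < f.1 V) : U.In (⨆ r, ⨆ _ : q < r, g r) := by
  refine of_gen' (fun U => C U ∧ Tr U fun V => (q : ℝ) < f.1 V) (fun U => U.In _) ?_ ⟨hC, hq⟩
  filter_upwards [gen_lt f] with W e1 e2
  obtain ⟨r, h5, h6⟩ := exists_rat_btwn ((e1 q).1 e2.2)
  exact W.iSup_intro r (W.iSup_intro (by exact_mod_cast h5) (h r W e2.1 ((e1 r).2 h6)))

theorem tr_low (f : MF B) {g : ℚ → B} (C : Ult B → Prop) [Clopen C]
    (h : ∀ (r : ℚ) W, C W → (Tr W fun V => (r : ℝ) < f.1 V) → W.In (g r)) (hC : C U) :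
    U.In (⨆ r, g r) := by
  refine of_gen' C (fun U => U.In _) ?_ hC
  filter_upwards [gen_lt f] with W e1 e2
  obtain ⟨r, h5⟩ := exists_rat_lt (f.1 W)
  exact W.iSup_intro r (h r W e2 ((e1 r).2 h5))

theorem tr_high (f : MF B) {g : ℚ → B} (C : Ult B → Prop) [Clopen C]
    (h : ∀ (r : ℚ) W, C W → W.In (g r) → Tr W fun V => (r : ℝ) < f.1 V) (hC : C U) :
    U.In (⨆ r, (g r)ᶜ) := by
  refine of_gen' C (fun U => U.In _) ?_ hC
  filter_upwards [gen_lt f] with W e1 e2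
  obtain ⟨r, h5⟩ := exists_rat_gt (f.1 W)
  exact W.iSup_intro r (W.compl_iff.2 fun h6 => h5.not_gt ((e1 r).1 (h r W e2 h6)))

theorem full {z : Mod U} (hz : Mem U z (cl U (RN B))) : ∃ f, z = cl U (nm f) := by
  obtain ⟨n, rfl⟩ := cl_surj U z
  have e : ∀ f (W : Ult B) (q : ℚ), cl W n = cl W (nm f) →
      (W.In (Name.bmem (qN q) n) ↔ Tr W fun V => (q : ℝ) < f.1 V) := fun f W q h => by
    rw [← mem_cl, h, mem_nm]
  obtain ⟨g, hg⟩ := exists_mf (Name.bmem n (RN B)) (fun q => Name.bmem (qN q) n)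
    (fun q r h => le_of_RN n fun f W h1 h2 => (e f W q h1).2 (((e f W r h1).1 h2).mono
      fun V h3 => lt_of_le_of_lt (by exact_mod_cast h) h3))
    (fun q => le_of_RN n fun f W h1 h2 => tr_open f q (fun W => cl W n = cl W (nm f))
      (fun r V h3 h4 => (e f V r h3).2 h4) h1 ((e f W q h1).1 h2))
    (le_trans (le_inf le_rfl le_top) (le_of_RN n fun f W h1 _ =>
      tr_low f (fun W => cl W n = cl W (nm f)) (fun r V h3 h4 => (e f V r h3).2 h4) h1))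
    (le_trans (le_inf le_rfl le_top) (le_of_RN n fun f W h1 _ =>
      tr_high f (fun W => cl W n = cl W (nm f)) (fun r V h3 h4 => (e f V r h3).1 h4) h1))
  refine ⟨g, RN_ind (fun _ => True) (fun U z => cl U n = z → cl U n = cl U (nm g)) trivial
    (fun f W _ h => ?_) _ hz rfl⟩
  refine h.trans (nm_eq.2 (tr_of (fun W => cl W n = cl W (nm f)) ?_ h))
  filter_upwards [gen_lt f, gen_lt g] with V h1 h2 h3
  refine eq_of_forall_rat_lt_iff_lt fun q => ?_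
  rw [← h1, ← h2, ← e f V q h3, hg V q ((mem_cl V _ _).1 (h3 ▸ nm_mem f))]

/-- a pointwise operation -/
def ap (o : ℝ → ℝ → ℝ) (ho : Measurable (Function.uncurry o)) (f g : MF B) : MF B :=
  ⟨fun W => o (f.1 W) (g.1 W), ho.comp (f.2.prodMk g.2)⟩

/-- a constant -/
def cst (t : ℝ) : MF B := ⟨fun _ => t, measurable_const⟩

section Op
variable (o : ℝ → ℝ → ℝ) (ho : Measurable (Function.uncurry o))

/-- the name of the graph of an operation -/
noncomputable def opN : Name B := Name.mk (MF B × MF B)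
  (fun s => opairN (opairN (nm s.1) (nm s.2)) (nm (ap o ho s.1 s.2))) fun _ => ⊤

variable {o ho}

theorem op_ap (f g : MF B) :
    Op (Mem U) (cl U (opN o ho)) (cl U (nm f)) (cl U (nm g)) (cl U (nm (ap o ho f g))) :=
  ⟨_, isOPair_opairN U _ _, _, isOPair_opairN U _ _, mem_mk (A := fun s : MF B × MF B =>
    opairN (opairN (nm s.1) (nm s.2)) (nm (ap o ho s.1 s.2))) (f, g) U.top⟩

theorem op_ind (D : ∀ U : Ult B, Mod U → Mod U → Mod U → Prop)
    [∀ n m k : Name B, Clopen fun U => D U (cl U n) (cl U m) (cl U k)]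
    (H : ∀ f g (W : Ult B), D W (cl W (nm f)) (cl W (nm g)) (cl W (nm (ap o ho f g))))
    {a b c : Mod U} (h : Op (Mem U) (cl U (opN o ho)) a b c) : D U a b c := by
  obtain ⟨p, h1, r, h2, h3⟩ := h
  refine mem_mk_ind (fun _ => True) (fun U r => ∀ a b c p, IsOPair (Mem U) p a b →
    IsOPair (Mem U) r p c → D U a b c) trivial ?_ r h3 a b c p h1 h2
  rintro ⟨f, g⟩ W - - a b c p h4 h5
  obtain ⟨rfl, rfl⟩ := opair_inj h5 (isOPair_opairN W _ _)
  obtain ⟨rfl, rfl⟩ := opair_inj h4 (isOPair_opairN W _ _)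
  exact H f g W

theorem op_iff {f g k : MF B} :
    Op (Mem U) (cl U (opN o ho)) (cl U (nm f)) (cl U (nm g)) (cl U (nm k)) ↔
      Tr U fun W => o (f.1 W) (g.1 W) = k.1 W := by
  refine ⟨fun h => op_ind (fun U a b c => a = cl U (nm f) → b = cl U (nm g) → c = cl U (nm k) →
    Tr U fun W => o (f.1 W) (g.1 W) = k.1 W) (fun f' g' W h1 h2 h3 => ?_) h rfl rfl rfl,
    fun h => ?_⟩
  · refine (((nm_eq.1 h1).and (nm_eq.1 h2)).and (nm_eq.1 h3)).mono fun V h4 => ?_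
    rw [← h4.1.1, ← h4.1.2, ← h4.2]
    rfl
  · rw [← (nm_eq (f := ap o ho f g)).2 h]
    exact op_ap f g

theorem op_full {a b c : Mod U} (h : Op (Mem U) (cl U (opN o ho)) a b c) :
    ∃ f g k, a = cl U (nm f) ∧ b = cl U (nm g) ∧ c = cl U (nm k) := by
  obtain ⟨h1, h2, h3⟩ := op_ind (fun U a b c => Mem U a (cl U (RN B)) ∧ Mem U b (cl U (RN B)) ∧
    Mem U c (cl U (RN B))) (fun f g W => ⟨nm_mem _, nm_mem _, nm_mem _⟩) h
  obtain ⟨f, rfl⟩ := full h1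
  obtain ⟨g, rfl⟩ := full h2
  obtain ⟨k, rfl⟩ := full h3
  exact ⟨f, g, k, rfl, rfl, rfl⟩

theorem isCommOp (e : ℝ) (h1 : ∀ a b c, o (o a b) c = o a (o b c)) (h2 : ∀ a b, o a b = o b a)
    (h3 : ∀ a, o e a = a) :
    IsCommOp (Mem U) (cl U (opN o ho)) (cl U (RN B)) (cl U (nm (cst e))) := by
  let Pn : Name B := Name.mk (MF B × MF B) (fun s => opairN (nm s.1) (nm s.2)) fun _ => ⊤
  have hP : ∀ (W : Ult B) f g, Mem W (cl W (opairN (nm f) (nm g))) (cl W Pn) := fun W f g =>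
    mem_mk (A := fun s : MF B × MF B => opairN (nm s.1) (nm s.2)) (f, g) W.top
  have hprod : IsProd (Mem U) (cl U Pn) (cl U (RN B)) (cl U (RN B)) := fun p => by
    refine ⟨mem_mk_ind (fun _ => True) (fun U p => ∃ a b, Mem U a (cl U (RN B)) ∧
      Mem U b (cl U (RN B)) ∧ IsOPair (Mem U) p a b) trivial (fun s W _ _ =>
        ⟨_, _, nm_mem _, nm_mem _, isOPair_opairN W _ _⟩) p, ?_⟩
    rintro ⟨a, b, ha, hb, hp⟩
    obtain ⟨f, rfl⟩ := full ha
    obtain ⟨g, rfl⟩ := full hb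
    rw [opair_unique (mod_ext U) hp (isOPair_opairN U _ _)]
    exact hP U f g
  refine ⟨⟨cl U Pn, hprod, ?_, fun p hp => ?_⟩, fun a b c s t v e1 e2 e3 => ?_,
    fun a b s e1 => ?_, nm_mem _, fun a ha => ?_⟩
  · exact mem_mk_ind (fun _ => True) (fun U r => ∃ a b, Mem U a (cl U Pn) ∧
      Mem U b (cl U (RN B)) ∧ IsOPair (Mem U) r a b) trivial fun s W _ _ =>
        ⟨_, _, hP W _ _, nm_mem _, isOPair_opairN W _ _⟩
  · obtain ⟨a, b, ha, hb, hab⟩ := (hprod p).1 hp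
    obtain ⟨f, rfl⟩ := full ha
    obtain ⟨g, rfl⟩ := full hb
    obtain ⟨p', e1, e2⟩ := op_ap (U := U) (o := o) (ho := ho) f g
    rw [← opair_unique (mod_ext U) hab e1] at e2
    refine ⟨_, e2, fun c hc => ?_⟩
    have e3 : Op (Mem U) (cl U (opN o ho)) _ _ c := ⟨p, hab, hc⟩
    obtain ⟨_, _, k, -, -, rfl⟩ := op_full e3
    exact nm_eq.2 ((op_iff.1 e3).mono fun _ h => h.symm)
  · obtain ⟨f, g, k, rfl, rfl, rfl⟩ := op_full e1
    obtain ⟨_, f', k', -, rfl, rfl⟩ := op_full e2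
    obtain ⟨_, _, l, -, -, rfl⟩ := op_full e3
    refine op_iff.2 ((((op_iff.1 e1).and (op_iff.1 e2)).and (op_iff.1 e3)).mono fun V h => ?_)
    rw [← h.1.2, ← h.2, ← h.1.1, h1]
  · obtain ⟨f, g, k, rfl, rfl, rfl⟩ := op_full e1
    exact op_iff.2 ((op_iff.1 e1).mono fun V h => (h2 _ _).trans h)
  · obtain ⟨f, rfl⟩ := full ha
    exact op_iff.2 (tr_all fun V => h3 _)

end Op

/-- the name of the order -/
noncomputable def leN (B : Type) [CompleteBooleanAlgebra B] : Name B :=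
  relN nm nm fun f g : MF B => R.bv {W | f.1 W ≤ g.1 W}

theorem le_iff {f g : MF B} : App (Mem U) (cl U (leN B)) (cl U (nm f)) (cl U (nm g)) ↔
    Tr U fun W => f.1 W ≤ g.1 W := by
  refine ⟨fun h => app_relN_ind (fun _ => True) (fun U a b => a = cl U (nm f) → b = cl U (nm g) →
    Tr U fun W => f.1 W ≤ g.1 W) trivial (fun f' g' W _ h1 h2 h3 => ?_) _ _ h rfl rfl,
    fun h => app_relN h⟩
  exact (Tr.and (Tr.and (P := fun V => f'.1 V ≤ g'.1 V) h1 (nm_eq.1 h2)) (nm_eq.1 h3)).mono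
    fun V h4 => h4.1.2 ▸ h4.2 ▸ h4.1.1

theorem le_full {a b : Mod U} (h : App (Mem U) (cl U (leN B)) a b) :
    ∃ f g, a = cl U (nm f) ∧ b = cl U (nm g) := by
  obtain ⟨h1, h2⟩ := app_relN_ind (fun _ => True) (fun U a b => Mem U a (cl U (RN B)) ∧
    Mem U b (cl U (RN B))) trivial (fun f g W _ _ => ⟨nm_mem _, nm_mem _⟩) _ _ h
  obtain ⟨f, rfl⟩ := full h1
  obtain ⟨g, rfl⟩ := full h2
  exact ⟨f, g, rfl, rfl⟩

theorem complete (n : Name B) (f₀ g : MF B) : ∃ k : MF B, ∀ U : Ult B,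
    Sub (Mem U) (cl U n) (cl U (RN B)) → Mem U (cl U (nm f₀)) (cl U n) →
    (∀ a, Mem U a (cl U n) → App (Mem U) (cl U (leN B)) a (cl U (nm g))) →
    (∀ a, Mem U a (cl U n) → App (Mem U) (cl U (leN B)) a (cl U (nm k))) ∧
      ∀ b, Mem U b (cl U (RN B)) → (∀ a, Mem U a (cl U n) → App (Mem U) (cl U (leN B)) a b) →
        App (Mem U) (cl U (leN B)) (cl U (nm k)) b := by
  let C : Ult B → Prop := fun U => Mem U (cl U (nm f₀)) (cl U n) ∧
    ∀ a, Mem U a (cl U n) → App (Mem U) (cl U (leN B)) a (cl U (nm g))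
  have hC : Clopen C := by unfold C; infer_instance
  let x : ℚ → B := fun q => ⨆ f : MF B, Name.bmem (nm f) n ⊓ R.bv {W | (q : ℝ) < f.1 W}
  have hx : ∀ (W : Ult B) (q : ℚ) f, Mem W (cl W (nm f)) (cl W n) →
      (Tr W fun V => (q : ℝ) < f.1 V) → W.In (x q) := fun W q f h1 h2 =>
    W.iSup_intro f (W.inf h1 h2)
  have hb : ∀ (g' : MF B) (W : Ult B) (q : ℚ),
      (∀ a, Mem W a (cl W n) → App (Mem W) (cl W (leN B)) a (cl W (nm g'))) → W.In (x q) →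
      Tr W fun V => (q : ℝ) < g'.1 V := fun g' W q h1 h2 =>
    iSup_elim (fun W => ∀ a, Mem W a (cl W n) → App (Mem W) (cl W (leN B)) a (cl W (nm g')))
      (fun W => Tr W fun V => (q : ℝ) < g'.1 V) h2 h1 fun f V h3 h4 =>
        (Tr.and (P := fun V => (q : ℝ) < f.1 V) (V.inf_iff.1 h4).2
          (le_iff.1 (h3 _ (V.inf_iff.1 h4).1))).mono fun _ h => h.1.trans_le h.2
  obtain ⟨k, hk⟩ := exists_mf (bv C) x
    (fun q r h => inf_le_right.trans (iSup_mono fun f => inf_le_inf_left _ (Ult.le_of fun W h1 =>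
      Tr.mono (P := fun V => (r : ℝ) < f.1 V) h1 fun V h3 =>
        lt_of_le_of_lt (by exact_mod_cast h) h3)))
    (fun q => inf_le_right.trans (iSup_le fun f => Ult.le_of fun W h1 =>
      tr_open f q (fun W => Mem W (cl W (nm f)) (cl W n)) (fun r V => hx V r f)
        (W.inf_iff.1 h1).1 (W.inf_iff.1 h1).2))
    (Ult.le_of fun W h1 => tr_low f₀ C (fun r V h2 => hx V r f₀ h2.1) ((in_bv C W).1 h1))
    (Ult.le_of fun W h1 => tr_high g C (fun r V h2 => hb g V r h2.2) ((in_bv C W).1 h1))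
  refine ⟨k, fun U h1 h2 h3 => ⟨fun a ha => ?_, fun b hb1 hb2 => ?_⟩⟩
  · obtain ⟨f, rfl⟩ := full (h1 a ha)
    refine le_iff.2 (tr_of (fun W => C W ∧ Mem W (cl W (nm f)) (cl W n)) ?_ ⟨⟨h2, h3⟩, ha⟩)
    filter_upwards [gen_lt f, gen_lt k] with W e1 e2 e3
    refine le_of_forall_rat_lt_imp_le fun q hq => ((e2 q).1 ?_).le
    exact (hk W q ((in_bv C W).2 e3.1)).2 (hx W q f e3.2 ((e1 q).2 hq))
  · obtain ⟨g', rfl⟩ := full hb1
    refine le_iff.2 (tr_of (fun W => C W ∧ ∀ a, Mem W a (cl W n) →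
      App (Mem W) (cl W (leN B)) a (cl W (nm g'))) ?_ ⟨⟨h2, h3⟩, hb2⟩)
    filter_upwards [gen_lt k, gen_lt g'] with W e1 e2 e3
    refine le_of_forall_rat_lt_imp_le fun q hq => ((e2 q).1 ?_).le
    exact hb g' W q e3.2 ((hk W q ((in_bv C W).2 e3.1)).1 ((e1 q).2 hq))

theorem m_add : Measurable (Function.uncurry fun a b : ℝ => a + b) := measurable_add

theorem m_mul : Measurable (Function.uncurry fun a b : ℝ => a * b) := measurable_mul

end Pool.Agent.Lib.MP_f79ffc_lc.St.Rl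

namespace Pool.Agent.Lib.MP_f79ffc_lc.St

open Pool.Agent.Lib.MP_5d9fac_lc Pool.Agent.Lib.MP_c1e359_an Rl

variable {B : Type} [CompleteBooleanAlgebra B]

theorem exists_reals (U : Ult B) : ∃ F : RF (Mod U), IsReals (Mem U) F := by
  refine ⟨⟨cl U (RN B), cl U (opN _ m_add), cl U (opN _ m_mul), cl U (leN B), cl U (nm (cst 0)),
    cl U (nm (cst 1))⟩, isCommOp 0 add_assoc add_comm zero_add,
    isCommOp 1 mul_assoc mul_comm one_mul, fun h => (nm_eq.1 h).elim fun _ => zero_ne_one,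
    fun a ha => ?_, fun a ha h0 => ?_, fun a b c s t v x e1 e2 e3 e4 => ?_, fun a b ha hb => ?_,
    fun a b e1 e2 => ?_, fun a b c e1 e2 => ?_, fun a b c s t e1 e2 e3 => ?_,
    fun a b s e1 e2 e3 => ?_, fun S h1 ⟨a, ha⟩ ⟨b, hb, h2⟩ => ?_⟩
  · obtain ⟨f, rfl⟩ := full ha
    exact ⟨cl U (nm ⟨fun W => -f.1 W, f.2.neg⟩), op_iff.2 (tr_all fun _ => neg_add_cancel _)⟩
  · obtain ⟨f, rfl⟩ := full ha
    exact ⟨cl U (nm ⟨fun W => (f.1 W)⁻¹, f.2.inv⟩), op_iff.2 (tr_of_not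
      (measurableSet_eq_fun f.2 (cst 0).2) (fun h => h0 (nm_eq.2 h)) fun _ h => mul_inv_cancel₀ h)⟩
  · obtain ⟨f, g, k, rfl, rfl, rfl⟩ := op_full e1
    obtain ⟨f', _, k', rfl, -, rfl⟩ := op_full e2
    obtain ⟨_, g', l, -, rfl, rfl⟩ := op_full e4
    refine op_iff.2 (((((op_iff.1 e1).and (op_iff.1 e2)).and (op_iff.1 e3)).and
      (op_iff.1 e4)).mono fun V h => ?_)
    rw [← h.2, ← h.1.2, ← h.1.1.2, ← h.1.1.1, mul_add]
  · obtain ⟨f, rfl⟩ := full ha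
    obtain ⟨g, rfl⟩ := full hb
    by_cases h : Tr U fun W => f.1 W ≤ g.1 W
    · exact Or.inl (le_iff.2 h)
    · exact Or.inr (le_iff.2 (tr_of_not (measurableSet_le f.2 g.2) h fun _ h => (not_le.1 h).le))
  · obtain ⟨f, g, rfl, rfl⟩ := le_full e1
    exact nm_eq.2 (((le_iff.1 e1).and (le_iff.1 e2)).mono fun _ h => le_antisymm h.1 h.2)
  · obtain ⟨f, g, rfl, rfl⟩ := le_full e1
    obtain ⟨_, k, -, rfl⟩ := le_full e2
    exact le_iff.2 (((le_iff.1 e1).and (le_iff.1 e2)).mono fun _ h => h.1.trans h.2)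
  · obtain ⟨f, g, k, rfl, rfl, rfl⟩ := op_full e2
    obtain ⟨f', _, k', rfl, -, rfl⟩ := op_full e3
    refine le_iff.2 ((((le_iff.1 e1).and (op_iff.1 e2)).and (op_iff.1 e3)).mono fun V h => ?_)
    rw [← h.2, ← h.1.2]
    exact add_le_add h.1.1 le_rfl
  · obtain ⟨f, g, k, rfl, rfl, rfl⟩ := op_full e3
    refine le_iff.2 ((((le_iff.1 e1).and (le_iff.1 e2)).and (op_iff.1 e3)).mono fun V h => ?_)
    rw [← h.2]
    exact mul_nonneg h.1.1 h.1.2
  · obtain ⟨n, rfl⟩ := cl_surj U S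
    obtain ⟨f, rfl⟩ := full (h1 a ha)
    obtain ⟨g, rfl⟩ := full hb
    obtain ⟨k, hk⟩ := complete n f g
    exact ⟨_, nm_mem k, hk U h1 ha h2⟩

end Pool.Agent.Lib.MP_f79ffc_lc.St
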