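import Pool.Agent.Lib.MP_f79ffc_lc.U.M.Out

/-!
The construction of a Borel measure on the reals of the model from the measures of the cells.
-/

namespace Pool.Agent.Lib.MP_f79ffc_lc.St

open Pool.Agent.Lib.MP_5d9fac_lc Pool.Agent.Lib.MP_c1e359_an Pool.Agent.Lib.MP_f79ffc_lc.U Filter

variable {B : Type} [CompleteBooleanAlgebra B] {S : Base B}

namespace CM

/-- `z` names a real -/
abbrev InR (S : Base B) (W : Pt S.q) (z : Name B) : Prop := Mem W.1 (cl W.1 z) (clF W.1 S.N).R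

/-- the set of codes of a set of reals -/
noncomputable def push (S : Base B) (A : Name B → B) (x : ℕ → B) : B :=
  ⨆ z : Name B, (A z ⊓ Name.bmem z S.N.R) ⊓ eqv x (code S z)

theorem push_intro {A : Name B → B} {x : ℕ → B} {W : Pt S.q} (z : Name B) (h : W.1.In (A z))
    (h1 : InR S W z) (h2 : W.1.In (eqv x (code S z))) : W.1.In (push S A x) :=
  W.1.iSup_intro z (W.1.inf (W.1.inf h h1) h2)

theorem push_elim {A : Name B → B} {x : ℕ → B} (P Q : Pt S.q → Prop) [Cl P] [Cl Q]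
    (H : ∀ z V, P V → V.1.In (A z) → InR S V z → V.1.In (eqv x (code S z)) → Q V) (W : Pt S.q)
    (hP : P W) (h : W.1.In (push S A x)) : Q W :=
  pt_iSup_elim P Q (fun z V e1 e2 => H z V e1 (V.1.inf_iff.1 (V.1.inf_iff.1 e2).1).1
    (V.1.inf_iff.1 (V.1.inf_iff.1 e2).1).2 (V.1.inf_iff.1 e2).2) W hP h

variable (M : CM S)

/-- the outer measure of a set of reals -/
noncomputable def om (A : Name B → B) : ∀ W : Pt S.q, S.KK W := M.out (push S A)

instance (A : Name B → B) : Rep (M.om A) := by unfold om; infer_instance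

variable {M} {A A' : Name B → B}

theorem om_nonneg (A : Name B → B) (W : Pt S.q) : 0 ≤ M.om A W := out_nonneg _ W

theorem om_mono (P : Pt S.q → Prop) [Cl P]
    (h : ∀ z W, P W → InR S W z → W.1.In (A z) → W.1.In (A' z)) (W : Pt S.q) (hW : P W) :
    M.om A W ≤ M.om A' W :=
  out_mono P (fun x => push_elim P (fun W => W.1.In (push S A' x))
    fun z V e1 e2 e3 e4 => push_intro z (h z V e1 e3 e2) e3 e4) W hW

theorem om_congr (P : Pt S.q → Prop) [Cl P]
    (h : ∀ z W, P W → InR S W z → (W.1.In (A z) ↔ W.1.In (A' z))) (W : Pt S.q) (hW : P W) :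
    M.om A W = M.om A' W :=
  le_antisymm (om_mono P (fun z V e1 e2 => (h z V e1 e2).1) W hW)
    (om_mono P (fun z V e1 e2 => (h z V e1 e2).2) W hW)

theorem om_bot (h : ∀ z (W : Pt S.q), ¬ W.1.In (A z)) (W : Pt S.q) : M.om A W = 0 :=
  out_bot (fun _ => True) (fun _ => push_elim (fun _ => True) (fun _ => False)
    fun z V _ e _ _ => h z V e) W trivial

theorem om_sup {C C' : Name B → B} (P : Pt S.q → Prop) [Cl P]
    (h : ∀ z W, P W → InR S W z → W.1.In (A z) → W.1.In (C z) ∨ W.1.In (C' z)) (W : Pt S.q)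
    (hW : P W) : M.om A W ≤ M.om C W + M.om C' W :=
  out_sup P (fun x => push_elim P (fun W => W.1.In (push S C x) ∨ W.1.In (push S C' x))
    fun z V e1 e2 e3 e4 => (h z V e1 e3 e2).imp (fun e => push_intro z e e3 e4)
      fun e => push_intro z e e3 e4) W hW

theorem om_iSup (C : ℕ → Name B → B) (σ : ∀ W : Pt S.q, S.KK W) [Rep σ] (P : Pt S.q → Prop)
    [Cl P] (hA : ∀ z W, P W → InR S W z → W.1.In (A z) → W.1.In (⨆ n, C n z))
    (h : ∀ N W, P W → ∑ n ∈ Finset.range N, M.om (C n) W ≤ σ W) (W : Pt S.q) (hW : P W) :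
    M.om A W ≤ σ W :=
  out_iSup (fun n => push S (C n)) σ P (fun x => push_elim P
    (fun W => W.1.In (⨆ n, push S (C n) x)) fun z V e1 e2 e3 e4 =>
      pt_iSup_elim (fun W => InR S W z ∧ W.1.In (eqv x (code S z)))
        (fun W => W.1.In (⨆ n, push S (C n) x))
        (fun n V e5 e6 => V.1.iSup_intro n (push_intro z e6 e5.1 e5.2)) V ⟨e3, e4⟩
        (hA z V e1 e3 e2)) h W hW

theorem om_cell (A : Name B → B) (s : List Bool) (W : Pt S.q) :
    M.om (fun z => A z ⊓ inC (code S z) s) W ≤ M.mc s W :=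
  out_cell (fun _ => True) (fun x => push_elim (fun _ => True) (fun W => W.1.In (inC x s))
    fun _ V _ e _ e1 => V.1.mono (ext_inC s _ x)
      (V.1.inf (eqv_comm x _ ▸ e1) (V.1.inf_iff.1 e).2)) W trivial

theorem om_eq (A : Name B → B) (s : List Bool) (W : Pt S.q) :
    M.om (fun z => A z ⊓ inC (code S z) s) W = M.out (fun x => push S A x ⊓ inC x s) W := by
  refine le_antisymm (out_mono (fun _ => True) (fun x => push_elim (fun _ => True)
    (fun W => W.1.In (push S A x ⊓ inC x s)) fun z V _ e e1 e2 => ?_) W trivial)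
    (out_mono (fun _ => True) (fun x V _ e => push_elim (fun W => W.1.In (inC x s))
      (fun W => W.1.In (push S (fun z => A z ⊓ inC (code S z) s) x)) (fun z V e1 e2 e3 e4 => ?_) V
      (V.1.inf_iff.1 e).2 (V.1.inf_iff.1 e).1) W trivial)
  · rw [V.1.inf_iff] at e
    exact V.1.inf (push_intro z e.1 e1 e2)
      (V.1.mono (ext_inC s _ x) (V.1.inf (eqv_comm x _ ▸ e2) e.2))
  · exact push_intro z (V.1.inf e2 (V.1.mono (ext_inC s x _) (V.1.inf e4 e1))) e3 e4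

/-- left of a cell -/
noncomputable def lf (S : Base B) (t : List Bool) (z : Name B) : B :=
  tv fun W : Pt S.q => ∃ l ∈ (bnd t).1, rv S z W < l

/-- right of a cell -/
noncomputable def rt (S : Base B) (t : List Bool) (z : Name B) : B :=
  tv fun W : Pt S.q => ∃ l ∈ (bnd t).2, (l : S.KK W) ≤ rv S z W

theorem om_three (A : Name B → B) (t : List Bool) (W : Pt S.q) :
    M.om (fun z => A z ⊓ lf S t z) W + M.om (fun z => A z ⊓ inC (code S z) t) W +
      M.om (fun z => A z ⊓ rt S t z) W ≤ M.om A W := by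
  induction t using List.reverseRecOn with
  | nil =>
    rw [om_bot (A := fun z => A z ⊓ lf S [] z), om_bot (A := fun z => A z ⊓ rt S [] z), zero_add,
      add_zero]
    · exact om_mono (fun _ => True) (fun z V _ _ e => (V.1.inf_iff.1 e).1) W trivial
    · intro z V e
      simpa [rt, in_tv, bnd, bndR] using (V.1.inf_iff.1 e).2
    · intro z V e
      simpa [lf, in_tv, bnd, bndR] using (V.1.inf_iff.1 e).2
  | append_singleton t b ih =>
    have h1 := out_split (M := M) (push S A) t W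
    simp only [← om_eq] at h1
    have h2 := pick_spec t.length (bnd_lt t)
    cases b
    · have h3 : lf S (t ++ [false]) = lf S t := by
        funext z
        simp only [lf, bnd_false]
      have h4 := om_sup (M := M) (A := fun z => A z ⊓ rt S (t ++ [false]) z)
        (C := fun z => A z ⊓ rt S t z) (C' := fun z => A z ⊓ inC (code S z) (t ++ [true]))
        (fun _ => True) (fun z V _ _ e => by
          simp only [V.1.inf_iff, rt, in_tv, bnd_false, in_code, inJ_true,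
            Finset.exists_mem_insert] at e ⊢
          by_cases hc : ∃ l ∈ (bnd t).2, (l : S.KK V) ≤ rv S z V
          · exact Or.inl ⟨e.1, hc⟩
          · have e1 := e.2.resolve_right hc
            push Not at hc
            exact Or.inr ⟨e.1, ⟨fun l hl => le_trans (by exact_mod_cast (h2.1 l hl).le) e1, hc⟩,
              e1⟩) W trivial
      rw [h3]
      linarith
    · have h3 : rt S (t ++ [true]) = rt S t := by
        funext z
        simp only [rt, bnd_true]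
      have h4 := om_sup (M := M) (A := fun z => A z ⊓ lf S (t ++ [true]) z)
        (C := fun z => A z ⊓ lf S t z) (C' := fun z => A z ⊓ inC (code S z) (t ++ [false]))
        (fun _ => True) (fun z V _ _ e => by
          simp only [V.1.inf_iff, lf, in_tv, bnd_true, in_code, inJ_false,
            Finset.exists_mem_insert] at e ⊢
          by_cases hc : ∃ l ∈ (bnd t).1, rv S z V < l
          · exact Or.inl ⟨e.1, hc⟩
          · have e1 := e.2.resolve_right hc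
            push Not at hc
            exact Or.inr ⟨e.1, ⟨hc, fun l hl => e1.trans (by exact_mod_cast h2.2 l hl)⟩, e1⟩)
        W trivial
      rw [h3]
      linarith

variable (M) in
/-- the criterion of measurability -/
noncomputable def Ms (C : Name B → B) : B := ⨅ A : Name B → B,
  tv fun W => M.om (fun z => A z ⊓ C z) W + M.om (fun z => A z ⊓ (C z)ᶜ) W ≤ M.om A W

variable {C C' : Name B → B}

theorem ms_elim {W : Pt S.q} (h : W.1.In (M.Ms C)) (A : Name B → B) :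
    M.om (fun z => A z ⊓ C z) W + M.om (fun z => A z ⊓ (C z)ᶜ) W ≤ M.om A W :=
  (in_tv (fun W => M.om (fun z => A z ⊓ C z) W + M.om (fun z => A z ⊓ (C z)ᶜ) W ≤ M.om A W) W).1
    (W.1.iInf_elim h A)

theorem ms_intro (P : Pt S.q → Prop) [Cl P] (h : ∀ (A : Name B → B) W, P W →
    M.om (fun z => A z ⊓ C z) W + M.om (fun z => A z ⊓ (C z)ᶜ) W ≤ M.om A W) (W : Pt S.q)
    (hW : P W) : W.1.In (M.Ms C) :=
  in_iInf P (fun A V hV => (in_tv (fun W => M.om (fun z => A z ⊓ C z) W +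
    M.om (fun z => A z ⊓ (C z)ᶜ) W ≤ M.om A W) V).2 (h A V hV)) W hW

theorem ms_congr (P : Pt S.q → Prop) [Cl P]
    (h : ∀ z W, P W → InR S W z → (W.1.In (C z) ↔ W.1.In (C' z))) (W : Pt S.q) (hW : P W)
    (hC : W.1.In (M.Ms C)) : W.1.In (M.Ms C') := by
  refine ms_intro (fun W => P W ∧ W.1.In (M.Ms C)) (fun A V hV => ?_) W ⟨hW, hC⟩
  rw [← om_congr (A := fun z => A z ⊓ C z) (A' := fun z => A z ⊓ C' z) P (fun z V e1 e2 => by
    rw [V.1.inf_iff, V.1.inf_iff, h z V e1 e2]) V hV.1,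
    ← om_congr (A := fun z => A z ⊓ (C z)ᶜ) (A' := fun z => A z ⊓ (C' z)ᶜ) P (fun z V e1 e2 => by
    rw [V.1.inf_iff, V.1.inf_iff, V.1.compl_iff, V.1.compl_iff, h z V e1 e2]) V hV.1]
  exact ms_elim hV.2 A

theorem ms_compl {W : Pt S.q} (hC : W.1.In (M.Ms C)) : W.1.In (M.Ms fun z => (C z)ᶜ) := by
  refine ms_intro (fun W => W.1.In (M.Ms C)) (fun A V hV => ?_) W hC
  simpa only [compl_compl, add_comm] using ms_elim hV A

theorem ms_ray (a : Name B) (W : Pt S.q) :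
    W.1.In (M.Ms fun z => tv fun W => rv S z W < rv S a W) := by
  refine ms_intro (fun _ => True) (fun A => le_of_eps (fun W => M.om (fun z => A z ⊓
    tv fun W => rv S z W < rv S a W) W + M.om (fun z => A z ⊓
      (tv fun W => rv S z W < rv S a W)ᶜ) W) _ _ fun ε hε => ?_) W trivial
  filter_upwards [M.small _ (half_pos hε)] with V ⟨n, hn⟩ _
  have h1 := hn _ (mem_cells.2 (br_length (bits V.1 (code S a)) n))
  have h2 := inJ_br a V n
  generalize br (bits V.1 (code S a)) n = t at h1 h2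
  have h3 := om_three (M := M) A t V
  have h4 := om_cell (M := M) A t V
  have h5 := om_nonneg (M := M) (fun z => A z ⊓ inC (code S z) t) V
  have h6 := om_sup (M := M) (A := fun z => A z ⊓ tv fun W => rv S z W < rv S a W)
    (C := fun z => A z ⊓ lf S t z) (C' := fun z => A z ⊓ inC (code S z) t)
    (fun W => inJ (rv S a W) t) (fun z V e1 _ e => by
      simp only [V.1.inf_iff, lf, in_tv, in_code] at e ⊢
      by_cases hc : ∃ l ∈ (bnd t).1, rv S z V < l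
      · exact Or.inl ⟨e.1, hc⟩
      · push Not at hc
        exact Or.inr ⟨e.1, hc, fun l hl => e.2.trans (e1.2 l hl)⟩) V h2
  have h7 := om_sup (M := M) (A := fun z => A z ⊓ (tv fun W => rv S z W < rv S a W)ᶜ)
    (C := fun z => A z ⊓ rt S t z) (C' := fun z => A z ⊓ inC (code S z) t)
    (fun W => inJ (rv S a W) t) (fun z V e1 _ e => by
      simp only [V.1.inf_iff, V.1.compl_iff, rt, in_tv, in_code, not_lt] at e ⊢
      by_cases hc : ∃ l ∈ (bnd t).2, (l : S.KK V) ≤ rv S z V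
      · exact Or.inl ⟨e.1, hc⟩
      · push Not at hc
        exact Or.inr ⟨e.1, fun l hl => (e1.1 l hl).trans e.2, hc⟩) V h2
  push_cast at h1
  linarith

theorem ms_sum {C : ℕ → Name B → B} {W : Pt S.q} (h : ∀ n, W.1.In (M.Ms (C n))) (A : Name B → B)
    (N : ℕ) : ∑ n ∈ Finset.range N, M.om (fun z => (A z ⊓ (⨆ j, ⨆ _ : j < n, C j z)ᶜ) ⊓ C n z) W +
      M.om (fun z => A z ⊓ (⨆ j, ⨆ _ : j < N, C j z)ᶜ) W ≤ M.om A W := by
  induction N with
  | zero => simp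
  | succ N ih =>
    have h1 := ms_elim (h N) fun z => A z ⊓ (⨆ j, ⨆ _ : j < N, C j z)ᶜ
    simp only [Nat.iSup_lt_succ, compl_sup, ← inf_assoc, Finset.sum_range_succ]
    linarith

theorem ms_iSup (P : Pt S.q → Prop) [Cl P] {C : ℕ → Name B → B}
    (h : ∀ n W, P W → W.1.In (M.Ms (C n))) (W : Pt S.q) (hW : P W) :
    W.1.In (M.Ms fun z => ⨆ n, C n z) := by
  refine ms_intro P (fun A V hV => le_sub_iff_add_le.1 (om_iSup
    (fun n z => (A z ⊓ (⨆ j, ⨆ _ : j < n, C j z)ᶜ) ⊓ C n z)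
    (fun W => M.om A W - M.om (fun z => A z ⊓ (⨆ n, C n z)ᶜ) W) P (fun z V _ _ e => ?_)
    (fun N V e => ?_) V hV)) W hW
  · rw [iSup_eq_iSup_least, inf_iSup_eq] at e
    exact V.1.mono (iSup_mono fun n => by rw [inf_assoc, inf_comm (C n z)]) e
  · have h1 := ms_sum (fun n => h n V e) A N
    have h2 := om_mono (M := M) (A := fun z => A z ⊓ (⨆ n, C n z)ᶜ)
      (A' := fun z => A z ⊓ (⨆ j, ⨆ _ : j < N, C j z)ᶜ) (fun _ => True) (fun z V _ _ =>
        V.1.mono (inf_le_inf_left _ (compl_le_compl (iSup₂_le fun j _ => le_iSup (C · z) j))))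
      V trivial
    linarith

theorem om_top (W : Pt S.q) : M.om (fun z => Name.bmem z S.N.R) W = 1 := by
  refine le_antisymm ((out_cell (s := []) (fun _ => True) (fun x V _ _ => by
    rw [inC_nil]
    exact V.1.top) W trivial).trans (M.one W).le) ((out_top (M := M) W).trans ?_)
  have h := out_sup (M := M) (A := fun _ => ⊤) (C := push S fun z => Name.bmem z S.N.R)
    (C' := fun x => (nonc x)ᶜ) (fun _ => True) (fun x V _ _ => by
      obtain ⟨z, hz⟩ := code_surj (S := S) x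
      exact (V.1.em (nonc x)).imp_left fun e => push_intro z (hz V).1 (hz V).1 ((hz V).2 e))
    W trivial
  rwa [out_const, add_zero] at h

theorem om_pt (a : Name B) (P : Pt S.q → Prop) [Cl P]
    (h : ∀ z W, P W → W.1.In (A z) → cl W.1 z = cl W.1 a) (W : Pt S.q) (hW : P W) :
    M.om A W = 0 := by
  refine le_antisymm ((out_mono P (fun x => push_elim P (fun W => W.1.In (eqv x (code S a)))
    fun z V e1 e2 _ e3 => ?_) W hW).trans (out_pt (code S a) W).le) (om_nonneg _ _)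
  exact V.1.mono (eqv_trans _ _ _) (V.1.inf e3 (code_congr (by rw [rv, rv, h z V e1 e2])))

end CM

section Borel

variable {Bo : Name B}
  (hBo : ∀ W : Pt S.q, IsSig (Mem W.1) (clF W.1 S.N) (cl W.1 omN) (cl W.1 Bo))

include hBo

theorem sig_ray (τ : ∀ W : Pt S.q, S.KK W) [Rep τ] : ∃ A : Name B, ∀ W : Pt S.q,
    Mem W.1 (cl W.1 A) (cl W.1 Bo) ∧ ∀ z : S.KK W, Mem W.1 z.1 (cl W.1 A) ↔ z < τ W := by
  obtain ⟨A, hA⟩ := exists_sep (q := S.q)
    (fun W z => Less (Mem W.1) (clF W.1 S.N) z (τ W).1) S.N.R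
  exact ⟨A, fun W => ⟨(hBo W).2.1 _ _ (τ W).2 (hA W), fun z => by
    rw [hA, less_iff]
    exact and_iff_right z.2⟩⟩

theorem sig_compl (A : Name B) (h : ∀ W : Pt S.q, Mem W.1 (cl W.1 A) (cl W.1 Bo)) :
    ∃ C : Name B, ∀ W : Pt S.q, Mem W.1 (cl W.1 C) (cl W.1 Bo) ∧
      ∀ z : S.KK W, Mem W.1 z.1 (cl W.1 C) ↔ ¬ Mem W.1 z.1 (cl W.1 A) := by
  obtain ⟨C, hC⟩ := exists_sep (q := S.q) (fun W z => ¬ Mem W.1 z (cl W.1 A)) S.N.R
  exact ⟨C, fun W => ⟨(hBo W).2.2.1 _ _ (h W) (hC W), fun z => by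
    rw [hC]
    exact and_iff_right z.2⟩⟩

theorem sig_union (A : ℕ → Name B) (h : ∀ n (W : Pt S.q), Mem W.1 (cl W.1 (A n)) (cl W.1 Bo)) :
    ∃ U : Name B, (∀ W : Pt S.q, Mem W.1 (cl W.1 U) (cl W.1 Bo) ∧
      ∀ n z, Mem W.1 z (cl W.1 (A n)) → Mem W.1 z (cl W.1 U)) ∧
      ∀ z : Name B, (∀ n (W : Pt S.q), ¬ Mem W.1 (cl W.1 z) (cl W.1 (A n))) →
        ∀ W : Pt S.q, ¬ Mem W.1 (cl W.1 z) (cl W.1 U) := by
  obtain ⟨f, hf⟩ := exists_seq A Bo h
  obtain ⟨U, hU⟩ := exists_sep (q := S.q)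
    (fun W z => ∃ n C, App (Mem W.1) (cl W.1 f) n C ∧ Mem W.1 z C) S.N.R
  have h1 : ∀ W : Pt S.q, IsUnV (Mem W.1) (cl W.1 U) (cl W.1 f) := fun W z => by
    rw [hU]
    exact and_iff_right_of_imp fun ⟨n, C, e1, e2⟩ => (hBo W).1 C ((hf W).1.app_mem e1).2 z e2
  refine ⟨U, fun W => ⟨(hBo W).2.2.2 _ _ (hf W).1 (h1 W),
    fun n z e => (h1 W z).2 ⟨_, _, (hf W).2 n, e⟩⟩, fun z hz W e => ?_⟩
  obtain ⟨n, C, e1, e2⟩ := (h1 W _).1 e
  exact nat_ind (fun W n => ∀ C, App (Mem W.1) (cl W.1 f) n C → ¬ Mem W.1 (cl W.1 z) C)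
    (fun i V C e3 => (hf V).1.app_unique ((hf V).2 i) e3 ▸ hz i V) W n
    ((hf W).1.app_mem e1).1 C e1 e2

theorem sig_eq {W : Pt S.q} {A C : Mod W.1} (hA : Mem W.1 A (cl W.1 Bo))
    (hC : Sub (Mem W.1) C (clF W.1 S.N).R)
    (h : ∀ z : S.KK W, Mem W.1 z.1 A ↔ Mem W.1 z.1 C) : Mem W.1 C (cl W.1 Bo) := by
  rwa [← mod_ext W.1 A C fun z => ⟨fun e => (h ⟨z, (hBo W).1 A hA z e⟩).1 e,
    fun e => (h ⟨z, hC z e⟩).2 e⟩]

theorem sig_top (W : Pt S.q) : Mem W.1 (clF W.1 S.N).R (cl W.1 Bo) := by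
  obtain ⟨A, hA⟩ := sig_ray hBo fun _ => 0
  obtain ⟨C, hC⟩ := sig_compl hBo A fun W => (hA W).1
  obtain ⟨U, hU, -⟩ := sig_union hBo (fun n => if n = 0 then A else C) fun n W => by
    split_ifs
    exacts [(hA W).1, (hC W).1]
  refine sig_eq hBo (hU W).1 (fun _ e => e) fun z => iff_of_true ?_ z.2
  by_cases e : Mem W.1 z.1 (cl W.1 A)
  · exact (hU W).2 0 _ e
  · exact (hU W).2 1 _ (((hC W).2 z).2 e)

theorem sig_pt {W : Pt S.q} {x A : Mod W.1} (hx : Mem W.1 x (clF W.1 S.N).R)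
    (hA : IsUPair (Mem W.1) A x x) : Mem W.1 A (cl W.1 Bo) := by
  obtain ⟨a, ha⟩ := (inferInstance : Rep (rv S (cl_surj W.1 x).choose)).ex_name
  have h0 : cl W.1 a = x := by rw [← ha, rv, (cl_surj W.1 x).choose_spec, val_of_mem hx]
  have h1 : ∀ V : Pt S.q, (rv S a V).1 = cl V.1 a := fun V =>
    val_of_mem (by rw [← ha]; exact (rv S _ V).2)
  obtain ⟨L, hL⟩ := sig_ray hBo (rv S a)
  choose R hR using fun n : ℕ => sig_ray hBo fun W => rv S a W + ((1 / (n + 1) : ℚ) : S.KK W)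
  choose C hC using fun n => sig_compl hBo (R n) fun W => (hR n W).1
  obtain ⟨U, hU, hU'⟩ := sig_union hBo (fun n => Nat.casesOn n L C) fun n W => by
    cases n
    exacts [(hL W).1, (hC _ W).1]
  obtain ⟨D, hD⟩ := sig_compl hBo U fun W => (hU W).1
  refine sig_eq hBo (hD W).1 (fun z e => by
    rcases (hA z).1 e with rfl | rfl <;> exact hx) fun z => ?_
  rw [(hD W).2, hA, or_self, ← h0]
  refine ⟨fun e => ?_, fun e => e ▸ hU' a (fun n V => ?_) W⟩
  · obtain ⟨z, rfl⟩ := K_surj z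
    rw [← h1]
    refine congrArg Subtype.val (le_antisymm (α := S.KK W) (le_of_eps (rv S z) (rv S a)
      (fun W => ¬ Mem W.1 (rv S z W).1 (cl W.1 U)) (fun ε hε =>
        Eventually.of_forall fun V hV => ?_) W e)
      (not_lt.1 fun e1 => e ((hU W).2 0 _ (((hL W).2 _).2 e1))))
    obtain ⟨n, hn⟩ := exists_nat_one_div_lt hε
    have h2 : Mem V.1 (rv S z V).1 (cl V.1 (R n)) := by
      by_contra hc
      exact hV ((hU V).2 (n + 1) _ (((hC n V).2 _).2 hc))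
    exact (((hR n V).2 _).1 h2).le.trans (add_le_add le_rfl (Rat.cast_le.2 hn.le))
  · rw [← h1]
    cases n with
    | zero => exact fun e1 => lt_irrefl _ (((hL V).2 _).1 e1)
    | succ n =>
      exact fun e1 => ((hC n V).2 _).1 e1 (((hR n V).2 _).2
        (lt_add_of_pos_right _ (Rat.cast_pos.2 (by positivity))))

end Borel

namespace CM

variable (M : CM S)

theorem unv_iff {f U : Name B} {C : ℕ → Name B} (P : Pt S.q → Prop) [Cl P] {Y : Name B}
    (h1 : ∀ W, P W → IsFun (Mem W.1) (cl W.1 f) (cl W.1 omN) (cl W.1 Y))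
    (h2 : ∀ W, P W → IsUnV (Mem W.1) (cl W.1 U) (cl W.1 f))
    (h3 : ∀ (n : ℕ) W, P W → App (Mem W.1) (cl W.1 f) (cl W.1 (ordN n)) (cl W.1 (C n)))
    (z : Name B) (W : Pt S.q) (hW : P W) :
    W.1.In (⨆ n, Name.bmem z (C n)) ↔ W.1.In (Name.bmem z U) := by
  refine ⟨pt_iSup_elim P (fun W => W.1.In (Name.bmem z U))
    (fun n V e1 e2 => (h2 V e1 (cl V.1 z)).2 ⟨_, _, h3 n V e1, e2⟩) W hW, fun e => ?_⟩
  obtain ⟨n, D, e1, e2⟩ := (h2 W hW (cl W.1 z)).1 e
  refine nat_ind (fun W n => P W → ∀ D, App (Mem W.1) (cl W.1 f) n D → Mem W.1 (cl W.1 z) D →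
    W.1.In (⨆ n, Name.bmem z (C n))) (fun i V e3 D e4 e5 => V.1.iSup_intro i ?_) W n
    ((h1 W hW).app_mem e1).1 hW D e1 e2
  rwa [(h1 V e3).app_unique e4 (h3 i V e3)] at e5

theorem exists_vals (f : Name B) : ∃ C : ℕ → Name B, ∀ (n : ℕ) (W : Pt S.q) Y,
    IsFun (Mem W.1) (cl W.1 f) (cl W.1 omN) Y →
      App (Mem W.1) (cl W.1 f) (cl W.1 (ordN n)) (cl W.1 (C n)) := by
  choose C hC using fun n : ℕ => maxp fun (W : Pt S.q) y =>
    App (Mem W.1) (cl W.1 f) (cl W.1 (ordN n)) y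
  exact ⟨C, fun n W Y h => hC n W (h.2 _ (nat_mem _ n)).exists⟩

theorem borel_ms {Bo : Name B}
    (hBo : ∀ W : Pt S.q, IsBorel (Mem W.1) (clF W.1 S.N) (cl W.1 omN) (cl W.1 Bo)) (n : Name B)
    (W : Pt S.q) (hn : Mem W.1 (cl W.1 n) (cl W.1 Bo)) :
    W.1.In (M.Ms fun z => Name.bmem z n) := by
  have h0 : ∀ (n n' : Name B) (W : Pt S.q), cl W.1 n = cl W.1 n' →
      W.1.In (M.Ms fun z => Name.bmem z n) → W.1.In (M.Ms fun z => Name.bmem z n') :=
    fun n n' => ms_congr (fun W => cl W.1 n = cl W.1 n') fun z V e _ => by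
      rw [← mem_cl, ← mem_cl, e]
  have h1 : ∀ (n : Name B) (W : Pt S.q), (∃ m : Name B, cl W.1 m = cl W.1 n ∧
      W.1.In (M.Ms fun z => Name.bmem z m)) ↔ W.1.In (M.Ms fun z => Name.bmem z n) :=
    fun n W => ⟨fun ⟨m, e1, e2⟩ => h0 m n W e1 e2, fun e => ⟨n, rfl, e⟩⟩
  have : ∀ n : Name B, Cl fun W : Pt S.q => ∃ m : Name B, cl W.1 m = cl W.1 n ∧
      W.1.In (M.Ms fun z => Name.bmem z m) := fun n => Cl.of_iff _ (h1 n)
  obtain ⟨G, hG⟩ := exists_sep (q := S.q) (fun W x => ∃ m : Name B, cl W.1 m = x ∧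
    W.1.In (M.Ms fun z => Name.bmem z m)) (powN S.N.R)
  have h2 : ∀ (n : Name B) (W : Pt S.q), Mem W.1 (cl W.1 n) (cl W.1 G) ↔
      Sub (Mem W.1) (cl W.1 n) (cl W.1 S.N.R) ∧ W.1.In (M.Ms fun z => Name.bmem z n) :=
    fun n W => by rw [hG, h1, isPow_powN]
  refine ((h2 n W).1 ((hBo W).2 (cl W.1 G) ⟨fun A hA => ?_, fun a A ha hA => ?_,
    fun A C hA hC => ?_, fun f U hf hU => ?_⟩ _ hn)).2
  · obtain ⟨A, rfl⟩ := cl_surj W.1 A
    exact ((h2 A W).1 hA).1
  · obtain ⟨A, rfl⟩ := cl_surj W.1 A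
    obtain ⟨a, rfl⟩ := cl_surj W.1 a
    refine (h2 A W).2 ⟨fun x hx => ((hA x).1 hx).1, ms_congr (fun W => InR S W a ∧
      ∀ x, Mem W.1 x (cl W.1 A) ↔ Mem W.1 x (clF W.1 S.N).R ∧
        Less (Mem W.1) (clF W.1 S.N) x (cl W.1 a)) (fun z V e1 e2 => ?_) W ⟨ha, hA⟩ (ms_ray a W)⟩
    rw [in_tv, ← mem_cl, e1.2, ← less_iff, val_of_mem e1.1, val_of_mem e2]
    exact (and_iff_right e2).symm
  · obtain ⟨A, rfl⟩ := cl_surj W.1 A
    obtain ⟨C, rfl⟩ := cl_surj W.1 C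
    refine (h2 C W).2 ⟨fun x hx => ((hC x).1 hx).1, ms_congr (fun W =>
      ∀ x, Mem W.1 x (cl W.1 C) ↔ Mem W.1 x (clF W.1 S.N).R ∧ ¬ Mem W.1 x (cl W.1 A))
      (fun z V e1 e2 => ?_) W hC (ms_compl ((h2 A W).1 hA).2)⟩
    rw [V.1.compl_iff, ← mem_cl, ← mem_cl, e1]
    exact (and_iff_right e2).symm
  · obtain ⟨f, rfl⟩ := cl_surj W.1 f
    obtain ⟨U, rfl⟩ := cl_surj W.1 U
    obtain ⟨C, hC⟩ := exists_vals (S := S) f
    refine (h2 U W).2 ⟨fun x hx => ?_, ms_congr (fun W =>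
      IsFun (Mem W.1) (cl W.1 f) (cl W.1 omN) (cl W.1 G) ∧ IsUnV (Mem W.1) (cl W.1 U) (cl W.1 f))
      (fun z V e _ => unv_iff (fun W => IsFun (Mem W.1) (cl W.1 f) (cl W.1 omN) (cl W.1 G) ∧
        IsUnV (Mem W.1) (cl W.1 U) (cl W.1 f)) (fun _ e => e.1) (fun _ e => e.2)
        (fun n V e => hC n V _ e.1) z V e)
      W ⟨hf, hU⟩ (ms_iSup (fun W => IsFun (Mem W.1) (cl W.1 f) (cl W.1 omN) (cl W.1 G))
        (fun n V e => ((h2 _ V).1 (e.app_mem (hC n V _ e)).2).2) W hf)⟩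
    obtain ⟨k, D, e1, e2⟩ := (hU x).1 hx
    exact (isPow_powN _ _ _).1 ((hG W D).1 (hf.app_mem e1).2).1 x e2

theorem exists_prob {Bo : Name B}
    (hBo : ∀ W : Pt S.q, IsBorel (Mem W.1) (clF W.1 S.N) (cl W.1 omN) (cl W.1 Bo)) :
    ∃ μ : Name B,
      (∀ W : Pt S.q, IsProb (Mem W.1) (clF W.1 S.N) (cl W.1 omN) (cl W.1 Bo) (cl W.1 μ)) ∧
      ∀ (A : Name B) (W : Pt S.q) t, App (Mem W.1) (cl W.1 μ) (cl W.1 A) t →
        t = (M.om (fun z => Name.bmem z A) W).1 := by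
  choose φ hφ using fun n : Name B =>
    (inferInstance : Rep (M.om fun z => Name.bmem z n)).ex_name
  obtain ⟨μ, hμ⟩ := exists_graph (q := S.q) Bo S.N.R φ (fun W n m _ e => by
    rw [← hφ, ← hφ, om_congr (A' := fun z => Name.bmem z m) (fun W => cl W.1 n = cl W.1 m)
      (fun z V e _ => by rw [← mem_cl, ← mem_cl, e]) W e]) fun W n _ => by
    rw [← hφ]
    exact (M.om _ W).2
  have h1 : ∀ (A : Name B) (W : Pt S.q), Mem W.1 (cl W.1 A) (cl W.1 Bo) →
      App (Mem W.1) (cl W.1 μ) (cl W.1 A) (M.om (fun z => Name.bmem z A) W).1 := fun A W e => by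
    rw [hφ]
    exact (hμ W).2 A e
  have h2 : ∀ (A : Name B) (W : Pt S.q) t, App (Mem W.1) (cl W.1 μ) (cl W.1 A) t →
      t = (M.om (fun z => Name.bmem z A) W).1 := fun A W t e =>
    (hμ W).1.app_unique e (h1 A W ((hμ W).1.app_mem e).1)
  refine ⟨μ, fun W => ⟨(hμ W).1, fun A t e => ?_, ?_, fun x A hx hA => ?_,
    fun f c U s e1 e2 e3 e4 e5 e6 => ?_⟩, h2⟩
  · obtain ⟨A, rfl⟩ := cl_surj W.1 A
    rw [h2 A W t e]
    exact om_nonneg _ W
  · have := h1 S.N.R W (sig_top (fun W => (hBo W).1) W)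
    rwa [om_top] at this
  · obtain ⟨A, rfl⟩ := cl_surj W.1 A
    obtain ⟨x, rfl⟩ := cl_surj W.1 x
    have := h1 A W (sig_pt (fun W => (hBo W).1) hx hA)
    rwa [om_pt x (fun W => IsUPair (Mem W.1) (cl W.1 A) (cl W.1 x) (cl W.1 x))
      (fun z V e1 e2 => by simpa using (e1 (cl V.1 z)).1 e2) W hA] at this
  · obtain ⟨f, rfl⟩ := cl_surj W.1 f
    obtain ⟨c, rfl⟩ := cl_surj W.1 c
    obtain ⟨U, rfl⟩ := cl_surj W.1 U
    obtain ⟨C, hC⟩ := exists_vals (S := S) f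
    let P : Pt S.q → Prop := fun W => IsFun (Mem W.1) (cl W.1 f) (cl W.1 omN) (cl W.1 Bo) ∧
      (∀ n m A C x, App (Mem W.1) (cl W.1 f) n A → App (Mem W.1) (cl W.1 f) m C → Mem W.1 x A →
        Mem W.1 x C → n = m) ∧ IsUnV (Mem W.1) (cl W.1 U) (cl W.1 f) ∧
      IsFun (Mem W.1) (cl W.1 c) (cl W.1 omN) (clF W.1 S.N).R ∧
      ∀ n A t, App (Mem W.1) (cl W.1 f) n A → App (Mem W.1) (cl W.1 c) n t →
        App (Mem W.1) (cl W.1 μ) A t
    have : Cl P := by
      unfold P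
      exact @Cl.and _ _ _ _ _ _ (@Cl.and _ _ _ _ _ _ (@Cl.and _ _ _ _ _ _ inferInstance))
    have hW : P W := ⟨e1, e2, e3, e4, e5⟩
    have h3 : ∀ (n : ℕ) V, P V → ev (S.ctx V) (cl V.1 c) (cl V.1 (ordN n)) =
        M.om (fun z => Name.bmem z (C n)) V := fun n V e =>
      K.ext (h2 _ V _ (e.2.2.2.2 _ _ _ (hC n V _ e.1) (app_ev e.2.2.2.1 (nat_mem _ n))))
    have h4 := unv_iff (U := U) P (fun _ e => e.1) (fun _ e => e.2.2.1) fun n V e => hC n V _ e.1
    rw [h2 U W s e6]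
    refine ⟨sumLe_of c _ P (fun _ e => e.2.2.2.1) (fun N V e => ?_) W hW, fun r hr e7 => ?_⟩
    · have h5 := ms_sum (M := M) (C := fun n z => Name.bmem z (C n)) (fun n =>
        M.borel_ms hBo _ V (e.1.app_mem (hC n V _ e.1)).2) (fun z => Name.bmem z U) N
      refine le_trans (Finset.sum_le_sum fun n _ => ?_) ((le_add_of_nonneg_right
        (om_nonneg _ V)).trans h5)
      rw [h3 n V e]
      refine om_mono P (fun z V e _ e8 => V.1.inf (V.1.inf ((h4 z V e).1 (V.1.iSup_intro n e8))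
        ?_) e8) V e
      rw [iSup_subtype', V.1.compl_iff]
      exact pt_iSup_elim (fun W => P W ∧ W.1.In (Name.bmem z (C n))) (fun _ => False)
        (fun j V e9 e10 => j.2.ne (nat_inj (e9.1.2.1 _ _ _ _ (cl V.1 z) (hC j V _ e9.1.1)
          (hC n V _ e9.1.1) e10 e9.2))) V ⟨e, e8⟩
    · obtain ⟨r, rfl⟩ := cl_surj W.1 r
      rw [← val_of_mem (h := S.ctx W) hr] at e7 ⊢
      refine om_iSup (fun n z => Name.bmem z (C n)) (rv S r) (fun W => P W ∧
        SumLe (Mem W.1) (clF W.1 S.N) (cl W.1 omN) (cl W.1 c) (rv S r W).1)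
        (fun z V e _ => (h4 z V e.1).2) (fun N V e => ?_) W ⟨hW, e7⟩
      rw [← Finset.sum_congr rfl fun n _ => h3 n V e.1]
      exact e.2.sum_le N

end CM

theorem exists_mu (S : Base B) (Bo : Name B)
    (hBo : ∀ W : Pt S.q, IsBorel (Mem W.1) (clF W.1 S.N) (cl W.1 omN) (cl W.1 Bo))
    (m : List Bool → ℚ → B) (hm : IsMeas S.q m) : ∃ μ : Name B,
    (∀ W : Pt S.q, IsProb (Mem W.1) (clF W.1 S.N) (cl W.1 omN) (cl W.1 Bo) (cl W.1 μ)) ∧
    ∀ (A : Name B) (ε : ℚ), 0 < ε →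
      (∀ W : Pt S.q, ∃ t : S.KK W, App (Mem W.1) (cl W.1 μ) (cl W.1 A) t.1 ∧ t ≤ ε) →
      ∃ w, IsCov S.q m (3 * ε) w ∧ ∀ z : Name B, S.q ⊓ Name.bmem z A ≤ cov w (code S z) := by
  classical
  obtain ⟨M, hM⟩ := exists_cm hm
  obtain ⟨μ, h1, h2⟩ := M.exists_prob hBo
  refine ⟨μ, h1, fun A ε hε hA => ?_⟩
  obtain ⟨v, hv⟩ := M.out_ex (CM.push S fun z => Name.bmem z A) hε
  choose d h3 h4 h5 using fun s : List Bool => exists_pick fun r : ℚ => tv fun W =>
    M.mc s W ≤ r ∧ (r : S.KK W) ≤ M.mc s W + ((ε / 2 ^ (Encodable.encode s + 1) : ℚ) : S.KK W)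
  have h6 : ∀ s r (W : Pt S.q), W.1.In (d s r) → M.mc s W ≤ r ∧
      (r : S.KK W) ≤ M.mc s W + ((ε / 2 ^ (Encodable.encode s + 1) : ℚ) : S.KK W) :=
    fun s r W e => (in_tv (fun W => M.mc s W ≤ r ∧ (r : S.KK W) ≤ M.mc s W +
      ((ε / 2 ^ (Encodable.encode s + 1) : ℚ) : S.KK W)) W).1 (W.1.mono (h3 s r) e)
  refine ⟨fun t => v t.1 ⊓ d t.1 t.2, ⟨fun t => inf_le_of fun W e =>
    (hM _ W _).1 (h6 _ _ W (W.1.inf_iff.1 e).2).1, fun F hF => ?_⟩,
    fun z => inf_le_of fun W e => ?_⟩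
  · obtain ⟨U, hU⟩ := Ult.exists_of_ne_bot hF
    rw [U.inf_iff, in_finset_inf] at hU
    let W : Pt S.q := ⟨U, hU.1⟩
    have e1 : Set.InjOn Prod.fst (F : Set (List Bool × ℚ)) := by
      rintro ⟨s, r⟩ ht ⟨s', r'⟩ ht' (rfl : s = s')
      by_contra hc
      exact U.ne_bot (U.inf (U.inf_iff.1 (hU.2 _ ht)).2 (U.inf_iff.1 (hU.2 _ ht')).2)
        (h4 s r r' fun e => hc (by rw [e]))
    have e2 := CM.cost_elim (hv W).2 (F := F.image Prod.fst) fun s hs => by
      obtain ⟨t, ht, rfl⟩ := Finset.mem_image.1 hs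
      exact (U.inf_iff.1 (hU.2 t ht)).1
    rw [Finset.sum_image e1] at e2
    obtain ⟨t, e3, e4⟩ := hA W
    obtain rfl : t = M.om (fun z => Name.bmem z A) W := K.ext (h2 A W _ e3)
    have e5 : ∑ t ∈ F, ε / 2 ^ (Encodable.encode t.1 + 1) ≤ ε := by
      refine le_trans ?_ (geom_le hε (F.sup (fun t => Encodable.encode t.1) + 1))
      rw [← Finset.sum_image (s := F) (g := fun t => Encodable.encode t.1)
        (f := fun n => ε / 2 ^ (n + 1)) fun a ha b hb e => e1 ha hb (Encodable.encode_injective e)]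
      refine Finset.sum_le_sum_of_subset_of_nonneg (fun n hn => ?_) fun _ _ _ => by positivity
      obtain ⟨t, ht, rfl⟩ := Finset.mem_image.1 hn
      exact Finset.mem_range.2 (Nat.lt_succ_of_le
        (Finset.le_sup (f := fun t : List Bool × ℚ => Encodable.encode t.1) ht))
    have e6 := Finset.sum_le_sum fun t ht => (h6 t.1 t.2 W (U.inf_iff.1 (hU.2 t ht)).2).2
    rw [Finset.sum_add_distrib, ← Rat.cast_sum, ← Rat.cast_sum] at e6
    have e7 := (Rat.cast_le (K := S.KK W)).2 e5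
    refine (Rat.cast_le (K := S.KK W)).1 ?_
    rw [Rat.cast_mul, Rat.cast_ofNat]
    unfold CM.om at e4
    linarith
  · obtain ⟨t, e3, -⟩ := hA W
    have e1 : CM.InR S W z := (hBo W).1.1 _ ((h1 W).1.app_mem e3).1 _ e
    refine pt_iSup_elim (fun _ => True) (fun W => W.1.In
      (cov (fun t => v t.1 ⊓ d t.1 t.2) (code S z))) (fun s V _ e2 => ?_) W trivial
      (covs_elim (hv W).1 (CM.push_intro z e e1 (by rw [eqv_refl]; exact W.1.top)))
    refine pt_iSup_elim (fun W => W.1.In (v s ⊓ inC (code S z) s)) (fun W => W.1.In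
      (cov (fun t => v t.1 ⊓ d t.1 t.2) (code S z))) (f := d s) (fun r V e4 e5 =>
        V.1.iSup_intro (s, r) (V.1.inf (V.1.inf (V.1.inf_iff.1 e4).1 e5) (V.1.inf_iff.1 e4).2))
      V e2 ?_
    rw [← h5]
    refine of_gen (fun W => W.1.In _) ?_ V
    filter_upwards [gen_above (M.mc s) (ε := ε / 2 ^ (Encodable.encode s + 1)) (by positivity)]
      with V ⟨r, e4, e5⟩
    exact V.1.iSup_intro r ((in_tv _ V).2 ⟨e4.le, e5⟩)

end Pool.Agent.Lib.MP_f79ffc_lc.St
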