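import Pool.Agent.Lib.MP_f79ffc_lc.U.M.Kit
import Pool.Agent.Lib.MP_f79ffc_lc.U.M.BDefs

/-! Dyadic closed intervals, binary expansions and a family of null sets with a non-null union. -/

namespace Pool.Agent.Lib.MP_f79ffc_lc.St

open Pool.Agent.Lib.MP_5d9fac_lc Pool.Agent.Lib.MP_c1e359_an Pool.Agent.Lib.MP_f79ffc_lc.U Filter

/-- left end point of the dyadic interval of a cell -/
def lbLo : List Bool → ℚ
  | [] => 0
  | b :: s => (cond b 1 0 + lbLo s) / 2

/-- length of the dyadic interval of a cell -/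
def lbLen (s : List Bool) : ℚ := (1 / 2) ^ s.length

theorem lbLen_pos (s : List Bool) : 0 < lbLen s := by
  unfold lbLen
  positivity

theorem lbLen_cons (b : Bool) (s : List Bool) : lbLen (b :: s) = lbLen s / 2 := by
  simp only [lbLen, List.length_cons, pow_succ]
  ring

theorem lb_unit : ∀ s : List Bool, 0 ≤ lbLo s ∧ lbLo s + lbLen s ≤ 1
  | [] => by simp [lbLo, lbLen]
  | b :: s => by
    have := lb_unit s
    rw [lbLen_cons, lbLo]
    cases b <;> simp only [cond] <;> constructor <;> linarith [this.1, this.2]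

theorem lb_prefix : ∀ {s t : List Bool}, s <+: t →
    lbLo s ≤ lbLo t ∧ lbLo t + lbLen t ≤ lbLo s + lbLen s
  | [], t, _ => by simpa [lbLo, lbLen] using lb_unit t
  | _ :: _, [], h => by simp at h
  | b :: s, c :: t, h => by
    obtain ⟨rfl, h1⟩ := List.cons_prefix_cons.1 h
    have := lb_prefix h1
    rw [lbLen_cons, lbLen_cons, lbLo, lbLo]
    constructor <;> linarith [this.1, this.2]

theorem lb_disj : ∀ {s t : List Bool}, ¬ s <+: t → ¬ t <+: s →
    lbLo s + lbLen s ≤ lbLo t ∨ lbLo t + lbLen t ≤ lbLo s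
  | [], _, h, _ => (h List.nil_prefix).elim
  | _ :: _, [], _, h => (h List.nil_prefix).elim
  | b :: s, c :: t, h, h' => by
    rw [lbLen_cons, lbLen_cons, lbLo, lbLo]
    by_cases hb : b = c
    · subst hb
      rcases lb_disj (fun h1 => h (List.cons_prefix_cons.2 ⟨rfl, h1⟩))
        (fun h1 => h' (List.cons_prefix_cons.2 ⟨rfl, h1⟩)) with h1 | h1
      · exact Or.inl (by linarith)
      · exact Or.inr (by linarith)
    · have h1 := lb_unit s
      have h2 := lb_unit t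
      cases b <;> cases c <;> simp only [cond]
      · exact (hb rfl).elim
      · exact Or.inl (by linarith [h1.2, h2.1])
      · exact Or.inr (by linarith [h1.1, h2.2])
      · exact (hb rfl).elim

/-- intervals with disjoint interiors inside an interval -/
theorem lb_pack {L α : Type*} [Field L] [LinearOrder L] [IsStrictOrderedRing L] (l d : α → L)
    (hd : ∀ i, 0 < d i) (A : L) (G : Finset α) : ∀ Z : L, A ≤ Z →
    (∀ i ∈ G, A ≤ l i ∧ l i + d i ≤ Z) →
    (∀ i ∈ G, ∀ j ∈ G, i ≠ j → l i + d i ≤ l j ∨ l j + d j ≤ l i) → ∑ i ∈ G, d i ≤ Z - A := by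
  classical
  induction G using Finset.induction_on_max_value l with
  | empty => intro Z hZ _ _; simpa using hZ
  | insert a G ha hmax ih =>
    intro Z _ h1 h2
    have h3 := h1 a (Finset.mem_insert_self a G)
    have h4 := ih (l a) h3.1 (fun i hi => ⟨(h1 i (Finset.mem_insert_of_mem hi)).1, ?_⟩)
      fun i hi j hj => h2 i (Finset.mem_insert_of_mem hi) j (Finset.mem_insert_of_mem hj)
    · rw [Finset.sum_insert ha]
      linarith [h3.2]
    · rcases h2 i (Finset.mem_insert_of_mem hi) a (Finset.mem_insert_self a G)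
        (fun e => ha (e ▸ hi)) with h5 | h5
      · exact h5
      · linarith [hmax i hi, hd a]

/-- a ground cover of the tail of `C` by open rational intervals -/
theorem lb_cover (C : ℕ → Finset (List Bool))
    (hC : ∀ n, ∑ s ∈ C n, (1 / 2 : ℚ) ^ s.length ≤ (1 / 2 : ℚ) ^ n) (m : ℕ) :
    ∃ a c : ℕ → ℚ, (∀ k, 0 ≤ c k) ∧ (∀ N, ∑ k ∈ Finset.range N, c k ≤ (1 / 2) ^ m) ∧
      ∀ n, m + 3 ≤ n → ∀ s ∈ C n, ∃ k, a k < lbLo s ∧ lbLo s + lbLen s < a k + c k := by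
  classical
  obtain ⟨e⟩ : Nonempty (ℕ ≃ Σ _ : ℕ, List Bool) := nonempty_equiv_of_countable
  let f : (Σ _ : ℕ, List Bool) → ℚ := fun p =>
    if m + 3 ≤ p.1 ∧ p.2 ∈ C p.1 then 3 * lbLen p.2 else 0
  have hf : ∀ p, 0 ≤ f p := fun p => by
    have := lbLen_pos p.2
    simp only [f]
    split_ifs <;> linarith
  refine ⟨fun k => lbLo (e k).2 - lbLen (e k).2, fun k => f (e k), fun k => hf _, fun N => ?_,
    fun n hn s hs => ⟨e.symm ⟨n, s⟩, ?_⟩⟩
  · have h1 : ∀ M, ∑ n ∈ Finset.Ico (m + 3) (m + 3 + M), (1 / 2 : ℚ) ^ n ≤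
        (1 / 2) ^ (m + 2) - (1 / 2) ^ (m + 2 + M) := fun M => by
      induction M with
      | zero => simp
      | succ M ih =>
        rw [← add_assoc, Finset.sum_Ico_succ_top (by omega)]
        have : (1 / 2 : ℚ) ^ (m + 3 + M) = (1 / 2) ^ (m + 2 + M) / 2 := by ring
        have : (1 / 2 : ℚ) ^ (m + 2 + (M + 1)) = (1 / 2) ^ (m + 2 + M) / 2 := by ring
        linarith
    let M := (Finset.range N).sup fun k => (e k).1 + 1
    calc ∑ k ∈ Finset.range N, f (e k) = ∑ p ∈ (Finset.range N).map e.toEmbedding, f p :=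
          (Finset.sum_map (Finset.range N) e.toEmbedding f).symm
      _ ≤ ∑ p ∈ (Finset.Ico (m + 3) (m + 3 + M)).sigma C, f p := by
          rw [← Finset.sum_filter_ne_zero]
          refine Finset.sum_le_sum_of_subset_of_nonneg (fun p hp => ?_) fun p _ _ => hf p
          obtain ⟨h1, h0⟩ := Finset.mem_filter.1 hp
          obtain ⟨k, hk, rfl⟩ := Finset.mem_map.1 h1
          have h2 : m + 3 ≤ (e k).1 ∧ (e k).2 ∈ C (e k).1 := by
            by_contra hc
            exact h0 (if_neg hc)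
          have h3 : (e k).1 + 1 ≤ M := Finset.le_sup (f := fun k => (e k).1 + 1) hk
          exact Finset.mem_sigma.2 ⟨Finset.mem_Ico.2 ⟨h2.1, show (e k).1 < _ by omega⟩, h2.2⟩
      _ ≤ (1 / 2) ^ m := by
          rw [Finset.sum_sigma]
          have h2 : ∀ n ∈ Finset.Ico (m + 3) (m + 3 + M), ∑ s ∈ C n, f ⟨n, s⟩ ≤ 3 * (1 / 2) ^ n :=
            fun n hn => by
              refine le_trans (le_of_eq ?_) (mul_le_mul_of_nonneg_left (hC n) (by norm_num))
              rw [Finset.mul_sum]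
              exact Finset.sum_congr rfl fun s hs => if_pos ⟨(Finset.mem_Ico.1 hn).1, hs⟩
          refine (Finset.sum_le_sum h2).trans ?_
          rw [← Finset.mul_sum]
          have h3 := h1 M
          have h4 : (0 : ℚ) < (1 / 2) ^ (m + 2 + M) := by positivity
          have h5 : (1 / 2 : ℚ) ^ (m + 2) = (1 / 2) ^ m / 4 := by ring
          have h6 : (0 : ℚ) < (1 / 2) ^ m := by positivity
          linarith
  · have := lbLen_pos s
    simp only [Equiv.apply_symm_apply, f, if_pos (And.intro hn hs)]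
    constructor <;> linarith

variable {B : Type} [CompleteBooleanAlgebra B]

theorem lb_lit {U : Ult B} {b c : Bool} {y : B} (h : U.In (lit b y)) (h' : U.In (lit c y)) :
    b = c := by
  cases b <;> cases c
  · rfl
  · exact (U.compl_iff.1 h h').elim
  · exact (U.compl_iff.1 h' h).elim
  · rfl

theorem lb_comp {U : Ult B} {x : ℕ → B} {s t : List Bool} (hs : U.In (inC x s))
    (ht : U.In (inC x t)) (h : s.length ≤ t.length) : s <+: t :=
  List.prefix_iff_getElem.2 ⟨h, fun i hi => lb_lit (U.mono (le_inC.1 le_rfl i hi) hs)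
    (U.mono (le_inC.1 le_rfl i (hi.trans_le h)) ht)⟩

theorem lb_inC_anti (x : ℕ → B) {s t : List Bool} (h : s <+: t) : inC x t ≤ inC x s :=
  le_inC.2 fun n hn => by
    rw [h.getElem hn]
    exact le_inC.1 le_rfl n _

theorem lb_cell (U : Ult B) (x : ℕ → B) (m : ℕ) : ∃ s, s.length = m ∧ U.In (inC x s) := by
  induction m with
  | zero => exact ⟨[], rfl, by rw [inC_nil]; exact U.top⟩
  | succ m ih =>
    obtain ⟨s, rfl, hs⟩ := ih
    rcases U.em (x s.length) with h | h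
    · exact ⟨s ++ [true], by simp, by rw [inC_concat]; exact U.inf hs h⟩
    · exact ⟨s ++ [false], by simp, by rw [inC_concat]; exact U.inf hs h⟩

variable {S : Base B}

/-- the real number with binary expansion `x` -/
theorem lb_real (S : Base B) (x : ℕ → B) : ∃ τ : ∀ W : Pt S.q, S.KK W, Rep τ ∧
    ∀ W s, W.1.In (inC x s) → (lbLo s : S.KK W) ≤ τ W ∧ τ W ≤ lbLo s + lbLen s := by
  obtain ⟨τ, h1, h2⟩ := exists_lub (S := S) (fun s W => (lbLo s : S.KK W)) (inC x)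
  refine ⟨τ, h1, fun W s hs => h2 (fun W => (lbLo s : S.KK W) + (lbLen s : S.KK W))
    (fun W => W.1.In (inC x s)) (fun t V h3 h4 => ?_) W s hs hs⟩
  have : lbLo t ≤ lbLo s + lbLen s := by
    rcases le_total s.length t.length with h | h
    · linarith [(lb_prefix (lb_comp h3 h4 h)).2, lbLen_pos t]
    · linarith [(lb_prefix (lb_comp h4 h3 h)).1, lbLen_pos s]
  exact_mod_cast this

theorem lb_small (τ : ∀ W : Pt S.q, S.KK W) [Rep τ] :
    ∀ᶠ W in gen S.q, 0 < τ W → ∃ m : ℕ, (((1 / 2 : ℚ) ^ m : ℚ) : S.KK W) < τ W := by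
  filter_upwards [gen_pos τ] with W h h'
  obtain ⟨ε, h1, h2⟩ := h h'
  obtain ⟨m, hm⟩ := exists_pow_lt_of_lt_one h1 (show (1 / 2 : ℚ) < 1 by norm_num)
  exact ⟨m, lt_of_lt_of_le (by exact_mod_cast hm) h2⟩

section
set_option synthInstance.maxSize 4096

theorem lb_null (C : ℕ → Finset (List Bool))
    (hC : ∀ n, ∑ s ∈ C n, (1 / 2 : ℚ) ^ s.length ≤ (1 / 2 : ℚ) ^ n)
    (τ : (ℕ → B) → ∀ W : Pt S.q, S.KK W) (r : (ℕ → B) → Name B)
    (hr : ∀ x W, (τ x W).1 = cl W.1 (r x))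
    (hτ : ∀ x W s, W.1.In (inC x s) → (lbLo s : S.KK W) ≤ τ x W ∧ τ x W ≤ lbLo s + lbLen s)
    (W : Pt S.q) :
    LebNull (Mem W.1) (clF W.1 S.N) (cl W.1 omN) (cl W.1 (Name.mk (ℕ → B) r (limC C))) := by
  refine ⟨mk_ind (fun W z => Mem W.1 z (clF W.1 S.N).R) (fun x V _ => ?_) W, fun e he => ?_⟩
  · rw [← hr]
    exact (τ x V).2
  obtain ⟨e, rfl⟩ := cl_surj W.1 e
  refine of_gen (fun W => Pos (Mem W.1) (clF W.1 S.N) (cl W.1 e) → ∃ a c,
    IsFun (Mem W.1) a (cl W.1 omN) (clF W.1 S.N).R ∧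
    SumLe (Mem W.1) (clF W.1 S.N) (cl W.1 omN) c (cl W.1 e) ∧
    (∀ n t, App (Mem W.1) c n t → App (Mem W.1) (clF W.1 S.N).le (clF W.1 S.N).zero t) ∧
    ∀ x, Mem W.1 x (cl W.1 (Name.mk (ℕ → B) r (limC C))) → ∃ n s t v, App (Mem W.1) a n s ∧
      App (Mem W.1) c n t ∧ Op (Mem W.1) (clF W.1 S.N).add s t v ∧
      Less (Mem W.1) (clF W.1 S.N) s x ∧ Less (Mem W.1) (clF W.1 S.N) x v) ?_ W he
  filter_upwards [lb_small fun W => val (S.ctx W) (cl W.1 e)] with W h1 h2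
  have h3 : (val (S.ctx W) (cl W.1 e)).1 = cl W.1 e := val_of_mem h2.1
  obtain ⟨m, hm⟩ := h1 (pos_iff.1 (by rwa [h3]))
  obtain ⟨a, c, c0, cs, cc⟩ := lb_cover C hC m
  obtain ⟨A, hA⟩ := exists_rseq (S := S) fun k _ => (a k : S.KK _)
  obtain ⟨D, hD⟩ := exists_rseq (S := S) fun k _ => (c k : S.KK _)
  refine ⟨cl W.1 A, cl W.1 D, (hA W).1, ?_, fun n t h4 => ?_, ?_⟩
  · rw [← h3]
    refine sumLe_of D (fun W => val (S.ctx W) (cl W.1 e))
      (fun W => (((1 / 2 : ℚ) ^ m : ℚ) : S.KK W) < val (S.ctx W) (cl W.1 e))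
      (fun V _ => (hD V).1) (fun N V hV => le_trans ?_ hV.le) W hm
    simp only [(hD V).2]
    exact_mod_cast cs N
  · refine nat_ind (fun W n => ∀ t, App (Mem W.1) (cl W.1 D) n t →
      App (Mem W.1) (clF W.1 S.N).le (clF W.1 S.N).zero t) (fun i V t h5 => ?_) W n
      ((hD W).1.app_mem h4).1 t h4
    rw [ev_of_app (h := S.ctx V) (hD V).1 h5, (hD V).2]
    exact (show (0 : S.KK V) ≤ (c i : S.KK V) by exact_mod_cast c0 i)
  · refine mk_ind (fun W x => ∃ n s t v, App (Mem W.1) (cl W.1 A) n s ∧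
      App (Mem W.1) (cl W.1 D) n t ∧ Op (Mem W.1) (clF W.1 S.N).add s t v ∧
      Less (Mem W.1) (clF W.1 S.N) s x ∧ Less (Mem W.1) (clF W.1 S.N) x v) (fun x V hV => ?_) W
    have h5 : limC C x ≤ ⨆ p : {p : ℕ × List Bool //
        a p.1 < lbLo p.2 ∧ lbLo p.2 + lbLen p.2 < a p.1 + c p.1}, inC x p.1.2 := by
      refine (iInf_le _ (m + 3)).trans (iSup₂_le fun n hn => iSup₂_le fun s hs => ?_)
      obtain ⟨k, hk⟩ := cc n hn s hs
      exact le_iSup_of_le ⟨(k, s), hk⟩ le_rfl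
    refine of_gen (fun W => W.1.In (limC C x) → ∃ n s t v, App (Mem W.1) (cl W.1 A) n s ∧
      App (Mem W.1) (cl W.1 D) n t ∧ Op (Mem W.1) (clF W.1 S.N).add s t v ∧
      Less (Mem W.1) (clF W.1 S.N) s (cl W.1 (r x)) ∧
      Less (Mem W.1) (clF W.1 S.N) (cl W.1 (r x)) v) ?_ V hV
    filter_upwards [gen_iSup fun p : {p : ℕ × List Bool //
        a p.1 < lbLo p.2 ∧ lbLo p.2 + lbLen p.2 < a p.1 + c p.1} => inC x p.1.2] with V h6 h7
    obtain ⟨⟨⟨k, s⟩, h8, h9⟩, h10⟩ := h6 (V.1.mono h5 h7)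
    obtain ⟨h11, h12⟩ := hτ x V s h10
    have h13 := app_ev (h := S.ctx V) (hA V).1 (nat_mem _ k)
    have h14 := app_ev (h := S.ctx V) (hD V).1 (nat_mem _ k)
    rw [(hA V).2] at h13
    rw [(hD V).2] at h14
    rw [← hr]
    refine ⟨_, _, _, _, h13, h14, K.add_spec _ _, less_iff.2 (lt_of_lt_of_le ?_ h11),
      less_iff.2 (lt_of_le_of_lt h12 ?_)⟩
    · exact_mod_cast h8
    · exact_mod_cast h9

theorem leb_family (S : Base B) {ι : Type} (h : SmallAdd B ι) : ∃ N : ι → Name B,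
    (∀ i (W : Pt S.q), LebNull (Mem W.1) (clF W.1 S.N) (cl W.1 omN) (cl W.1 (N i))) ∧
    ∀ V : Name B, (∀ i (W : Pt S.q), Sub (Mem W.1) (cl W.1 (N i)) (cl W.1 V)) →
      ∀ W : Pt S.q, ¬ LebNull (Mem W.1) (clF W.1 S.N) (cl W.1 omN) (cl W.1 V) := by
  classical
  obtain ⟨C, hC, hS⟩ := h
  choose τ hR hτ using lb_real S
  choose r hr using fun x => (hR x).ex_name
  refine ⟨fun i => Name.mk (ℕ → B) r (limC (C i)), fun i => lb_null (C i) (hC i) τ r hr hτ,
    fun V hV W0 hN => ?_⟩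
  obtain ⟨a, c, hac⟩ := hN.2 (((1 / 2 : ℚ) : S.KK W0)).1 (pos_iff.2 (by norm_num))
  obtain ⟨a, rfl⟩ := cl_surj W0.1 a
  obtain ⟨c, rfl⟩ := cl_surj W0.1 c
  let H : Pt S.q → Prop := fun W => IsFun (Mem W.1) (cl W.1 a) (cl W.1 omN) (clF W.1 S.N).R ∧
    SumLe (Mem W.1) (clF W.1 S.N) (cl W.1 omN) (cl W.1 c) (((1 / 2 : ℚ) : S.KK W)).1 ∧
    (∀ n t, App (Mem W.1) (cl W.1 c) n t →
      App (Mem W.1) (clF W.1 S.N).le (clF W.1 S.N).zero t) ∧
    ∀ x, Mem W.1 x (cl W.1 V) → ∃ n s t v, App (Mem W.1) (cl W.1 a) n s ∧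
      App (Mem W.1) (cl W.1 c) n t ∧ Op (Mem W.1) (clF W.1 S.N).add s t v ∧
      Less (Mem W.1) (clF W.1 S.N) s x ∧ Less (Mem W.1) (clF W.1 S.N) x v
  have hH : Cl H := by unfold H; infer_instance
  let A : ℕ → ∀ W : Pt S.q, S.KK W := fun n W => ev (S.ctx W) (cl W.1 a) (cl W.1 (ordN n))
  let D : ℕ → ∀ W : Pt S.q, S.KK W := fun n W => ev (S.ctx W) (cl W.1 c) (cl W.1 (ordN n))
  have hA : ∀ n, Rep (A n) := fun n => by unfold A; infer_instance
  have hD : ∀ n, Rep (D n) := fun n => by unfold D; infer_instance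
  let I : ℕ → List Bool → Pt S.q → Prop := fun n s W =>
    A n W < lbLo s ∧ (lbLo s : S.KK W) + lbLen s < A n W + D n W
  have hI : ∀ n s, Cl (I n s) := fun n s => by unfold I; infer_instance
  let u : List Bool → B := fun s => ⨆ n, tv (I n s)
  let w : List Bool → B := fun s =>
    u s ⊓ (Finset.range s.length).inf fun j => (u (s.take j))ᶜ
  have hw : ∀ (U : Ult B) s, U.In (w s) ↔ U.In (u s) ∧ ∀ j < s.length, ¬ U.In (u (s.take j)) :=
    fun U s => by
      simp only [w, U.inf_iff, in_finset_inf, Finset.mem_range, U.compl_iff]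
  have hcov : IsCovL (S.q ⊓ tv H) (1 / 2) w := fun F hF => by
    obtain ⟨U, hU⟩ := Ult.exists_of_ne_bot hF
    rw [U.inf_iff, U.inf_iff] at hU
    refine of_gen (fun W => H W → W.1.In (F.inf w) → ∑ s ∈ F, (1 / 2 : ℚ) ^ s.length ≤ 1 / 2) ?_
      ⟨U, hU.1.1⟩ ((in_tv H ⟨U, hU.1.1⟩).1 hU.1.2) hU.2
    filter_upwards [F.eventually_all.2 fun s _ => gen_iSup (q := S.q) fun n => tv (I n s)]
      with W h1 h2 h3
    rw [in_finset_inf] at h3
    have h4 : ∀ s, ∃ n, s ∈ F → I n s W := fun s => by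
      by_cases hs : s ∈ F
      · obtain ⟨n, hn⟩ := h1 s hs ((hw _ _).1 (h3 s hs)).1
        exact ⟨n, fun _ => (in_tv _ W).1 hn⟩
      · exact ⟨0, fun h => (hs h).elim⟩
    choose g hg using h4
    have h5 : ∀ s ∈ F, ∀ t ∈ F, s ≠ t → ¬ s <+: t := fun s hs t ht hst hp =>
      ((hw _ _).1 (h3 t ht)).2 s.length
        (lt_of_le_of_ne hp.length_le fun e => hst (hp.eq_of_length e))
        (by rw [← List.prefix_iff_eq_take.1 hp]; exact ((hw _ _).1 (h3 s hs)).1)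
    have h6 : ∀ n, ∑ s ∈ F with g s = n, (lbLen s : S.KK W) ≤ D n W := fun n => by
      have h7 : (0 : S.KK W) ≤ D n W := h2.2.2.1 _ _ (app_ev h2.2.1.1 (nat_mem _ n))
      have := lb_pack (fun s => (lbLo s : S.KK W)) (fun s => (lbLen s : S.KK W))
        (fun s => by exact_mod_cast lbLen_pos s) (A n W) (F.filter fun s => g s = n)
        (A n W + D n W) (by linarith) (fun s hs => ?_) fun s hs t ht hst => ?_
      · linarith
      · obtain ⟨h8, rfl⟩ := Finset.mem_filter.1 hs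
        exact ⟨(hg s h8).1.le, (hg s h8).2.le⟩
      · have h8 := (Finset.mem_filter.1 hs).1
        have h9 := (Finset.mem_filter.1 ht).1
        exact_mod_cast lb_disj (h5 s h8 t h9 hst) (h5 t h9 s h8 hst.symm)
    have h7 : ∑ s ∈ F, (lbLen s : S.KK W) ≤ ((1 / 2 : ℚ) : S.KK W) := by
      rw [← Finset.sum_fiberwise_of_maps_to (t := Finset.range (F.sup g + 1)) (g := g)
        fun s hs => Finset.mem_range.2 (Nat.lt_succ_of_le (Finset.le_sup hs))]
      exact (Finset.sum_le_sum fun n _ => h6 n).trans (SumLe.sum_le h2.2.1 _)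
    have h8 : ∑ s ∈ F, lbLen s ≤ 1 / 2 := by exact_mod_cast h7
    exact h8
  obtain ⟨i, x, hx⟩ := hS _ (W0.1.ne_bot (W0.1.inf W0.2 ((in_tv H W0).2 hac))) w hcov
  obtain ⟨U, hU⟩ := Ult.exists_of_ne_bot hx
  rw [U.inf_iff, U.inf_iff, U.inf_iff, U.compl_iff] at hU
  refine hU.2 (of_gen (fun W => H W → W.1.In (limC (C i) x) → W.1.In (covL w x)) ?_
    ⟨U, hU.1.1.1⟩ ((in_tv H ⟨U, hU.1.1.1⟩).1 hU.1.1.2) hU.1.2)
  obtain ⟨n, hn⟩ := maxp fun (W : Pt S.q) n => ∃ s t v, App (Mem W.1) (cl W.1 a) n s ∧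
      App (Mem W.1) (cl W.1 c) n t ∧ Op (Mem W.1) (clF W.1 S.N).add s t v ∧
      Less (Mem W.1) (clF W.1 S.N) s (cl W.1 (r x)) ∧
      Less (Mem W.1) (clF W.1 S.N) (cl W.1 (r x)) v
  have := hR x
  filter_upwards [gen_bind (gen_nat n) fun k => (lb_small fun W => τ x W - A k W).and
    (lb_small fun W => A k W + D k W - τ x W)] with W h1 h2 h3
  obtain ⟨s, t, v, e1, e2, e3, e4, e5⟩ := hn W (h2.2.2.2 _ (hV i W _ (mem_mk (A := r) x h3)))
  obtain ⟨k, e6, h4, h5⟩ := h1 (h2.1.app_mem e1).1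
  rw [e6] at e1 e2
  rw [ev_of_app (h := S.ctx W) h2.1 e1] at e3 e4
  rw [ev_of_app (h := S.ctx W) h2.2.1.1 e2, K.add_iff] at e3
  rw [← hr] at e4 e5
  rw [e3] at e5
  obtain ⟨m1, h6⟩ := h4 (sub_pos.2 (less_iff.1 e4))
  obtain ⟨m2, h7⟩ := h5 (sub_pos.2 (less_iff.1 e5))
  obtain ⟨s, hs1, hs2⟩ := lb_cell W.1 x (max m1 m2)
  obtain ⟨h8, h9⟩ := hτ x W s hs2
  have h10 : ∀ m ≤ max m1 m2, (lbLen s : S.KK W) ≤ (((1 / 2 : ℚ) ^ m : ℚ) : S.KK W) :=
    fun m hm => by
      have : lbLen s ≤ (1 / 2 : ℚ) ^ m :=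
        pow_le_pow_of_le_one (by norm_num) (by norm_num) (hs1 ▸ hm)
      exact_mod_cast this
  have h11 : ∃ j, W.1.In (u (s.take j)) := by
    refine ⟨s.length, W.1.iSup_intro k ((in_tv _ W).2 ?_)⟩
    rw [List.take_length]
    exact ⟨by linarith [h10 m1 (le_max_left _ _)], by linarith [h10 m2 (le_max_right _ _)]⟩
  refine W.1.iSup_intro (s.take (Nat.find h11)) (W.1.inf ((hw _ _).2 ⟨Nat.find_spec h11,
    fun j hj => ?_⟩) (W.1.mono (lb_inC_anti x (List.take_prefix _ _)) hs2))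
  have h12 : j < Nat.find h11 := hj.trans_le (List.length_take_le _ _)
  rw [List.take_take, min_eq_left h12.le]
  exact Nat.find_min h11 h12

end

end Pool.Agent.Lib.MP_f79ffc_lc.St
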