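import Pool.Agent.Lib.MP_f79ffc_lc.U.M.Code

/-!
From a Borel probability measure of the models to a matrix of truth values on cells.
-/

namespace Pool.Agent.Lib.MP_f79ffc_lc.St

open Pool.Agent.Lib.MP_5d9fac_lc Pool.Agent.Lib.MP_c1e359_an Pool.Agent.Lib.MP_f79ffc_lc.U Filter

variable {B : Type} [CompleteBooleanAlgebra B] {S : Base B}

/-- `A` names the set of reals with the property `Q` -/
def Rs (S : Base B) (A : Name B) (Q : ∀ W : Pt S.q, S.KK W → Prop) : Prop :=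
  ∀ (W : Pt S.q) x, Mem W.1 x (cl W.1 A) ↔
    Mem W.1 x (clF W.1 S.N).R ∧ Q W (val (S.ctx W) x)

theorem exists_rs (Q : ∀ W : Pt S.q, S.KK W → Prop)
    [∀ n : Name B, Cl fun W => Q W (val (S.ctx W) (cl W.1 n))] : ∃ A, Rs S A Q :=
  exists_sep (fun W x => Q W (val (S.ctx W) x)) S.N.R

theorem Rs.congr {A C : Name B} {Q T : ∀ W : Pt S.q, S.KK W → Prop} (hA : Rs S A Q)
    (hC : Rs S C T) {W : Pt S.q} (h : ∀ z, Q W z ↔ T W z) : cl W.1 A = cl W.1 C :=
  mod_ext _ _ _ fun x => by rw [hA, hC, h]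

theorem Rs.of_iff {A : Name B} {Q T : ∀ W : Pt S.q, S.KK W → Prop} (hA : Rs S A Q)
    (h : ∀ W z, Q W z ↔ T W z) : Rs S A T := fun W x => by rw [hA, h]

theorem rs_R : Rs S S.N.R fun _ _ => True := fun _ _ => by simp

/-- the set of reals whose code lies in `X` -/
def codeP (S : Base B) (X : (ℕ → B) → B) (W : Pt S.q) (z : S.KK W) : Prop :=
  ∃ n : Name B, rv S n W = z ∧ W.1.In (X (code S n))

theorem codeP_iff {X : (ℕ → B) → B} (hX : Ext X) {n : Name B} {W : Pt S.q} :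
    codeP S X W (rv S n W) ↔ W.1.In (X (code S n)) :=
  ⟨fun ⟨_, h1, h2⟩ => W.1.mono (hX _ _) (W.1.inf (code_congr h1) h2), fun h => ⟨n, rfl, h⟩⟩

theorem exists_rs_code {X : (ℕ → B) → B} (hX : Ext X) : ∃ A, Rs S A (codeP S X) :=
  have : ∀ n : Name B, Cl fun W => codeP S X W (val (S.ctx W) (cl W.1 n)) := fun n =>
    Cl.of_iff (fun W => W.1.In (X (code S n))) fun _ => codeP_iff hX
  exists_rs _

theorem br_congr {f g : ℕ → Bool} {n : ℕ} (h : ∀ m < n, f m = g m) : br f n = br g n := by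
  induction n with
  | zero => rfl
  | succ n ih =>
    rw [br_succ, br_succ, ih fun m hm => h m (Nat.lt_succ_of_lt hm), h n (Nat.lt_succ_self n)]

theorem inJ_disj {L : Type*} [Field L] [LinearOrder L] {z : L} {s : List Bool} {b : Bool}
    (h1 : inJ z (s ++ [b])) (h2 : inJ z (s ++ [!b])) : False := by
  cases b
  · exact (inJ_false.1 h1).2.not_ge (inJ_true.1 h2).2
  · exact (inJ_false.1 h2).2.not_ge (inJ_true.1 h1).2

section Un

variable {Bo : Name B} {A : ℕ → Name B} {Q : ℕ → ∀ W : Pt S.q, S.KK W → Prop} {U : Name B}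
  {T : ∀ W : Pt S.q, S.KK W → Prop}

theorem seq_un (hA : ∀ n, Rs S (A n) (Q n))
    (hB : ∀ n (W : Pt S.q), Mem W.1 (cl W.1 (A n)) (cl W.1 Bo)) (hU : Rs S U T)
    (h1 : ∀ n W z, Q n W z → T W z)
    (h2 : ∀ z : Name B, ∀ᶠ W in gen S.q, T W (rv S z W) → ∃ n, Q n W (rv S z W)) :
    ∃ f : Name B, ∀ W : Pt S.q, IsFun (Mem W.1) (cl W.1 f) (cl W.1 omN) (cl W.1 Bo) ∧
      (∀ n : ℕ, App (Mem W.1) (cl W.1 f) (cl W.1 (ordN n)) (cl W.1 (A n))) ∧
      IsUnV (Mem W.1) (cl W.1 U) (cl W.1 f) := by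
  obtain ⟨f, hf⟩ := exists_seq A Bo hB
  refine ⟨f, fun W => ⟨(hf W).1, (hf W).2, fun x => ⟨?_, ?_⟩⟩⟩
  · obtain ⟨z, rfl⟩ := cl_surj W.1 x
    refine of_gen (fun W => Mem W.1 (cl W.1 z) (cl W.1 U) →
      ∃ n C, App (Mem W.1) (cl W.1 f) n C ∧ Mem W.1 (cl W.1 z) C) ?_ W
    filter_upwards [h2 z] with W h3 h4
    obtain ⟨h5, h6⟩ := (hU W _).1 h4
    obtain ⟨n, hn⟩ := h3 h6
    exact ⟨_, _, (hf W).2 n, (hA n W _).2 ⟨h5, hn⟩⟩
  · rintro ⟨n, C, h3, h4⟩
    refine nat_ind (fun W n => ∀ C x, App (Mem W.1) (cl W.1 f) n C → Mem W.1 x C →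
      Mem W.1 x (cl W.1 U)) (fun i V C x e1 e2 => ?_) W n ((hf W).1.app_mem h3).1 C x h3 h4
    rw [(hf V).1.app_unique e1 ((hf V).2 i), hA] at e2
    exact (hU V x).2 ⟨e2.1, h1 i V _ e2.2⟩

variable (hBo : ∀ W : Pt S.q, IsBorel (Mem W.1) (clF W.1 S.N) (cl W.1 omN) (cl W.1 Bo))
include hBo

theorem un_mem (hA : ∀ n, Rs S (A n) (Q n))
    (hB : ∀ n (W : Pt S.q), Mem W.1 (cl W.1 (A n)) (cl W.1 Bo)) (hU : Rs S U T)
    (h1 : ∀ n W z, Q n W z → T W z)
    (h2 : ∀ z : Name B, ∀ᶠ W in gen S.q, T W (rv S z W) → ∃ n, Q n W (rv S z W))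
    (W : Pt S.q) : Mem W.1 (cl W.1 U) (cl W.1 Bo) := by
  obtain ⟨f, hf⟩ := seq_un hA hB hU h1 h2
  exact (hBo W).1.2.2.2 _ _ (hf W).1 (hf W).2.2

theorem compl_mem {C : Name B} {R : ∀ W : Pt S.q, S.KK W → Prop} (hU : Rs S U T) (hC : Rs S C R)
    {W : Pt S.q} (h : ∀ z, R W z ↔ ¬ T W z) (h1 : Mem W.1 (cl W.1 U) (cl W.1 Bo)) :
    Mem W.1 (cl W.1 C) (cl W.1 Bo) :=
  (hBo W).1.2.2.1 _ _ h1 fun x => by
    rw [hC, hU, h]
    tauto

theorem ray_mem (a : ℚ) (hU : Rs S U fun _ z => z < a) (W : Pt S.q) :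
    Mem W.1 (cl W.1 U) (cl W.1 Bo) :=
  (hBo W).1.2.1 (a : S.KK W).1 _ (a : S.KK W).2 fun x => by
    rw [hU]
    refine and_congr_right fun hx => ?_
    have := less_iff (W := W) (a := val (S.ctx W) x) (b := (a : S.KK W))
    rw [val_of_mem hx] at this
    exact this.symm

theorem inter_mem {C D : Name B} {R : ∀ W : Pt S.q, S.KK W → Prop} (hU : Rs S U T)
    (hC : Rs S C R) [∀ n : Name B, Cl fun W => T W (val (S.ctx W) (cl W.1 n))]
    [∀ n : Name B, Cl fun W => R W (val (S.ctx W) (cl W.1 n))]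
    (hD : Rs S D fun W z => T W z ∧ R W z) (h1 : ∀ W : Pt S.q, Mem W.1 (cl W.1 U) (cl W.1 Bo))
    (h2 : ∀ W : Pt S.q, Mem W.1 (cl W.1 C) (cl W.1 Bo)) (W : Pt S.q) :
    Mem W.1 (cl W.1 D) (cl W.1 Bo) := by
  obtain ⟨U', hU'⟩ := exists_rs fun W z => ¬ T W z
  obtain ⟨C', hC'⟩ := exists_rs fun W z => ¬ R W z
  obtain ⟨D', hD'⟩ := exists_rs fun W z => ¬ (T W z ∧ R W z)
  refine compl_mem hBo hD' hD (fun z => not_not.symm) (un_mem hBo
    (A := fun n => Nat.casesOn n U' fun _ => C')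
    (Q := fun n => Nat.casesOn n (fun W z => ¬ T W z) fun _ W z => ¬ R W z) ?_ ?_ hD' ?_ ?_ W)
  · rintro (_ | n)
    exacts [hU', hC']
  · rintro (_ | n) V
    exacts [compl_mem hBo hU hU' (fun _ => Iff.rfl) (h1 V),
      compl_mem hBo hC hC' (fun _ => Iff.rfl) (h2 V)]
  · rintro (_ | n) V z h h'
    exacts [h h'.1, h h'.2]
  · refine fun z => Eventually.of_forall fun V h => ?_
    rcases not_and_or.1 h with h | h
    exacts [⟨0, h⟩, ⟨1, h⟩]

variable {μ : Name B}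
  (hμ : ∀ W : Pt S.q, IsProb (Mem W.1) (clF W.1 S.N) (cl W.1 omN) (cl W.1 Bo) (cl W.1 μ))
include hμ

omit hBo in
theorem mu_nonneg {W : Pt S.q} {C : Mod W.1} (h : Mem W.1 C (cl W.1 Bo)) :
    0 ≤ ev (S.ctx W) (cl W.1 μ) C := (hμ W).2.1 _ _ (app_ev (hμ W).1 h)

theorem mu_sum (hA : ∀ n, Rs S (A n) (Q n))
    (hB : ∀ n (W : Pt S.q), Mem W.1 (cl W.1 (A n)) (cl W.1 Bo)) (hU : Rs S U T)
    (h1 : ∀ n W z, Q n W z → T W z)
    (h2 : ∀ z : Name B, ∀ᶠ W in gen S.q, T W (rv S z W) → ∃ n, Q n W (rv S z W))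
    (hd : ∀ n m W z, Q n W z → Q m W z → n = m) :
    (∀ (W : Pt S.q) N, ∑ n ∈ Finset.range N, ev (S.ctx W) (cl W.1 μ) (cl W.1 (A n)) ≤
      ev (S.ctx W) (cl W.1 μ) (cl W.1 U)) ∧
    ∀ (σ : ∀ W : Pt S.q, S.KK W) [Rep σ] (P : Pt S.q → Prop) [Cl P],
      (∀ N W, P W → ∑ n ∈ Finset.range N, ev (S.ctx W) (cl W.1 μ) (cl W.1 (A n)) ≤ σ W) →
      ∀ W, P W → ev (S.ctx W) (cl W.1 μ) (cl W.1 U) ≤ σ W := by
  obtain ⟨f, hf⟩ := seq_un hA hB hU h1 h2
  obtain ⟨c, hc⟩ := exists_rseq (S := S) fun n W => ev (S.ctx W) (cl W.1 μ) (cl W.1 (A n))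
  have key : ∀ W : Pt S.q, IsSum (Mem W.1) (clF W.1 S.N) (cl W.1 omN) (cl W.1 c)
      (ev (S.ctx W) (cl W.1 μ) (cl W.1 U)).1 := by
    intro W
    refine (hμ W).2.2.2.2 _ _ _ _ (hf W).1 (fun n m C D x e1 e2 => ?_) (hf W).2.2 (hc W).1
      (fun n C t e1 => ?_) (app_ev (hμ W).1 (un_mem hBo hA hB hU h1 h2 W))
    · refine nat_ind (fun W n => ∀ m, Mem W.1 m (cl W.1 omN) → ∀ C D x,
        App (Mem W.1) (cl W.1 f) n C → App (Mem W.1) (cl W.1 f) m D → Mem W.1 x C →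
        Mem W.1 x D → n = m) (fun i V => ?_) W n ((hf W).1.app_mem e1).1 m
        ((hf W).1.app_mem e2).1 C D x e1 e2
      refine nat_ind (fun W m => ∀ C D x, App (Mem W.1) (cl W.1 f) (cl W.1 (ordN i)) C →
        App (Mem W.1) (cl W.1 f) m D → Mem W.1 x C → Mem W.1 x D → cl W.1 (ordN i) = m)
        (fun j V C D x e1 e2 e3 e4 => ?_) V
      rw [(hf V).1.app_unique e1 ((hf V).2.1 i), hA] at e3
      rw [(hf V).1.app_unique e2 ((hf V).2.1 j), hA] at e4
      rw [hd i j V _ e3.2 e4.2]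
    · refine nat_ind (fun W n => ∀ C t, App (Mem W.1) (cl W.1 f) n C →
        App (Mem W.1) (cl W.1 c) n t → App (Mem W.1) (cl W.1 μ) C t)
        (fun i V C t e1 e2 => ?_) W n ((hf W).1.app_mem e1).1 C t e1
      rw [(hf V).1.app_unique e1 ((hf V).2.1 i), ev_of_app (h := S.ctx V) (hc V).1 e2, (hc V).2]
      exact app_ev (hμ V).1 (hB i V)
  refine ⟨fun W N => ?_, fun σ _ P _ h W hW => ?_⟩
  · simpa only [(hc W).2] using SumLe.sum_le (key W).1 N
  · exact (key W).2 _ (σ W).2 (sumLe_of c σ P (fun V _ => (hc V).1)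
      (fun N V hV => by simpa only [(hc V).2] using h N V hV) W hW)

omit hBo in
theorem R_mem (W : Pt S.q) : Mem W.1 (cl W.1 S.N.R) (cl W.1 Bo) :=
  ((hμ W).1.app_mem (hμ W).2.2.1).1

omit hBo in
theorem mu_R (W : Pt S.q) : ev (S.ctx W) (cl W.1 μ) (cl W.1 S.N.R) = 1 :=
  (K.ext (ev_of_app (hμ W).1 (hμ W).2.2.1)).symm

theorem mu_emp {W : Pt S.q} (hU : Rs S U T) (h : ∀ z, ¬ T W z) :
    Mem W.1 (cl W.1 U) (cl W.1 Bo) ∧ ev (S.ctx W) (cl W.1 μ) (cl W.1 U) = 0 := by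
  obtain ⟨E, hE⟩ := exists_rs (S := S) fun _ _ => False
  have h1 : ∀ V : Pt S.q, Mem V.1 (cl V.1 E) (cl V.1 Bo) := fun V =>
    compl_mem hBo rs_R hE (fun _ => by simp) (R_mem hμ V)
  rw [hU.congr hE fun z => iff_false_intro (h z)]
  have h2 := (mu_sum hBo hμ (A := fun _ => E) (fun _ => hE) (fun _ => h1) hE (fun _ _ _ => id)
    (fun _ => Eventually.of_forall fun _ h => h.elim) fun _ _ _ _ h => h.elim).1 W 2
  have h3 := mu_nonneg hμ (h1 W)
  rw [Finset.sum_range_succ, Finset.sum_range_one] at h2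
  exact ⟨h1 W, by linarith⟩

variable {cell : List Bool → Name B} (hc : ∀ s, Rs S (cell s) fun _ z => inJ z s)
include hc

theorem cell_mem (s : List Bool) (W : Pt S.q) : Mem W.1 (cl W.1 (cell s)) (cl W.1 Bo) := by
  induction s using List.reverseRecOn generalizing W with
  | nil =>
    rw [(hc []).congr rs_R fun _ => iff_true_intro inJ_nil]
    exact R_mem hμ W
  | append_singleton s b ih =>
    obtain ⟨C, hC⟩ := exists_rs (S := S) fun W z => z < (mid s : S.KK W)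
    cases b
    · exact inter_mem hBo (hc s) hC ((hc _).of_iff fun _ _ => inJ_false) ih (ray_mem hBo _ hC) W
    · obtain ⟨D, hD⟩ := exists_rs (S := S) fun W z => (mid s : S.KK W) ≤ z
      exact inter_mem hBo (hc s) hD ((hc _).of_iff fun _ _ => inJ_true) ih
        (fun V => compl_mem hBo hC hD (fun _ => not_lt.symm) (ray_mem hBo _ hC V)) W

omit hBo in
theorem mu_nil (W : Pt S.q) : ev (S.ctx W) (cl W.1 μ) (cl W.1 (cell [])) = 1 := by
  rw [(hc []).congr rs_R fun _ => iff_true_intro inJ_nil]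
  exact mu_R hμ W

theorem mu_add (s : List Bool) (W : Pt S.q) : ev (S.ctx W) (cl W.1 μ) (cl W.1 (cell s)) =
    ev (S.ctx W) (cl W.1 μ) (cl W.1 (cell (s ++ [false]))) +
      ev (S.ctx W) (cl W.1 μ) (cl W.1 (cell (s ++ [true]))) := by
  obtain ⟨E, hE⟩ := exists_rs (S := S) fun _ _ => False
  have h0 := fun V => mu_emp hBo hμ (W := V) hE fun _ => id
  obtain ⟨h1, h2⟩ := mu_sum hBo hμ
    (A := fun n => Nat.casesOn n (cell (s ++ [false])) fun n =>
      Nat.casesOn n (cell (s ++ [true])) fun _ => E)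
    (Q := fun n => Nat.casesOn n (fun _ z => inJ z (s ++ [false])) fun n =>
      Nat.casesOn n (fun _ z => inJ z (s ++ [true])) fun _ _ _ => False)
    (by
      rintro (_ | _ | n)
      exacts [hc _, hc _, hE])
    (by
      rintro (_ | _ | n) V
      exacts [cell_mem hBo hμ hc _ V, cell_mem hBo hμ hc _ V, (h0 V).1]) (hc s)
    (by
      rintro (_ | _ | n) V z h
      exacts [h.of_append, h.of_append, h.elim])
    (fun z => Eventually.of_forall fun V h => (lt_or_ge (rv S z V) (mid s)).elim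
      (fun h' => ⟨0, inJ_false.2 ⟨h, h'⟩⟩) fun h' => ⟨1, inJ_true.2 ⟨h, h'⟩⟩)
    (by
      rintro (_ | _ | n) (_ | _ | m) V z h h'
      exacts [rfl, (inJ_disj h h').elim, h'.elim, (inJ_disj h' h).elim, rfl, h'.elim, h.elim,
        h.elim, h.elim])
  refine le_antisymm (h2 (fun V => ev (S.ctx V) (cl V.1 μ) (cl V.1 (cell (s ++ [false]))) +
    ev (S.ctx V) (cl V.1 μ) (cl V.1 (cell (s ++ [true])))) (fun _ => True) ?_ W trivial) ?_
  · intro N V _
    have h3 := mu_nonneg hμ (cell_mem hBo hμ hc (s ++ [false]) V)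
    have h4 := mu_nonneg hμ (cell_mem hBo hμ hc (s ++ [true]) V)
    rcases N with _ | _ | N
    · rw [Finset.sum_range_zero]
      linarith
    · rw [Finset.sum_range_one]
      exact le_add_of_nonneg_right h4
    · rw [Finset.sum_range_succ', Finset.sum_range_succ',
        Finset.sum_eq_zero fun n _ => (h0 V).2, zero_add, add_comm]
      exact le_rfl
  · have := h1 W 2
    rwa [Finset.sum_range_succ, Finset.sum_range_one] at this

theorem mu_anti (s t : List Bool) (W : Pt S.q) :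
    ev (S.ctx W) (cl W.1 μ) (cl W.1 (cell (s ++ t))) ≤ ev (S.ctx W) (cl W.1 μ) (cl W.1 (cell s)) := by
  induction t using List.reverseRecOn with
  | nil => rw [List.append_nil]
  | append_singleton t b ih =>
    refine le_trans ?_ ih
    rw [← List.append_assoc, mu_add hBo hμ hc (s ++ t)]
    cases b
    · exact le_add_of_nonneg_right (mu_nonneg hμ (cell_mem hBo hμ hc _ W))
    · exact le_add_of_nonneg_left (mu_nonneg hμ (cell_mem hBo hμ hc _ W))

/-- the cells along a branch have small measure -/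
theorem mu_branch (x : ℕ → B) {ε : ℚ} (hε : 0 < ε) (P : Pt S.q → Prop) [Cl P]
    (h : ∀ W, P W → ∀ n, (ε : S.KK W) < ev (S.ctx W) (cl W.1 μ) (cl W.1 (cell (br (bits W.1 x) n))))
    (W : Pt S.q) : ¬ P W := by
  intro hW
  have hx : Ext (eqv x) := fun y z => by
    rw [inf_comm]
    exact eqv_trans x y z
  obtain ⟨A0, hA0⟩ := exists_rs_code (S := S) hx
  choose A hA using fun n : ℕ => exists_rs (S := S) fun W z =>
    ∃ s ∈ cells n, ∃ b ∈ (Finset.univ : Finset Bool), W.1.In (inC x (s ++ [b])) ∧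
      inJ z (s ++ [!b])
  have e1 : ∀ n (V : Pt S.q) (z : S.KK V), (∃ s ∈ cells n, ∃ b ∈ (Finset.univ : Finset Bool),
      V.1.In (inC x (s ++ [b])) ∧ inJ z (s ++ [!b])) ↔
      inJ z (br (bits V.1 x) n ++ [!bits V.1 x n]) := by
    intro n V z
    refine ⟨fun ⟨s, hs, b, _, h1, h2⟩ => ?_, fun h1 => ⟨_, mem_cells.2 (br_length _ n), _,
      Finset.mem_univ _, in_inC_br V.1 x (n + 1), h1⟩⟩
    rw [in_inC, concat_eq_br, mem_cells.1 hs] at h1
    rwa [h1.1, h1.2] at h2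
  have e2 : ∀ n (V : Pt S.q), cl V.1 (A n) = cl V.1 (cell (br (bits V.1 x) n ++ [!bits V.1 x n])) :=
    fun n V => (hA n).congr (hc _) (e1 n V)
  have e3 : ∀ V : Pt S.q, Mem V.1 (cl V.1 A0) (cl V.1 Bo) ∧
      ev (S.ctx V) (cl V.1 μ) (cl V.1 A0) = 0 := by
    intro V
    by_cases h1 : ∃ z, codeP S (eqv x) V z
    · obtain ⟨_, z, rfl, hz⟩ := h1
      have h2 := (hμ V).2.2.2.1 (rv S z V).1 (cl V.1 A0) (rv S z V).2 fun y => by
        rw [hA0, or_self]
        refine ⟨fun ⟨h3, z', h4, h5⟩ => ?_, ?_⟩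
        · rw [← val_of_mem (h := S.ctx V) h3, ← h4, code_inj (V.1.mono (eqv_trans _ x _)
            (V.1.inf (eqv_comm x _ ▸ h5) hz))]
        · rintro rfl
          exact ⟨(rv S z V).2, z, (val_coe _).symm, hz⟩
      exact ⟨((hμ V).1.app_mem h2).1, (K.ext (ev_of_app (hμ V).1 h2)).symm⟩
    · exact mu_emp hBo hμ hA0 fun z hz => h1 ⟨z, hz⟩
  have e4 : ∀ n (V : Pt S.q) (z : S.KK V), codeP S (eqv x) V z →
      ¬ inJ z (br (bits V.1 x) n ++ [!bits V.1 x n]) := by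
    rintro n V _ ⟨z, rfl, hz⟩ h1
    exact inJ_disj (in_code.1 (V.1.mono (ext_inC _ _ _)
      (V.1.inf hz (in_inC_br V.1 x (n + 1))))) h1
  have e5 : ∀ n m (V : Pt S.q) (z : S.KK V), n < m → inJ z (br (bits V.1 x) n ++ [!bits V.1 x n]) →
      ¬ inJ z (br (bits V.1 x) m ++ [!bits V.1 x m]) := by
    intro n m V z hnm h1 h2
    obtain ⟨t, ht⟩ := br_ext (bits V.1 x) (Nat.succ_le_of_lt hnm)
    rw [ht] at h2
    exact inJ_disj h2.of_append.of_append h1
  have h2 := (mu_sum hBo hμ (A := fun n => Nat.casesOn n A0 A)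
    (Q := fun n => Nat.casesOn n (codeP S (eqv x)) fun n V z =>
      inJ z (br (bits V.1 x) n ++ [!bits V.1 x n]))
    (by
      rintro (_ | n)
      exacts [hA0, (hA n).of_iff (e1 n)])
    (by
      rintro (_ | n) V
      exacts [(e3 V).1, e2 n V ▸ cell_mem hBo hμ hc _ V]) rs_R (fun _ _ _ _ => trivial)
    (fun z => by
      filter_upwards [gen_iSup fun n => ((x n ⇨ code S z n) ⊓ (code S z n ⇨ x n))ᶜ] with V h1 _
      by_cases h2 : V.1.In (eqv x (code S z))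
      · exact ⟨0, z, rfl, h2⟩
      · rw [← V.1.compl_iff, eqv, compl_iInf] at h2
        have h3 : ∃ n, bits V.1 x n ≠ bits V.1 (code S z) n := by
          obtain ⟨n, hn⟩ := h1 h2
          refine ⟨n, fun e => V.1.compl_iff.1 hn ?_⟩
          rw [V.1.inf_iff, V.1.himp_iff, V.1.himp_iff, ← bits_true, ← bits_true, e]
          exact ⟨id, id⟩
        classical
        refine ⟨Nat.find h3 + 1, ?_⟩
        have h4 := inJ_br z V (Nat.find h3 + 1)
        rw [br_succ, ← br_congr fun m hm => not_not.1 (Nat.find_min h3 hm),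
          Bool.eq_not_of_ne (Nat.find_spec h3).symm] at h4
        exact h4)
    (by
      rintro (_ | n) (_ | m) V z h1 h2
      · rfl
      · exact (e4 m V z h1 h2).elim
      · exact (e4 n V z h2 h1).elim
      · rcases lt_trichotomy n m with h3 | h3 | h3
        · exact (e5 n m V z h3 h1 h2).elim
        · rw [h3]
        · exact (e5 m n V z h3 h2 h1).elim)).2 (fun V => 1 - (ε : S.KK V)) P ?_ W hW
  · rw [mu_R hμ] at h2
    have : (0 : S.KK W) < ε := by exact_mod_cast hε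
    linarith
  intro N V hV
  have e6 : ∀ N, ∑ n ∈ Finset.range N, ev (S.ctx V) (cl V.1 μ) (cl V.1 (A n)) =
      1 - ev (S.ctx V) (cl V.1 μ) (cl V.1 (cell (br (bits V.1 x) N))) := by
    intro N
    induction N with
    | zero => rw [Finset.sum_range_zero, br, mu_nil hμ hc, sub_self]
    | succ N ih =>
      rw [Finset.sum_range_succ, ih, e2, mu_add hBo hμ hc (br (bits V.1 x) N), br_succ]
      cases bits V.1 x N
      · simp only [Bool.not_false]
        ring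
      · simp only [Bool.not_true]
        ring
  rcases N with _ | N
  · have := h V hV 0
    rw [br, mu_nil hμ hc] at this
    rw [Finset.sum_range_zero]
    linarith
  · rw [Finset.sum_range_succ']
    have := h V hV N
    show ∑ n ∈ Finset.range N, ev (S.ctx V) (cl V.1 μ) (cl V.1 (A n)) +
      ev (S.ctx V) (cl V.1 μ) (cl V.1 A0) ≤ _
    rw [e6, (e3 V).2]
    linarith

theorem mu_atomless {ε : ℚ} (hε : 0 < ε) : S.q ≤ ⨆ n, ⨅ s : List Bool, ⨅ _ : s.length = n,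
    tv fun W : Pt S.q => ev (S.ctx W) (cl W.1 μ) (cl W.1 (cell s)) ≤ ε := by
  let F : ℕ → List Bool → B := fun n s => (cells n).sup fun t =>
    tv fun W : Pt S.q => (ε : S.KK W) < ev (S.ctx W) (cl W.1 μ) (cl W.1 (cell (s ++ t)))
  have hF : ∀ n s (W : Pt S.q), W.1.In (F n s) ↔ ∃ t : List Bool, t.length = n ∧
      (ε : S.KK W) < ev (S.ctx W) (cl W.1 μ) (cl W.1 (cell (s ++ t))) := fun n s W => by
    simp only [F, in_finset_sup, in_tv, mem_cells]
  obtain ⟨x, hx⟩ := konig (fun s => S.q ⊓ ⨅ n, F n s) fun s => by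
    rw [← inf_sup_left]
    refine le_inf inf_le_left ?_
    rw [iInf_sup_eq]
    refine le_iInf fun n => ?_
    rw [sup_iInf_eq]
    refine le_iInf fun m => inf_le_of fun W hW => ?_
    obtain ⟨t, ht, h1⟩ := (hF _ _ W).1 (W.1.iInf_elim hW (max n m + 1))
    obtain ⟨b, t, rfl⟩ : ∃ b t', t = b :: t' := by
      cases t with
      | nil => simp at ht
      | cons b t => exact ⟨b, t, rfl⟩
    have h2 : t.length = max n m := by simpa using ht
    have h3 : ∀ k ≤ t.length, W.1.In (F k (s ++ [b])) := fun k hk =>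
      (hF _ _ W).2 ⟨t.take k, List.length_take_of_le hk, h1.trans_le (by
        have := mu_anti hBo hμ hc (s ++ [b] ++ t.take k) (t.drop k) W
        rwa [List.append_assoc, List.take_append_drop, List.append_assoc] at this)⟩
    rw [W.1.sup_iff]
    cases b
    · exact Or.inl (h3 n (h2 ▸ le_max_left _ _))
    · exact Or.inr (h3 m (h2 ▸ le_max_right _ _))
  have h1 := mu_branch hBo hμ hc x hε (fun W => W.1.In (⨅ n, F n [])) fun W hW n => by
    obtain ⟨t, ht, h1⟩ := (hF _ _ W).1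
      (W.1.iInf_elim (W.1.inf_iff.1 (hx W.1 (W.1.inf W.2 hW) n)).2 0)
    rwa [List.length_eq_zero_iff.1 ht, List.append_nil] at h1
  refine q_le_of fun W => ?_
  have h2 := W.1.compl_iff.2 (h1 W)
  rw [compl_iInf] at h2
  refine W.1.iSup_elim h2 W.2 fun n V h3 h4 => V.iSup_intro n ?_
  refine Pt.of_le (le_iInf₂ fun s hs => inf_le_of fun V' h5 => (in_tv _ V').2 ?_) ⟨V, h3⟩ h4
  exact not_lt.1 fun h6 => V'.1.compl_iff.1 h5 ((hF _ _ V').2 ⟨s, hs, h6⟩)

theorem mu_cov {p : B} {ε : ℚ} {w : List Bool × ℚ → B} (h : IsCov p (fun s r =>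
    tv fun W : Pt S.q => ev (S.ctx W) (cl W.1 μ) (cl W.1 (cell s)) ≤ r) ε w)
    (hU : Rs S U (codeP S (cov w))) (W : Pt S.q) :
    Mem W.1 (cl W.1 U) (cl W.1 Bo) ∧ (W.1.In p → ev (S.ctx W) (cl W.1 μ) (cl W.1 U) ≤ ε) := by
  classical
  obtain ⟨_⟩ := nonempty_denumerable (List Bool)
  let e : ℕ ≃ List Bool := (Denumerable.eqv (List Bool)).symm
  let v : List Bool → B := fun s => ⨆ r, w (s, r)
  let P : List Bool → Pt S.q → Prop := fun s W =>
    W.1.In (v s) ∧ ∀ k ∈ Finset.range s.length, ¬ W.1.In (v (s.take k))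
  have hP : ∀ s, Cl (P s) := fun s => by unfold P; infer_instance
  choose A hA using fun n : ℕ => exists_rs (S := S) fun W z => P (e n) W ∧ inJ z (e n)
  have e1 : ∀ n (V : Pt S.q), P (e n) V → cl V.1 (A n) = cl V.1 (cell (e n)) := fun n V hV =>
    (hA n).congr (hc _) fun _ => and_iff_right hV
  have e2 := fun n (V : Pt S.q) (hV : ¬ P (e n) V) =>
    mu_emp hBo hμ (W := V) (hA n) fun _ h => hV h.1
  have e3 : ∀ n (V : Pt S.q), Mem V.1 (cl V.1 (A n)) (cl V.1 Bo) := fun n V => by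
    by_cases hV : P (e n) V
    · exact e1 n V hV ▸ cell_mem hBo hμ hc _ V
    · exact (e2 n V hV).1
  have e4 : ∀ n (V : Pt S.q) (z : S.KK V), P (e n) V ∧ inJ z (e n) → codeP S (cov w) V z := by
    intro n V z hz
    obtain ⟨z, rfl⟩ := K_surj z
    refine ⟨z, rfl, V.1.mono ?_ (V.1.inf hz.1.1 (in_code.2 hz.2))⟩
    rw [iSup_inf_eq]
    exact iSup_le fun r => le_iSup (fun t => w t ⊓ inC (code S z) t.1) (e n, r)
  have e5 : ∀ z : Name B, ∀ᶠ V in gen S.q, codeP S (cov w) V (rv S z V) →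
      ∃ n, P (e n) V ∧ inJ (rv S z V) (e n) := by
    intro z
    filter_upwards [gen_iSup fun t => w t ⊓ inC (code S z) t.1] with V h1 h2
    obtain ⟨t, ht⟩ := h1 ((codeP_iff (ext_cov w)).1 h2)
    rw [V.1.inf_iff, in_code] at ht
    have h3 : ∃ k, V.1.In (v (t.1.take k)) :=
      ⟨t.1.length, by rw [List.take_length]; exact V.1.iSup_intro t.2 ht.1⟩
    refine ⟨e.symm (t.1.take (Nat.find h3)), ?_⟩
    rw [e.apply_symm_apply]
    refine ⟨⟨Nat.find_spec h3, fun k hk => ?_⟩, inJ.of_append (t := t.1.drop (Nat.find h3)) ?_⟩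
    · have h4 : k < Nat.find h3 := (Finset.mem_range.1 hk).trans_le (List.length_take_le _ _)
      rw [List.take_take, min_eq_left h4.le]
      exact Nat.find_min h3 h4
    · rw [List.take_append_drop]
      exact ht.2
  have e6 : ∀ (s t : List Bool) (V : Pt S.q) (z : S.KK V), s.length ≤ t.length →
      P s V ∧ inJ z s → P t V ∧ inJ z t → s = t := by
    intro s t V z h1 h2 h3
    obtain ⟨u, rfl⟩ := inJ_unique h2.2 h3.2 h1
    rcases h1.lt_or_eq with h4 | h4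
    · exact (h3.1.2 _ (Finset.mem_range.2 h4) (by rw [List.take_left]; exact h2.1.1)).elim
    · have : u = [] := by simpa using h4
      rw [this, List.append_nil]
  refine ⟨un_mem hBo hA e3 hU e4 e5 W, (mu_sum hBo hμ hA e3 hU e4 e5 fun n m V z h1 h2 =>
    e.injective ((le_total _ _).elim (fun h3 => e6 _ _ V z h3 h1 h2)
      fun h3 => (e6 _ _ V z h3 h2 h1).symm)).2 (fun V => (ε : S.KK V)) (fun V => V.1.In p)
    (fun N => of_gen _ ?_) W⟩
  filter_upwards [(Finset.range N).eventually_all.2 fun n _ =>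
    gen_iSup (q := S.q) fun r => w (e n, r)] with V h1 h2
  have h3 : ∀ n, ∃ r : ℚ, n ∈ (Finset.range N).filter (fun n => P (e n) V) →
      V.1.In (w (e n, r)) := fun n => by
    by_cases hn : n ∈ (Finset.range N).filter fun n => P (e n) V
    · rw [Finset.mem_filter] at hn
      exact (h1 n hn.1 hn.2.1).imp fun _ h _ => h
    · exact ⟨0, fun h => (hn h).elim⟩
  choose r hr using h3
  have h4 := h.cost (((Finset.range N).filter fun n => P (e n) V).image fun n => (e n, r n))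
    (V.1.ne_bot (V.1.inf h2 (in_finset_inf.2 (Finset.forall_mem_image.2 fun n hn => hr n hn))))
  rw [Finset.sum_image fun n _ m _ h => e.injective (congrArg Prod.fst h)] at h4
  rw [← Finset.sum_filter_of_ne (p := fun n => P (e n) V) fun n _ h5 => by
    by_contra h6
    exact h5 (e2 n V h6).2]
  refine le_trans (Finset.sum_le_sum fun n hn => ?_) (by exact_mod_cast h4 :
    ∑ n ∈ (Finset.range N).filter fun n => P (e n) V, (r n : S.KK V) ≤ ε)
  rw [e1 n V (Finset.mem_filter.1 hn).2]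
  exact (in_tv _ V).1 (V.1.mono (h.valid (e n, r n)) (V.1.inf h2 (hr n hn)))

end Un

theorem exists_m (S : Base B) (Bo μ : Name B)
    (hBo : ∀ W : Pt S.q, IsBorel (Mem W.1) (clF W.1 S.N) (cl W.1 omN) (cl W.1 Bo))
    (hμ : ∀ W : Pt S.q, IsProb (Mem W.1) (clF W.1 S.N) (cl W.1 omN) (cl W.1 Bo) (cl W.1 μ)) :
    ∃ m, IsMeas S.q m ∧ ∀ (p : B) (ε : ℚ) (w : List Bool × ℚ → B), p ≤ S.q → IsCov p m ε w →
      ∃ A : Name B, ∀ W : Pt S.q, W.1.In p →
        (∃ t : S.KK W, App (Mem W.1) (cl W.1 μ) (cl W.1 A) t.1 ∧ t ≤ ε) ∧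
        ∀ z : Name B, Mem W.1 (cl W.1 z) (clF W.1 S.N).R → W.1.In (cov w (code S z)) →
          Mem W.1 (cl W.1 z) (cl W.1 A) := by
  choose cell hc using fun s : List Bool => exists_rs (S := S) fun _ z => inJ z s
  refine ⟨fun s r => tv fun W : Pt S.q => ev (S.ctx W) (cl W.1 μ) (cl W.1 (cell s)) ≤ r,
    ⟨fun s a b h => inf_le_of fun W hW => ?_, fun s a => inf_le_of fun W hW => ?_,
      fun s a h => le_bot_iff.1 (inf_le_of fun W hW => ?_), fun s => q_le_of fun W => ?_,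
      fun {a} h => le_bot_iff.1 (inf_le_of fun W hW => ?_), fun s a b => ?_,
      fun s a b => inf_le_of fun W hW => ?_, fun ε hε => mu_atomless hBo hμ hc hε⟩,
    fun p ε w _ h => ?_⟩
  · rw [in_tv] at hW ⊢
    exact hW.trans (by exact_mod_cast h)
  · rw [in_tv]
    refine le_of_eps (fun V => ev (S.ctx V) (cl V.1 μ) (cl V.1 (cell s))) (fun V => (a : S.KK V))
      (fun V => V.1.In (⨅ b, ⨅ _ : a < b, tv fun W : Pt S.q => ev (S.ctx W) (cl W.1 μ) (cl W.1 (cell s)) ≤ (b : ℚ)))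
      (fun ε hε => Eventually.of_forall fun V hV => ?_) W hW
    have := (in_tv _ V).1 (V.1.iInf_elim (V.1.iInf_elim hV (a + ε)) (by linarith))
    exact_mod_cast this
  · rw [in_tv] at hW
    have h1 : ((a : ℚ) : S.KK W) < 0 := by exact_mod_cast h
    exact (((mu_nonneg hμ (cell_mem hBo hμ hc s W)).trans hW).not_gt h1).elim
  · rw [in_tv]
    have := mu_anti hBo hμ hc [] s W
    rw [mu_nil hμ hc, List.nil_append] at this
    exact_mod_cast this
  · rw [in_tv, mu_nil hμ hc] at hW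
    have h1 : ((a : ℚ) : S.KK W) < 1 := by exact_mod_cast h
    exact (hW.not_gt h1).elim
  · rw [inf_assoc]
    refine inf_le_of fun W hW => ?_
    rw [W.1.inf_iff, in_tv, in_tv] at hW
    rw [in_tv, mu_add hBo hμ hc s, Rat.cast_add]
    exact add_le_add hW.1 hW.2
  · rw [in_tv, mu_add hBo hμ hc s, Rat.cast_add] at hW
    rw [W.1.sup_iff, in_tv, in_tv]
    by_contra h1
    rw [not_or, not_le, not_le] at h1
    linarith [h1.1, h1.2]
  · obtain ⟨A, hA⟩ := exists_rs_code (S := S) (ext_cov w)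
    refine ⟨A, fun W hW => ?_⟩
    obtain ⟨h1, h2⟩ := mu_cov hBo hμ hc h hA W
    exact ⟨⟨_, app_ev (hμ W).1 h1, h2 hW⟩, fun z h3 h4 => (hA W _).2 ⟨h3, z, rfl, h4⟩⟩

end Pool.Agent.Lib.MP_f79ffc_lc.St
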