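import Pool.Agent.Lib.MP_f79ffc_lc.U.M.Card
import Pool.Agent.Lib.MP_f79ffc_lc.U.M.Leb
import Pool.Agent.Lib.MP_f79ffc_lc.U.M.Mu
import Pool.Agent.Lib.MP_f79ffc_lc.U.M.Car

/-!
From the Boolean valued statements to the statement about the quotient model.
-/

namespace Pool.Agent.Lib.MP_f79ffc_lc.St

open Pool.Agent.Lib.MP_5d9fac_lc Pool.Agent.Lib.MP_c1e359_an Pool.Agent.Lib.MP_f79ffc_lc.U Filter

variable {B : Type} [CompleteBooleanAlgebra B]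

namespace Bri

theorem clopen_of_cl (P : Ult B → Prop) [h : Cl fun W : Pt (⊤ : B) => P W.1] : Clopen P := by
  obtain ⟨b, hb⟩ := h.ex_val
  exact ⟨b, fun U => hb ⟨U, U.top⟩⟩

set_option synthInstance.maxSize 4096 in
instance clComm {q : B} (a b c : ∀ W : Pt q, Mod W.1) [RepM a] [RepM b] [RepM c] :
    Cl fun W => IsCommOp (Mem W.1) (a W) (b W) (c W) := by
  unfold IsCommOp IsProd; infer_instance

set_option synthInstance.maxSize 4096 in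
instance clReals {q : B} (N : RF (Name B)) : Cl fun W : Pt q => IsReals (Mem W.1) (clF W.1 N) := by
  unfold IsReals Ne; infer_instance

/-- the set of branches of the members of `Z` -/
noncomputable def XN (S : Base B) (Z : Name B) (x : ℕ → B) : B :=
  ⨆ z : Name B, Name.bmem z Z ⊓ eqv x (code S z)

theorem ext_XN (S : Base B) (Z : Name B) : Ext (XN S Z) := fun x y => by
  rw [XN, inf_iSup_eq]
  refine iSup_mono fun z => ?_
  rw [inf_left_comm, eqv_comm x y]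
  exact inf_le_inf_left _ (eqv_trans _ _ _)

theorem unb_XN (S : Base B) (Bo : Name B)
    (hBo : ∀ W : Pt S.q, IsBorel (Mem W.1) (clF W.1 S.N) (cl W.1 omN) (cl W.1 Bo)) (Z : Name B)
    (hZ : ∀ W : Pt S.q, UnivNull (Mem W.1) (clF W.1 S.N) (cl W.1 omN) (cl W.1 Bo) (cl W.1 Z)) :
    UNb S.q (XN S Z) := by
  intro p hp m hm ε hε
  obtain ⟨μ, h1, h2⟩ := exists_mu (res S hp) Bo (fun W => hBo ⟨W.1, W.1.mono hp W.2⟩) m hm
  obtain ⟨A, hA⟩ := maxp fun (W : Pt (res S hp).q) A => Sub (Mem W.1) (cl W.1 Z) A ∧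
    ∃ t : (res S hp).KK W, App (Mem W.1) (cl W.1 μ) A t.1 ∧ t ≤ (ε / 3 : ℚ)
  replace hA := fun W : Pt (res S hp).q => hA W (by
    obtain ⟨A, t, e1, e2, e3⟩ := (hZ ⟨W.1, W.1.mono hp W.2⟩).2 _ (h1 W)
      ((ε / 3 : ℚ) : (res S hp).KK W).1 (pos_iff.2 (Rat.cast_pos.2 (by positivity)))
    exact ⟨A, e1, ⟨t, ((h1 W).1.app_mem e2).2⟩, e2, e3⟩)
  obtain ⟨w, h3, h4⟩ := h2 A (ε / 3) (by positivity) fun W => (hA W).2
  rw [mul_div_cancel₀ ε (by norm_num)] at h3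
  refine ⟨w, h3, fun x => ?_⟩
  rw [XN, inf_iSup_eq]
  refine iSup_le fun z => le_trans (le_inf ?_ ?_) (ext_cov w (code (res S hp) z) x)
  · rw [eqv_comm _ x]
    exact (le_inf (inf_le_right.trans inf_le_right) (inf_le_left.trans (code_res hp z))).trans
      (eqv_trans _ _ _)
  · refine le_trans (le_inf inf_le_left ((inf_le_inf_left _ inf_le_left).trans ?_)) (h4 z)
    exact inf_le_of fun W h => (hA W).1 (cl W.1 z) h

variable {ι : Type}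

theorem gen_cover (hB : BigAdd B ι) (S : Base B) (Bo : Name B)
    (hBo : ∀ W : Pt S.q, IsBorel (Mem W.1) (clF W.1 S.N) (cl W.1 omN) (cl W.1 Bo))
    (Z : ι → Name B)
    (hZ : ∀ i (W : Pt S.q),
      UnivNull (Mem W.1) (clF W.1 S.N) (cl W.1 omN) (cl W.1 Bo) (cl W.1 (Z i)))
    (V : Name B) (hV : ∀ W : Pt S.q, Sub (Mem W.1) (cl W.1 V) (clF W.1 S.N).R)
    (hc : ∀ z, S.q ⊓ Name.bmem z V ≤ ⨆ i, Name.bmem z (Z i)) (μ : Name B) {ε : ℚ} (hε : 0 < ε) :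
    ∀ᶠ W in gen S.q, IsProb (Mem W.1) (clF W.1 S.N) (cl W.1 omN) (cl W.1 Bo) (cl W.1 μ) →
      ∃ A, Sub (Mem W.1) (cl W.1 V) A ∧
        ∃ t : S.KK W, App (Mem W.1) (cl W.1 μ) A t.1 ∧ t ≤ ε := by
  obtain ⟨c, hc'⟩ := (inferInstance : Cl fun W : Pt S.q =>
    IsProb (Mem W.1) (clF W.1 S.N) (cl W.1 omN) (cl W.1 Bo) (cl W.1 μ)).ex_val
  refine gen_iff.2 fun W0 b hb => ?_
  by_cases h0 : W0.1.In c
  swap
  · exact ⟨W0, b ⊓ cᶜ, W0.1.inf hb (W0.1.compl_iff.2 h0), inf_le_left, fun W hW h =>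
      (W.1.compl_iff.1 (W.1.inf_iff.1 hW).2 ((hc' W).1 h)).elim⟩
  have hp : S.q ⊓ (b ⊓ c) ≤ S.q := inf_le_left
  obtain ⟨m, h1, h2⟩ := exists_m (res S hp) Bo μ (fun W => hBo ⟨W.1, W.1.mono hp W.2⟩) fun W =>
    (hc' ⟨W.1, W.1.mono hp W.2⟩).2 (W.1.mono (inf_le_right.trans inf_le_right) W.2)
  obtain ⟨p, h3, h4, w, h5, h6⟩ := hB (fun i => XN S (Z i)) _
    (W0.1.ne_bot (W0.1.inf W0.2 (W0.1.inf hb h0))) (fun i => ext_XN S _)
    (fun i => (unb_XN S Bo hBo _ (hZ i)).anti hp) m h1 ε hε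
  obtain ⟨A, hA⟩ := h2 p ε w h3 h5
  obtain ⟨W1, hW1⟩ := Ult.exists_of_ne_bot h4
  refine ⟨⟨W1, W1.mono (h3.trans hp) hW1⟩, p, hW1, h3.trans (inf_le_right.trans inf_le_left),
    fun W hW _ => ?_⟩
  obtain ⟨e1, e2⟩ := hA ⟨W.1, W.1.mono h3 hW⟩ hW
  refine ⟨cl W.1 A, fun z hz => ?_, e1⟩
  obtain ⟨z, rfl⟩ := cl_surj W.1 z
  refine e2 z (hV W _ hz) (W.1.mono ?_ (W.1.inf hW hz))
  refine le_trans (le_inf (inf_le_left.trans (h3.trans (code_res hp z))) ?_) (ext_cov w _ _)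
  refine le_trans (le_inf inf_le_left ((inf_le_inf_right _ (h3.trans hp)).trans (hc z))) ?_
  rw [inf_iSup_eq]
  refine iSup_le fun i => le_trans (inf_le_inf_left _ ?_) (h6 i _)
  exact le_iSup_of_le z (by rw [eqv_refl, inf_top_eq])

theorem un_of_big (hB : BigAdd B ι) (S : Base B) (Bo : Name B)
    (hBo : ∀ W : Pt S.q, IsBorel (Mem W.1) (clF W.1 S.N) (cl W.1 omN) (cl W.1 Bo))
    (Z : ι → Name B)
    (hZ : ∀ i (W : Pt S.q),
      UnivNull (Mem W.1) (clF W.1 S.N) (cl W.1 omN) (cl W.1 Bo) (cl W.1 (Z i)))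
    (V : Name B) (hV : ∀ W : Pt S.q, Sub (Mem W.1) (cl W.1 V) (clF W.1 S.N).R)
    (hc : ∀ z, S.q ⊓ Name.bmem z V ≤ ⨆ i, Name.bmem z (Z i)) (W : Pt S.q) :
    UnivNull (Mem W.1) (clF W.1 S.N) (cl W.1 omN) (cl W.1 Bo) (cl W.1 V) := by
  refine ⟨hV W, fun μ hμ e he => ?_⟩
  obtain ⟨μ, rfl⟩ := cl_surj W.1 μ
  obtain ⟨e, rfl⟩ := cl_surj W.1 e
  refine of_gen (fun W : Pt S.q =>
    IsProb (Mem W.1) (clF W.1 S.N) (cl W.1 omN) (cl W.1 Bo) (cl W.1 μ) →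
    Pos (Mem W.1) (clF W.1 S.N) (cl W.1 e) → ∃ A t, Sub (Mem W.1) (cl W.1 V) A ∧
      App (Mem W.1) (cl W.1 μ) A t ∧ App (Mem W.1) (clF W.1 S.N).le t (cl W.1 e)) ?_ W hμ he
  have h1 : ∀ᶠ W in gen S.q, 0 < rv S e W → ∃ ε : {ε : ℚ // 0 < ε}, (ε.1 : S.KK W) ≤ rv S e W := by
    filter_upwards [gen_pos (rv S e)] with W h h'
    obtain ⟨ε, h2, h3⟩ := h h'
    exact ⟨⟨ε, h2⟩, h3⟩
  filter_upwards [gen_bind h1 fun ε => gen_cover hB S Bo hBo Z hZ V hV hc μ ε.2] with W h hμ he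
  have h2 : (rv S e W).1 = cl W.1 e := val_of_mem he.1
  obtain ⟨ε, h3, h4⟩ := h (pos_iff.1 (h2 ▸ he))
  obtain ⟨A, h5, t, h6, h7⟩ := h4 hμ
  exact ⟨A, t.1, h5, h6, h2 ▸ K.le_iff.1 (h7.trans h3)⟩

open Classical in
/-- the coin tossing measure -/
noncomputable def coin (B : Type) [CompleteBooleanAlgebra B] (s : List Bool) (r : ℚ) : B :=
  if (1 / 2 : ℚ) ^ s.length ≤ r then ⊤ else ⊥

theorem coin_top {s : List Bool} {r : ℚ} (h : (1 / 2 : ℚ) ^ s.length ≤ r) : coin B s r = ⊤ :=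
  if_pos h

theorem coin_bot {s : List Bool} {r : ℚ} (h : r < (1 / 2 : ℚ) ^ s.length) : coin B s r = ⊥ :=
  if_neg (not_le.2 h)

theorem isMeas_coin (p : B) : IsMeas p (coin B) := by
  have hl : ∀ (s : List Bool) (c : Bool),
      (1 / 2 : ℚ) ^ (s ++ [c]).length = (1 / 2 : ℚ) ^ s.length / 2 := fun s c => by
    rw [List.length_append, List.length_singleton, pow_succ]
    ring
  refine ⟨fun s a b h => ?_, fun s a => ?_, fun s a h => ?_, fun s => ?_, fun {a} h => ?_,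
    fun s a b => ?_, fun s a b => ?_, fun ε hε => ?_⟩
  · rcases le_or_gt ((1 / 2 : ℚ) ^ s.length) a with h1 | h1
    · simp [coin_top (h1.trans h)]
    · simp [coin_bot h1]
  · rcases le_or_gt ((1 / 2 : ℚ) ^ s.length) a with h1 | h1
    · simp [coin_top h1]
    · obtain ⟨b, h2, h3⟩ := exists_between h1
      exact inf_le_right.trans ((iInf₂_le b h2).trans (by simp [coin_bot h3]))
  · rw [coin_bot (h.trans (by positivity)), inf_bot_eq]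
  · rw [coin_top (pow_le_one₀ (by norm_num) (by norm_num))]
    exact le_top
  · rw [coin_bot (by simpa using h), inf_bot_eq]
  · rcases le_or_gt ((1 / 2 : ℚ) ^ (s ++ [false]).length) a with h1 | h1
    · rcases le_or_gt ((1 / 2 : ℚ) ^ (s ++ [true]).length) b with h2 | h2
      · rw [hl] at h1 h2
        rw [coin_top (s := s) (by linarith)]
        exact le_top
      · simp [coin_bot h2]
    · simp [coin_bot h1]
  · rcases le_or_gt ((1 / 2 : ℚ) ^ (s ++ [false]).length) a with h1 | h1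
    · simp [coin_top h1]
    · rcases le_or_gt ((1 / 2 : ℚ) ^ (s ++ [true]).length) b with h2 | h2
      · simp [coin_top h2]
      · rw [hl] at h1 h2
        rw [coin_bot (s := s) (by linarith), inf_bot_eq]
        exact bot_le
  · obtain ⟨n, hn⟩ := exists_pow_lt_of_lt_one hε (by norm_num : (1 / 2 : ℚ) < 1)
    refine le_iSup_of_le n (le_iInf₂ fun s hs => ?_)
    rw [coin_top (hs ▸ hn.le)]
    exact le_top

theorem not_un (S : Base B) (Bo : Name B)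
    (hBo : ∀ W : Pt S.q, IsBorel (Mem W.1) (clF W.1 S.N) (cl W.1 omN) (cl W.1 Bo)) (W : Pt S.q) :
    ¬ UnivNull (Mem W.1) (clF W.1 S.N) (cl W.1 omN) (cl W.1 Bo) (clF W.1 S.N).R := by
  intro h
  obtain ⟨μ, h1, -⟩ := exists_mu S Bo hBo _ (isMeas_coin S.q)
  obtain ⟨A, t, e1, e2, e3⟩ := h.2 _ (h1 W) (1 / 2 : S.KK W).1 (pos_iff.2 (by norm_num))
  obtain rfl : A = (clF W.1 S.N).R := mod_ext _ _ _ fun x =>
    ⟨(hBo W).1.1 A ((h1 W).1.app_mem e2).1 x, e1 x⟩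
  rw [(h1 W).1.app_unique e2 (h1 W).2.2.1] at e3
  have : (1 : S.KK W) ≤ 1 / 2 := e3
  norm_num at this

theorem fam_sing (S : Base B) (Bo : Name B) (W : Pt S.q) : ∃ G,
    (∀ A, Mem W.1 A G → UnivNull (Mem W.1) (clF W.1 S.N) (cl W.1 omN) (cl W.1 Bo) A) ∧
      IsUn (Mem W.1) (clF W.1 S.N).R G := by
  obtain ⟨G, hG⟩ := exists_sep (fun (W : Pt S.q) A => ∃ x, Mem W.1 x (clF W.1 S.N).R ∧
    IsUPair (Mem W.1) A x x) (powN S.N.R)
  refine ⟨cl W.1 G, fun A hA => ?_, fun x => ⟨fun hx => ?_, fun ⟨A, h1, h2⟩ => ?_⟩⟩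
  · obtain ⟨h1, x, h2, h3⟩ := (hG W A).1 hA
    exact ⟨(isPow_powN _ _ A).1 h1, fun μ hμ e he =>
      ⟨A, _, fun _ h => h, hμ.2.2.2.1 x A h2 h3, he.2.1⟩⟩
  · obtain ⟨A, hA⟩ := mod_pair W.1 x x
    refine ⟨A, (hG W A).2 ⟨(isPow_powN _ _ A).2 fun y hy => ?_, x, hx, hA⟩, (hA x).2 (Or.inl rfl)⟩
    rw [((hA y).1 hy).elim id id]
    exact hx
  · exact (isPow_powN _ _ A).1 ((hG W A).1 h1).1 x h2

theorem exists_oseq {q : B} {o : Ordinal.{0}} (y : o.ToType → Name B) :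
    ∃ f Y : Name B, ∀ W : Pt q, IsFun (Mem W.1) (cl W.1 f) (cl W.1 (ordN o)) (cl W.1 Y) ∧
      ∀ n, App (Mem W.1) (cl W.1 f) (cl W.1 (oN n)) (cl W.1 (y n)) := by
  let f : Name B := Name.mk o.ToType (fun n => opairN (oN n) (y n)) fun _ => ⊤
  have e1 : ∀ (W : Pt q) n, App (Mem W.1) (cl W.1 f) (cl W.1 (oN n)) (cl W.1 (y n)) :=
    fun W n => ⟨_, isOPair_opairN _ _ _,
      mem_mk (A := fun n : o.ToType => opairN (oN n) (y n)) n W.1.top⟩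
  refine ⟨f, Name.mk o.ToType y fun _ => ⊤, fun W => ⟨⟨?_, ?_⟩, e1 W⟩⟩
  · refine mk_ind (fun W p => ∃ x z, Mem W.1 x (cl W.1 (ordN o)) ∧
      Mem W.1 z (cl W.1 (Name.mk o.ToType y fun _ => ⊤)) ∧ IsOPair (Mem W.1) p x z)
      (fun i W _ => ?_) W
    exact ⟨_, _, oN_mem i _, mem_mk (A := y) i W.1.top, isOPair_opairN _ _ _⟩
  · refine (ixO q o).ind (fun W x => ∃! z, App (Mem W.1) (cl W.1 f) x z) (fun i W => ?_) W
    refine ⟨_, e1 W i, ?_⟩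
    rintro z ⟨p, hp1, hp2⟩
    refine mk_ind (fun W p => ∀ z, IsOPair (Mem W.1) p (cl W.1 (oN i)) z → z = cl W.1 (y i))
      (fun j W _ z hz => ?_) W p hp2 z hp1
    obtain ⟨h3, rfl⟩ := opair_inj hz (isOPair_opairN _ _ _)
    rw [oN_inj h3]

theorem small (h : SmallAdd B ι) (S : Base B) {o : Ordinal.{0}} (e : o.ToType ≃ ι) (W : Pt S.q) :
    ∃ g Y V, IsFun (Mem W.1) g (cl W.1 (ordN o)) Y ∧
      (∀ n A, App (Mem W.1) g n A → LebNull (Mem W.1) (clF W.1 S.N) (cl W.1 omN) A) ∧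
      IsUnV (Mem W.1) V g ∧ ¬ LebNull (Mem W.1) (clF W.1 S.N) (cl W.1 omN) V := by
  obtain ⟨N, h1, h2⟩ := leb_family S h
  obtain ⟨g, Y, hg⟩ := exists_oseq (q := S.q) fun n => N (e n)
  obtain ⟨V, hV⟩ := exists_sep (fun (W : Pt S.q) x => ∃ n A, App (Mem W.1) (cl W.1 g) n A ∧
    Mem W.1 x A) S.N.R
  have h3 : ∀ n A, App (Mem W.1) (cl W.1 g) n A →
      LebNull (Mem W.1) (clF W.1 S.N) (cl W.1 omN) A := fun n A hA =>
    (ixO S.q o).ind (fun W n => ∀ A, App (Mem W.1) (cl W.1 g) n A →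
      LebNull (Mem W.1) (clF W.1 S.N) (cl W.1 omN) A) (fun i W A hA => by
        rw [(hg W).1.app_unique hA ((hg W).2 i)]
        exact h1 _ W) W n ((hg W).1.app_mem hA).1 A hA
  refine ⟨_, _, cl W.1 V, (hg W).1, h3, fun x => ?_, h2 V (fun i W x hx => ?_) W⟩
  · rw [hV]
    exact ⟨fun h => h.2, fun ⟨n, A, h4, h5⟩ => ⟨(h3 n A h4).1 x h5, n, A, h4, h5⟩⟩
  · obtain ⟨n, rfl⟩ := e.surjective i
    exact (hV W x).2 ⟨(h1 _ W).1 x hx, _, _, (hg W).2 n, hx⟩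

theorem big (hB : BigAdd B ι) (S : Base B) (Bo : Name B)
    (hBo : ∀ W : Pt S.q, IsBorel (Mem W.1) (clF W.1 S.N) (cl W.1 omN) (cl W.1 Bo))
    {o : Ordinal.{0}} (e : o.ToType ≃ ι) (W : Pt S.q) (g D Y V : Mod W.1)
    (h1 : Sub (Mem W.1) D (cl W.1 (ordN o))) (h2 : IsFun (Mem W.1) g D Y)
    (h3 : ∀ n A, App (Mem W.1) g n A →
      UnivNull (Mem W.1) (clF W.1 S.N) (cl W.1 omN) (cl W.1 Bo) A) (h4 : IsUnV (Mem W.1) V g) :
    UnivNull (Mem W.1) (clF W.1 S.N) (cl W.1 omN) (cl W.1 Bo) V := by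
  obtain ⟨g, rfl⟩ := cl_surj _ g
  obtain ⟨D, rfl⟩ := cl_surj _ D
  obtain ⟨Y, rfl⟩ := cl_surj _ Y
  obtain ⟨V, rfl⟩ := cl_surj _ V
  obtain ⟨c, hc⟩ := (inferInstance : Cl fun W : Pt S.q =>
    Sub (Mem W.1) (cl W.1 D) (cl W.1 (ordN o)) ∧ IsFun (Mem W.1) (cl W.1 g) (cl W.1 D) (cl W.1 Y) ∧
    (∀ n A, App (Mem W.1) (cl W.1 g) n A →
      UnivNull (Mem W.1) (clF W.1 S.N) (cl W.1 omN) (cl W.1 Bo) A) ∧
    IsUnV (Mem W.1) (cl W.1 V) (cl W.1 g)).ex_val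
  have hp : S.q ⊓ c ≤ S.q := inf_le_left
  have H := fun W : Pt (S.q ⊓ c) => (hc ⟨W.1, W.1.mono hp W.2⟩).2 (W.1.mono inf_le_right W.2)
  choose Z hZ using fun n : o.ToType => exists_sep (fun (W : Pt (S.q ⊓ c)) x =>
    ∃ A, App (Mem W.1) (cl W.1 g) (cl W.1 (oN n)) A ∧ Mem W.1 x A) S.N.R
  refine un_of_big hB (res S hp) Bo (fun W => hBo ⟨W.1, W.1.mono hp W.2⟩) (fun i => Z (e.symm i))
    (fun i W => ⟨fun x hx => ((hZ _ W x).1 hx).1, fun μ hμ ε hε => ?_⟩) V (fun W x hx => ?_)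
    (fun z => inf_le_of fun W hz => ?_) ⟨W.1, W.1.inf W.2 ((hc W).1 ⟨h1, h2, h3, h4⟩)⟩
  · by_cases h : ∃ A, App (Mem W.1) (cl W.1 g) (cl W.1 (oN (e.symm i))) A
    · obtain ⟨A, hA⟩ := h
      obtain ⟨C, t, e1, e2⟩ := ((H W).2.2.1 _ A hA).2 μ hμ ε hε
      refine ⟨C, t, fun x hx => e1 x ?_, e2⟩
      obtain ⟨-, A', e3, e4⟩ := (hZ _ W x).1 hx
      rwa [(H W).2.1.app_unique hA e3]
    · obtain ⟨A, hA⟩ := mod_pair W.1 ε ε
      refine ⟨A, _, fun x hx => ?_, hμ.2.2.2.1 ε A hε.1 hA, hε.2.1⟩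
      obtain ⟨-, A', e3, -⟩ := (hZ _ W x).1 hx
      exact (h ⟨A', e3⟩).elim
  · obtain ⟨n, A, e1, e2⟩ := ((H W).2.2.2 x).1 hx
    exact ((H W).2.2.1 n A e1).1 x e2
  · obtain ⟨n, A, e1, e2⟩ := ((H W).2.2.2 (cl W.1 z)).1 hz
    refine (ixO (S.q ⊓ c) o).ind (fun W n => ∀ A, App (Mem W.1) (cl W.1 g) n A →
      Mem W.1 (cl W.1 z) A → W.1.In (⨆ i, Name.bmem z (Z (e.symm i)))) (fun n W A e1 e2 => ?_) W n
      ((H W).1 n ((H W).2.1.app_mem e1).1) A e1 e2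
    refine W.1.iSup_intro (e n) ?_
    rw [e.symm_apply_apply]
    exact (hZ n W (cl W.1 z)).2 ⟨((H W).2.2.1 _ A e1).1 _ e2, A, e1, e2⟩

end Bri

theorem bridge_mod {ι : Type} (h2 : SmallAdd B ι) (h3 : BigAdd B ι) (U : Ult B) :
    ∀ F, IsReals (Mem U) F → ∀ Bo, IsBorel (Mem U) F (cl U (ordN Ordinal.omega0)) Bo →
      ∃ k l, IsAdd (Mem U) (LebNull (Mem U) F (cl U (ordN Ordinal.omega0))) k ∧
        IsAdd (Mem U) (UnivNull (Mem U) F (cl U (ordN Ordinal.omega0)) Bo) l ∧ Mem U k l := by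
  rintro ⟨R, add, mul, le, zero, one⟩ hF Bo hBo
  obtain ⟨R, rfl⟩ := cl_surj U R
  obtain ⟨add, rfl⟩ := cl_surj U add
  obtain ⟨mul, rfl⟩ := cl_surj U mul
  obtain ⟨le, rfl⟩ := cl_surj U le
  obtain ⟨zero, rfl⟩ := cl_surj U zero
  obtain ⟨one, rfl⟩ := cl_surj U one
  obtain ⟨Bo, rfl⟩ := cl_surj U Bo
  let N : RF (Name B) := ⟨R, add, mul, le, zero, one⟩
  obtain ⟨q, hq⟩ := (Bri.clopen_of_cl fun U : Ult B => IsReals (Mem U) (clF U N) ∧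
    IsBorel (Mem U) (clF U N) (cl U omN) (cl U Bo)).ex_val
  let S : Base B := ⟨q, N, fun W => ((hq _).2 W.2).1⟩
  have hS : ∀ W : Pt S.q, IsBorel (Mem W.1) (clF W.1 S.N) (cl W.1 omN) (cl W.1 Bo) :=
    fun W => ((hq _).2 W.2).2
  let W : Pt S.q := ⟨U, (hq U).1 ⟨hF, hBo⟩⟩
  obtain ⟨e⟩ : Nonempty ((Cardinal.mk ι).ord.ToType ≃ ι) :=
    Cardinal.eq.1 (Cardinal.mk_ord_toType _)
  have i1 : ∀ n : Name B, Clopen fun U : Ult B =>
      LebNull (Mem U) (clF U N) (cl U omN) (cl U n) := fun n => Bri.clopen_of_cl _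
  have i2 : ∀ n : Name B, Clopen fun U : Ult B =>
      UnivNull (Mem U) (clF U N) (cl U omN) (cl U Bo) (cl U n) := fun n => Bri.clopen_of_cl _
  obtain ⟨G, h4, h5⟩ := Bri.fam_sing S Bo W
  exact add_lt (fun U => LebNull (Mem U) (clF U N) (cl U omN))
    (fun U => UnivNull (Mem U) (clF U N) (cl U omN) (cl U Bo)) _ U (Bri.small h2 S e W)
    (Bri.big h3 S Bo hS e W) ⟨G, _, h4, h5, Bri.not_un S Bo hS W⟩

theorem bridge (h : GoodAlg) : Goal := by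
  obtain ⟨B, _, ι, h1, h2, h3⟩ := h
  obtain ⟨U, -⟩ := Ult.exists_of_ne_bot h1
  exact ⟨Mod U, Mem U, isZFC_mod U, _, isOmega_omega U, bridge_mod h2 h3 U⟩

end Pool.Agent.Lib.MP_f79ffc_lc.St
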