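import Pool.Agent.Lib.MP_f79ffc_lc.U.M.Kit
import Pool.Agent.Lib.MP_f79ffc_lc.U.M.BDefs

/-!
A tree of half open intervals with rational end points and the coding of reals by branches.
-/

namespace Pool.Agent.Lib.MP_f79ffc_lc.St

open Pool.Agent.Lib.MP_5d9fac_lc Pool.Agent.Lib.MP_c1e359_an Pool.Agent.Lib.MP_f79ffc_lc.U Filter

/-- initial segments of a branch -/
def br (f : ℕ → Bool) : ℕ → List Bool
  | 0 => []
  | n + 1 => br f n ++ [f n]

@[simp] theorem br_length (f : ℕ → Bool) (n : ℕ) : (br f n).length = n := by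
  induction n with
  | zero => rfl
  | succ n ih => simp [br, ih]

theorem br_succ (f : ℕ → Bool) (n : ℕ) : br f (n + 1) = br f n ++ [f n] := rfl

theorem br_ext (f : ℕ → Bool) {n m : ℕ} (h : n ≤ m) : ∃ t, br f m = br f n ++ t := by
  induction m, h using Nat.le_induction with
  | base => exact ⟨[], by simp⟩
  | succ m _ ih =>
    obtain ⟨t, ht⟩ := ih
    exact ⟨t ++ [f m], by rw [br_succ, ht, List.append_assoc]⟩

theorem concat_eq_br {f : ℕ → Bool} {s : List Bool} {c : Bool} :
    s ++ [c] = br f (s ++ [c]).length ↔ s = br f s.length ∧ c = f s.length := by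
  rw [List.length_append, List.length_singleton, br_succ, List.append_singleton_inj]

/-- all cells of one length -/
noncomputable def cells (n : ℕ) : Finset (List Bool) := (List.finite_length_eq Bool n).toFinset

@[simp] theorem mem_cells {n : ℕ} {s : List Bool} : s ∈ cells n ↔ s.length = n := by
  simp [cells]

open Classical in
/-- a rational between two finite sets, the `n`-th rational when it is one -/
noncomputable def pick (n : ℕ) (p : Finset ℚ × Finset ℚ) : ℚ :=
  if (∀ l ∈ p.1, l < Denumerable.ofNat ℚ n) ∧ ∀ h ∈ p.2, Denumerable.ofNat ℚ n < h then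
    Denumerable.ofNat ℚ n
  else Classical.epsilon fun x => (∀ l ∈ p.1, l < x) ∧ ∀ h ∈ p.2, x < h

theorem pick_spec (n : ℕ) {p : Finset ℚ × Finset ℚ} (h : ∀ l ∈ p.1, ∀ h ∈ p.2, l < h) :
    (∀ l ∈ p.1, l < pick n p) ∧ ∀ h ∈ p.2, pick n p < h := by
  rw [pick]
  split_ifs with h1
  · exact h1
  · exact Classical.epsilon_spec (p := fun x => (∀ l ∈ p.1, l < x) ∧ ∀ h ∈ p.2, x < h)
      (Order.exists_between_finsets p.1 p.2 h)

/-- lower and upper bounds collected along a reversed cell -/
noncomputable def bndR : List Bool → Finset ℚ × Finset ℚ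
  | [] => (∅, ∅)
  | true :: r => (insert (pick r.length (bndR r)) (bndR r).1, (bndR r).2)
  | false :: r => ((bndR r).1, insert (pick r.length (bndR r)) (bndR r).2)

/-- lower and upper bounds of a cell -/
noncomputable def bnd (s : List Bool) : Finset ℚ × Finset ℚ := bndR s.reverse

/-- the point where the interval of a cell is split -/
noncomputable def mid (s : List Bool) : ℚ := pick s.length (bnd s)

theorem bnd_true (s : List Bool) : bnd (s ++ [true]) = (insert (mid s) (bnd s).1, (bnd s).2) := by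
  simp [bnd, bndR, mid]

theorem bnd_false (s : List Bool) :
    bnd (s ++ [false]) = ((bnd s).1, insert (mid s) (bnd s).2) := by
  simp [bnd, bndR, mid]

theorem bnd_lt (s : List Bool) : ∀ l ∈ (bnd s).1, ∀ h ∈ (bnd s).2, l < h := by
  induction s using List.reverseRecOn with
  | nil => simp [bnd, bndR]
  | append_singleton s b ih =>
    have := pick_spec s.length ih
    cases b
    · rw [bnd_false]
      exact fun l hl => Finset.forall_mem_insert .. |>.2 ⟨this.1 l hl, ih l hl⟩
    · rw [bnd_true]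
      exact Finset.forall_mem_insert .. |>.2 ⟨this.2, ih⟩

theorem bnd_mono (s t : List Bool) :
    (bnd s).1 ⊆ (bnd (s ++ t)).1 ∧ (bnd s).2 ⊆ (bnd (s ++ t)).2 := by
  induction t using List.reverseRecOn with
  | nil => simp
  | append_singleton t b ih =>
    rw [← List.append_assoc]
    cases b
    · rw [bnd_false]
      exact ⟨ih.1, ih.2.trans (Finset.subset_insert _ _)⟩
    · rw [bnd_true]
      exact ⟨ih.1.trans (Finset.subset_insert _ _), ih.2⟩

theorem mid_lt_true (s t : List Bool) : mid s < mid (s ++ [true] ++ t) :=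
  (pick_spec _ (bnd_lt _)).1 _
    ((bnd_mono _ t).1 (by rw [bnd_true]; exact Finset.mem_insert_self _ _))

theorem mid_false_lt (s t : List Bool) : mid (s ++ [false] ++ t) < mid s :=
  (pick_spec _ (bnd_lt _)).2 _
    ((bnd_mono _ t).2 (by rw [bnd_false]; exact Finset.mem_insert_self _ _))

theorem mid_br_lt {f : ℕ → Bool} {n m : ℕ} (hn : f n = true) (hm : f m = false) :
    mid (br f n) < mid (br f m) := by
  rcases lt_trichotomy n m with h | h | h
  · obtain ⟨t, ht⟩ := br_ext f (Nat.succ_le_of_lt h)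
    rw [ht, br_succ, hn]
    exact mid_lt_true _ _
  · rw [h, hm] at hn
    cases hn
  · obtain ⟨t, ht⟩ := br_ext f (Nat.succ_le_of_lt h)
    rw [ht, br_succ, hm]
    exact mid_false_lt _ _

section Field
variable {L : Type*} [Field L] [LinearOrder L] [IsStrictOrderedRing L]

/-- `z` lies in the interval of the cell `s` -/
def inJ (z : L) (s : List Bool) : Prop :=
  (∀ l ∈ (bnd s).1, (l : L) ≤ z) ∧ ∀ h ∈ (bnd s).2, z < h

variable {z z' : L} {s : List Bool}

omit [IsStrictOrderedRing L] in
theorem inJ_nil : inJ z [] := by simp [inJ, bnd, bndR]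

omit [IsStrictOrderedRing L] in
theorem inJ_true : inJ z (s ++ [true]) ↔ inJ z s ∧ (mid s : L) ≤ z := by
  simp only [inJ, bnd_true, Finset.forall_mem_insert]
  tauto

omit [IsStrictOrderedRing L] in
theorem inJ_false : inJ z (s ++ [false]) ↔ inJ z s ∧ z < mid s := by
  simp only [inJ, bnd_false, Finset.forall_mem_insert]
  tauto

omit [IsStrictOrderedRing L] in
theorem inJ.of_append {t : List Bool} (h : inJ z (s ++ t)) : inJ z s :=
  ⟨fun l hl => h.1 l ((bnd_mono s t).1 hl), fun l hl => h.2 l ((bnd_mono s t).2 hl)⟩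

theorem inJ_sep {u v : ℚ} (h : u < v) : ∃ n, ∀ (L : Type 1) [Field L] [LinearOrder L]
    [IsStrictOrderedRing L] (z z' : L) (s : List Bool), s.length = n → z < u → (v : L) < z' →
      inJ z s → inJ z' s → False := by
  obtain ⟨N, hN⟩ : ∃ N, Denumerable.ofNat ℚ N = v := ⟨_, Denumerable.ofNat_encode v⟩
  refine ⟨N + 1, fun L _ _ _ z z' s hs h1 h2 h3 h4 => ?_⟩
  obtain ⟨s, b, rfl⟩ : ∃ s' b, s = s' ++ [b] := by
    rcases s.eq_nil_or_concat' with rfl | h
    · simp at hs
    · exact h
  have h5 : s.length = N := by simpa using hs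
  have h6 : z < v := h1.trans (by exact_mod_cast h)
  have h7 : mid s = v := by
    rw [mid, pick, h5, hN, if_pos]
    exact ⟨fun l hl => by exact_mod_cast (h3.of_append.1 l hl).trans_lt h6,
      fun l hl => by exact_mod_cast h2.trans (h4.of_append.2 l hl)⟩
  cases b
  · exact (h7 ▸ (inJ_false.1 h4).2 : z' < v).not_gt h2
  · exact (h7 ▸ (inJ_true.1 h3).2 : (v : L) ≤ z).not_gt h6

end Field

variable {B : Type} [CompleteBooleanAlgebra B]

open Classical in
/-- the branch of a point in an ultrafilter -/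
noncomputable def bits (U : Ult B) (x : ℕ → B) (n : ℕ) : Bool := decide (U.In (x n))

theorem bits_true {U : Ult B} {x : ℕ → B} {n : ℕ} : bits U x n = true ↔ U.In (x n) := by
  simp [bits]

theorem bits_false {U : Ult B} {x : ℕ → B} {n : ℕ} : bits U x n = false ↔ U.In (x n)ᶜ := by
  simp [bits, U.compl_iff]

theorem in_lit {U : Ult B} {x : ℕ → B} {n : ℕ} {c : Bool} :
    U.In (lit c (x n)) ↔ c = bits U x n := by
  cases c
  · exact bits_false.symm.trans eq_comm
  · exact bits_true.symm.trans eq_comm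

theorem in_inC {U : Ult B} {x : ℕ → B} {s : List Bool} :
    U.In (inC x s) ↔ s = br (bits U x) s.length := by
  induction s using List.reverseRecOn with
  | nil => simpa [inC_nil, br] using U.top
  | append_singleton s b ih => rw [inC_concat, U.inf_iff, ih, in_lit, concat_eq_br]

theorem in_inC_br (U : Ult B) (x : ℕ → B) (n : ℕ) : U.In (inC x (br (bits U x) n)) :=
  in_inC.2 (by rw [br_length])

theorem in_finset_sup {U : Ult B} {ι : Type*} {F : Finset ι} {f : ι → B} :
    U.In (F.sup f) ↔ ∃ i ∈ F, U.In (f i) := by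
  classical
  induction F using Finset.induction_on with
  | empty => simpa using U.not_bot
  | insert a s _ ih => simp only [Finset.sup_insert, U.sup_iff, ih, Finset.exists_mem_insert]

/-- a branch that follows given instructions -/
theorem exists_path (c : List Bool → B) :
    ∃ x : ℕ → B, ∀ (U : Ult B) n, U.In (x n) ↔ U.In (c (br (bits U x) n)) := by
  classical
  let X : ℕ → ℕ → B := fun n => Nat.rec (fun _ => ⊥)
    (fun n y => Function.update y n ((cells n).sup fun s => inC y s ⊓ c s)) n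
  have h1 : ∀ n m, m < n → X n m = X (m + 1) m := by
    intro n m h
    induction n, h using Nat.le_induction with
    | base => rfl
    | succ n hn ih => exact (Function.update_of_ne (Nat.lt_of_succ_le hn).ne _ _).trans ih
  refine ⟨fun n => X (n + 1) n, fun U n => ?_⟩
  have h2 : ∀ s : List Bool, s.length = n → inC (X n) s = inC (fun n => X (n + 1) n) s := by
    rintro s rfl
    exact iInf_congr fun i => by rw [h1 _ _ i.2]
  have h3 : X (n + 1) n = (cells n).sup fun s => inC (X n) s ⊓ c s := Function.update_self ..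
  show U.In (X (n + 1) n) ↔ _
  rw [h3, in_finset_sup]
  refine ⟨fun ⟨s, hs, h4⟩ => ?_, fun h4 =>
    ⟨br (bits U fun n => X (n + 1) n) n, mem_cells.2 (br_length _ n), ?_⟩⟩
  · rw [mem_cells] at hs
    rw [U.inf_iff, h2 s hs, in_inC, hs] at h4
    exact h4.1 ▸ h4.2
  · rw [U.inf_iff, h2 _ (br_length _ n)]
    exact ⟨in_inC_br U _ n, h4⟩

theorem konig (T : List Bool → B) (h : ∀ s, T s ≤ T (s ++ [false]) ⊔ T (s ++ [true])) :
    ∃ x : ℕ → B, ∀ U : Ult B, U.In (T []) → ∀ n, U.In (T (br (bits U x) n)) := by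
  obtain ⟨x, hx⟩ := exists_path fun s => T (s ++ [true])
  refine ⟨x, fun U hU n => ?_⟩
  induction n with
  | zero => exact hU
  | succ n ih =>
    rw [br_succ]
    cases e : bits U x n
    · exact (U.sup_iff.1 (U.mono (h _) ih)).resolve_right fun h1 =>
        U.compl_iff.1 (bits_false.1 e) ((hx U n).2 h1)
    · exact (hx U n).1 (bits_true.1 e)

theorem in_eqv {q : B} {x y : ℕ → B} (P : Pt q → Prop) [Cl P]
    (h : ∀ s W, P W → W.1.In (inC x s) → W.1.In (inC y s)) (W : Pt q) (hW : P W) :
    W.1.In (eqv x y) := by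
  refine in_iInf P (fun n V hV => ?_) W hW
  have h1 := in_inC.1 (h _ V hV (in_inC_br V.1 x (n + 1)))
  rw [br_length, br_succ, br_succ, List.append_singleton_inj] at h1
  rw [V.1.inf_iff, V.1.himp_iff, V.1.himp_iff, ← bits_true, ← bits_true, h1.2]
  exact ⟨id, id⟩

theorem eqv_trans (x y z : ℕ → B) : eqv x y ⊓ eqv y z ≤ eqv x z :=
  eqv_le_iff.2 fun n => (eqv_le_iff.1 inf_le_left n).trans (eqv_le_iff.1 inf_le_right n)

theorem eqv_refl (x : ℕ → B) : eqv x x = ⊤ := top_le_iff.1 (eqv_le_iff.2 fun _ => rfl)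

theorem ext_covL (w : List Bool → B) : Ext (covL w) := fun x y => by
  rw [covL, inf_iSup_eq]
  refine iSup_mono fun t => ?_
  rw [inf_left_comm]
  exact inf_le_inf_left _ (ext_inC t x y)

variable {S : Base B}

instance clInJ (τ : ∀ W : Pt S.q, S.KK W) [Rep τ] (s : List Bool) : Cl fun W => inJ (τ W) s := by
  unfold inJ; infer_instance

/-- the real named by `z` -/
noncomputable abbrev rv (S : Base B) (z : Name B) (W : Pt S.q) : S.KK W :=
  val (S.ctx W) (cl W.1 z)

/-- the branch of the real named by `z` -/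
noncomputable def code (S : Base B) (z : Name B) : ℕ → B :=
  (exists_path fun s => tv fun W : Pt S.q => (mid s : S.KK W) ≤ rv S z W).choose

theorem in_code {z : Name B} {W : Pt S.q} {s : List Bool} :
    W.1.In (inC (code S z) s) ↔ inJ (rv S z W) s := by
  induction s using List.reverseRecOn with
  | nil => exact iff_of_true (by rw [inC_nil]; exact W.1.top) inJ_nil
  | append_singleton s b ih =>
    have h1 : W.1.In (inC (code S z) s) →
        (W.1.In (code S z s.length) ↔ (mid s : S.KK W) ≤ rv S z W) := fun h => by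
      have := (exists_path fun s => tv fun W : Pt S.q =>
        (mid s : S.KK W) ≤ rv S z W).choose_spec W.1 s.length
      rw [in_tv] at this
      rw [in_inC] at h
      conv_rhs => rw [h]
      exact this
    rw [inC_concat, W.1.inf_iff]
    cases b
    · rw [inJ_false, ← ih]
      exact and_congr_right fun h => W.1.compl_iff.trans ((h1 h).not.trans not_le)
    · rw [inJ_true, ← ih]
      exact and_congr_right h1

theorem inJ_br (z : Name B) (W : Pt S.q) (n : ℕ) :
    inJ (rv S z W) (br (bits W.1 (code S z)) n) := in_code.1 (in_inC_br _ _ n)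

theorem inJ_unique {W : Pt S.q} {z : S.KK W} {s t : List Bool} (hs : inJ z s) (ht : inJ z t)
    (h : s.length ≤ t.length) : ∃ u, t = s ++ u := by
  obtain ⟨z, rfl⟩ := K_surj z
  rw [in_inC.1 (in_code.2 hs), in_inC.1 (in_code.2 ht)]
  exact br_ext _ h

theorem code_res {p : B} (h : p ≤ S.q) (z : Name B) : p ≤ eqv (code S z) (code (res S h) z) :=
  q_le_of fun W => in_eqv (q := p) (fun _ => True) (fun _ V _ h1 =>
    (in_code (S := res S h) (W := V)).2 ((in_code (W := ⟨V.1, V.1.mono h V.2⟩)).1 h1)) W trivial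

theorem code_congr {z z' : Name B} {W : Pt S.q} (h : rv S z W = rv S z' W) :
    W.1.In (eqv (code S z) (code S z')) :=
  in_eqv (fun W => rv S z W = rv S z' W) (fun _ _ hV h1 => in_code.2 (hV ▸ in_code.1 h1)) W h

theorem code_inj {z z' : Name B} {W : Pt S.q} (h : W.1.In (eqv (code S z) (code S z'))) :
    rv S z W = rv S z' W := by
  have key : ∀ (z z' : Name B) (W : Pt S.q), W.1.In (eqv (code S z) (code S z')) →
      ¬ rv S z W < rv S z' W := by
    intro z z'
    refine of_gen _ ?_
    filter_upwards [gen_between (rv S z) (rv S z')] with W h1 h2 h3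
    obtain ⟨u, v, h4, h5, h6⟩ := h1 h3
    obtain ⟨n, hn⟩ := inJ_sep h5
    exact hn _ _ _ _ (br_length _ n) h4 h6 (inJ_br z W n)
      (in_code.1 (W.1.mono (ext_inC _ _ _) (W.1.inf h2 (in_inC_br _ _ n))))
  exact le_antisymm (not_lt.1 (key z' z W (eqv_comm (code S z) _ ▸ h))) (not_lt.1 (key z z' W h))

/-- both bits occur infinitely often -/
def nonc (x : ℕ → B) : B := (⨅ n, ⨆ m, ⨆ _ : n ≤ m, x m) ⊓ ⨅ n, ⨆ m, ⨆ _ : n ≤ m, (x m)ᶜ

theorem gen_iSup₂ {q : B} {ι : Sort*} {p : ι → Prop} (f : ι → B) :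
    ∀ᶠ W in gen q, W.1.In (⨆ i, ⨆ _ : p i, f i) → ∃ i, p i ∧ W.1.In (f i) := by
  filter_upwards [gen_iSup (q := q) fun i : {i // p i} => f i.1] with W h h1
  rw [iSup_subtype'] at h1
  obtain ⟨i, hi⟩ := h h1
  exact ⟨i.1, i.2, hi⟩

theorem code_surj (x : ℕ → B) : ∃ z : Name B, ∀ W : Pt S.q,
    Mem W.1 (cl W.1 z) (clF W.1 S.N).R ∧ (W.1.In (nonc x) → W.1.In (eqv x (code S z))) := by
  obtain ⟨τ, hτ, h⟩ := exists_lub (S := S) (fun s W => (mid s : S.KK W))
    fun s => inC x (s ++ [true])
  obtain ⟨z, hz⟩ := hτ.ex_name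
  have h0 : ∀ W, rv S z W = τ W := fun W => by rw [rv, ← hz, val_coe]
  have h1 : ∀ (s t : List Bool) (W : Pt S.q), W.1.In (inC x (t ++ [false])) →
      W.1.In (inC x (s ++ [true])) → (mid s : S.KK W) ≤ τ W ∧ τ W ≤ mid t := by
    intro s t W
    refine h (fun W => (mid t : S.KK W)) (fun W => W.1.In (inC x (t ++ [false])))
      (fun s V e1 e2 => ?_) W s
    rw [in_inC, concat_eq_br] at e1 e2
    rw [e1.1, e2.1]
    exact_mod_cast (mid_br_lt e2.2.symm e1.2.symm).le
  have h2 : ∀ (W : Pt S.q) n b, bits W.1 x n = b → W.1.In (inC x (br (bits W.1 x) n ++ [b])) := by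
    rintro W n _ rfl
    exact in_inC_br W.1 x (n + 1)
  refine ⟨z, fun W => ⟨by rw [← hz]; exact (τ W).2,
    in_eqv (fun W => W.1.In (nonc x)) (fun s => ?_) W⟩⟩
  simp only [in_code, h0]
  induction s using List.reverseRecOn with
  | nil => exact fun _ _ _ => inJ_nil
  | append_singleton s b ih =>
    refine of_gen _ ?_
    filter_upwards [gen_iSup₂ (p := fun m => 0 ≤ m) x,
      gen_iSup₂ (p := fun m => s.length + 1 ≤ m) fun m => (x m)ᶜ] with W e1 e2 e3 e4
    obtain ⟨k, -, hk⟩ := e1 (W.1.iInf_elim (W.1.inf_iff.1 e3).1 0)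
    obtain ⟨m, hm, hm'⟩ := e2 (W.1.iInf_elim (W.1.inf_iff.1 e3).2 _)
    have e5 := ih W e3 (W.1.mono (by rw [inC_concat]; exact inf_le_left) e4)
    have e6 := h2 W m _ (bits_false.2 hm')
    cases b
    · refine inJ_false.2 ⟨e5, (h1 _ _ W e6 (h2 W k _ (bits_true.2 hk))).2.trans_lt ?_⟩
      obtain ⟨t, ht⟩ := br_ext (bits W.1 x) hm
      have e7 := in_inC.1 e4
      rw [List.length_append, List.length_singleton] at e7
      rw [ht, ← e7]
      exact_mod_cast mid_false_lt s t
    · exact inJ_true.2 ⟨e5, (h1 _ _ W e6 e4).1⟩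

end Pool.Agent.Lib.MP_f79ffc_lc.St
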