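import Pool.Agent.Lib.MP_f79ffc_lc.U.M.Code

/-!
The outer measure on the Cantor space of the extension given by the measures of the cells.
-/

namespace Pool.Agent.Lib.MP_f79ffc_lc.St

open Pool.Agent.Lib.MP_5d9fac_lc Pool.Agent.Lib.MP_c1e359_an Pool.Agent.Lib.MP_f79ffc_lc.U Filter

variable {B : Type} [CompleteBooleanAlgebra B]

theorem pt_iSup_elim {q : B} (P Q : Pt q → Prop) [Cl P] [Cl Q] {ι : Sort*} {f : ι → B}
    (H : ∀ i V, P V → V.1.In (f i) → Q V) (W : Pt q) (hP : P W) (hf : W.1.In (⨆ i, f i)) :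
    Q W := by
  refine of_gen (fun W => P W → W.1.In (⨆ i, f i) → Q W) ?_ W hP hf
  filter_upwards [gen_iSup f] with V h h1 h2
  obtain ⟨i, hi⟩ := h h2
  exact H i V h1 hi

theorem geom_le {ε : ℚ} (hε : 0 < ε) (N : ℕ) : ∑ n ∈ Finset.range N, ε / 2 ^ (n + 1) ≤ ε := by
  have : ∑ n ∈ Finset.range N, ε / 2 ^ (n + 1) = ε - ε / 2 ^ N := by
    induction N with
    | zero => simp
    | succ N ih =>
      rw [Finset.sum_range_succ, ih]
      ring
  rw [this]
  exact sub_le_self _ (by positivity)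

/-- measures of the cells -/
structure CM (S : Base B) : Type 1 where
  mc : List Bool → ∀ W : Pt S.q, S.KK W
  rep : ∀ s, Rep (mc s)
  nonneg : ∀ s W, 0 ≤ mc s W
  one : ∀ W, mc [] W = 1
  add : ∀ s W, mc s W = mc (s ++ [false]) W + mc (s ++ [true]) W
  small : ∀ ε : ℚ, 0 < ε → ∀ᶠ W in gen S.q, ∃ n, ∀ s ∈ cells n, mc s W ≤ ε

attribute [instance] CM.rep

variable {S : Base B}

theorem exists_cm {m : List Bool → ℚ → B} (hm : IsMeas S.q m) :
    ∃ M : CM S, ∀ s W (r : ℚ), M.mc s W ≤ r ↔ W.1.In (m s r) := by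
  choose τ hτ h using fun s => exists_lub (S := S) (fun (r : ℚ) W => (r : S.KK W))
    fun r => (m s r)ᶜ
  have h0 : ∀ {a : B}, S.q ⊓ a = ⊥ → ∀ W : Pt S.q, ¬ W.1.In a := fun e W h1 =>
    W.1.not_bot (Pt.of_le e.le W h1)
  have h1 : ∀ s W (r : ℚ), ¬ W.1.In (m s r) → (r : S.KK W) ≤ τ s W := fun s W r e =>
    (h s (fun _ => 1) (fun _ => True) (fun r V _ e => by
      by_contra hc
      exact V.1.compl_iff.1 e (Pt.of_le (hm.mono s (by exact_mod_cast (not_le.1 hc).le)) V
        (V.1.mono (hm.le_one s) V.2))) W r trivial (W.1.compl_iff.2 e)).1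
  have h2 : ∀ s W (r : ℚ), τ s W ≤ r ↔ W.1.In (m s r) := fun s W r => by
    refine ⟨fun e => Pt.of_le (hm.closed s r) W (in_iInf (fun W => τ s W ≤ r) (fun b V hV =>
      in_iInf (fun W => τ s W ≤ r) (fun hb V hV => ?_) V hV) W e), fun e => ?_⟩
    · by_contra hc
      exact hb.not_ge (by exact_mod_cast (h1 s V b hc).trans hV)
    · refine (h s (fun W => (r : S.KK W)) (fun W => W.1.In (m s r)) (fun r' V e1 e2 => ?_) W (-1) e
        (W.1.compl_iff.2 (h0 (hm.neg s (by norm_num)) W))).2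
      by_contra hc
      exact V.1.compl_iff.1 e2 (Pt.of_le (hm.mono s (by exact_mod_cast (not_le.1 hc).le)) V e1)
  refine ⟨⟨τ, hτ, fun s W => ?_, fun W => le_antisymm ?_ ?_, fun s W => le_antisymm ?_ ?_,
    fun ε hε => ?_⟩, h2⟩
  · refine le_of_eps (fun _ => 0) (τ s) (fun _ => True) (fun ε hε =>
      Eventually.of_forall fun V _ => ?_) W trivial
    have := h1 s V (-ε) (h0 (hm.neg s (by linarith)) V)
    push_cast at this
    linarith
  · exact_mod_cast (h2 [] W 1).2 (W.1.mono (hm.le_one _) W.2)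
  · refine le_of_eps (fun _ => 1) (τ []) (fun _ => True) (fun ε hε =>
      Eventually.of_forall fun V _ => ?_) W trivial
    have := h1 [] V (1 - ε) (h0 (hm.one (by linarith)) V)
    push_cast at this
    linarith
  · refine le_of_eps (τ s) (fun W => τ (s ++ [false]) W + τ (s ++ [true]) W) (fun _ => True)
      (fun ε hε => ?_) W trivial
    filter_upwards [gen_above (τ (s ++ [false])) (half_pos hε),
      gen_above (τ (s ++ [true])) (half_pos hε)] with V ⟨a, e1, e2⟩ ⟨b, e3, e4⟩ _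
    have := (h2 s V (a + b)).2 (V.1.mono (hm.sub s a b)
      (V.1.inf (V.1.inf V.2 ((h2 _ V a).1 e1.le)) ((h2 _ V b).1 e3.le)))
    push_cast at this e2 e4
    linarith
  · refine le_of_eps (fun W => τ (s ++ [false]) W + τ (s ++ [true]) W) (τ s) (fun _ => True)
      (fun ε hε => ?_) W trivial
    filter_upwards [gen_below (τ (s ++ [false])) (half_pos hε),
      gen_below (τ (s ++ [true])) (half_pos hε)] with V ⟨a, e1, e2⟩ ⟨b, e3, e4⟩ _
    have := h1 s V (a + b) fun e => (V.1.sup_iff.1 (Pt.of_le (hm.sup s a b) V e)).elim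
      (fun e => e1.not_ge ((h2 _ V a).2 e)) fun e => e3.not_ge ((h2 _ V b).2 e)
    push_cast at this e2 e4
    linarith
  · filter_upwards [gen_iSup fun n => ⨅ s : List Bool, ⨅ _ : s.length = n, m s ε] with V e
    obtain ⟨n, hn⟩ := e (V.1.mono (hm.atomless ε hε) V.2)
    exact ⟨n, fun s hs => (h2 s V ε).2 (V.1.iInf_elim (V.1.iInf_elim hn s) (mem_cells.1 hs))⟩

/-- `v` covers `A` -/
def covs (A : (ℕ → B) → B) (v : List Bool → B) : B := ⨅ x, A x ⇨ covL v x

theorem covs_elim {U : Ult B} {A : (ℕ → B) → B} {v : List Bool → B} (h : U.In (covs A v))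
    {x : ℕ → B} (hx : U.In (A x)) : U.In (covL v x) := U.himp_iff.1 (U.iInf_elim h x) hx

theorem covs_intro {q : B} (P : Pt q → Prop) [Cl P] {A : (ℕ → B) → B} {v : List Bool → B}
    (h : ∀ x W, P W → W.1.In (A x) → W.1.In (covL v x)) (W : Pt q) (hW : P W) :
    W.1.In (covs A v) := in_iInf P (fun x V hV => V.1.himp_iff.2 (h x V hV)) W hW

theorem in_covL {U : Ult B} {v : List Bool → B} {x : ℕ → B} (s : List Bool) (h : U.In (v s))
    (h' : U.In (inC x s)) : U.In (covL v x) := U.iSup_intro s (U.inf h h')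

theorem in_ite {U : Ult B} {p : Prop} {_ : Decidable p} {a : B} :
    U.In (if p then a else ⊥) ↔ p ∧ U.In a := by
  by_cases h : p <;> simp [h, U.not_bot]

theorem not_both {u s : List Bool} (h : u ++ [false] <+: s) (h' : u ++ [true] <+: s) : False := by
  have := (List.prefix_of_prefix_length_le h h' (by simp)).eq_of_length (by simp)
  simp at this

namespace CM

variable (M : CM S)

theorem mc_le (s t : List Bool) (W : Pt S.q) : M.mc (s ++ t) W ≤ M.mc s W := by
  induction t using List.reverseRecOn with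
  | nil => simp
  | append_singleton t b ih =>
    have h1 := M.add (s ++ t) W
    have h2 := M.nonneg (s ++ t ++ [false]) W
    have h3 := M.nonneg (s ++ t ++ [true]) W
    rw [← List.append_assoc]
    cases b <;> linarith

/-- the cells of `v` have total measure at most `τ` -/
noncomputable def cost (v : List Bool → B) (τ : ∀ W : Pt S.q, S.KK W) [Rep τ] : B :=
  ⨅ F : Finset (List Bool), F.inf v ⇨ tv fun W => ∑ s ∈ F, M.mc s W ≤ τ W

variable {M} {v : List Bool → B} {τ : ∀ W : Pt S.q, S.KK W} [Rep τ]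

theorem cost_elim {W : Pt S.q} (h : W.1.In (M.cost v τ)) {F : Finset (List Bool)}
    (hF : ∀ s ∈ F, W.1.In (v s)) : ∑ s ∈ F, M.mc s W ≤ τ W :=
  (in_tv (fun W => ∑ s ∈ F, M.mc s W ≤ τ W) W).1
    (W.1.himp_iff.1 (W.1.iInf_elim h F) (in_finset_inf.2 hF))

theorem cost_intro (P : Pt S.q → Prop) [Cl P] (h : ∀ (F : Finset (List Bool)) W, P W →
    (∀ s ∈ F, W.1.In (v s)) → ∑ s ∈ F, M.mc s W ≤ τ W) (W : Pt S.q) (hW : P W) :
    W.1.In (M.cost v τ) :=
  in_iInf P (fun F V hV => V.1.himp_iff.2 fun e =>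
    (in_tv (fun W => ∑ s ∈ F, M.mc s W ≤ τ W) V).2 (h F V hV (in_finset_inf.1 e))) W hW

open Classical in
theorem cost_single (s : List Bool) (W : Pt S.q) (h : M.mc s W ≤ τ W) :
    W.1.In (M.cost (fun t => if t = s then ⊤ else ⊥) τ) := by
  refine cost_intro (fun W => M.mc s W ≤ τ W) (fun F V hV hF => le_trans ?_ hV) W h
  rw [← Finset.sum_singleton (fun s => M.mc s V) s]
  exact Finset.sum_le_sum_of_subset_of_nonneg
    (fun t ht => Finset.mem_singleton.2 (in_ite.1 (hF t ht)).1) fun t _ _ => M.nonneg t V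

variable (M)

theorem exists_out (A : (ℕ → B) → B) : ∃ o : ∀ W : Pt S.q, S.KK W, ∃ _ : Rep o,
    (∀ (τ : ∀ W : Pt S.q, S.KK W) [Rep τ] v W, W.1.In (covs A v) → W.1.In (M.cost v τ) →
      o W ≤ τ W) ∧ (∀ W, 0 ≤ o W) ∧ ∀ δ : ℚ, 0 < δ → ∃ v, ∀ W : Pt S.q, W.1.In (covs A v) ∧
        W.1.In (M.cost v fun W => o W + δ) := by
  classical
  let cq : ℚ → B := fun r => ⨆ v, covs A v ⊓ M.cost v fun W => (r : S.KK W)
  obtain ⟨o, ho, h⟩ := exists_lub (S := S) (fun (r : ℚ) W => (r : S.KK W)) fun r => (cq r)ᶜ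
  have h0 : ∀ (r : ℚ) (W : Pt S.q), r < 0 → W.1.In (cq r)ᶜ := fun r W hr =>
    W.1.compl_iff.2 (pt_iSup_elim (fun _ => True) (fun _ => False) (fun v V _ e => by
      have := cost_elim (V.1.inf_iff.1 e).2 (F := ∅) (by simp)
      rw [Finset.sum_empty] at this
      exact hr.not_ge (by exact_mod_cast this)) W trivial)
  have h1 : ∀ (r : ℚ) (W : Pt S.q), W.1.In (cq r)ᶜ → (r : S.KK W) ≤ o W := fun r W e =>
    (h (fun _ => 1) (fun _ => True) (fun r V _ e => by
      by_contra hc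
      refine V.1.compl_iff.1 e (V.1.iSup_intro (fun t => if t = [] then ⊤ else ⊥) (V.1.inf
        (covs_intro (fun _ => True) (fun x V _ _ => in_covL [] (by simpa using V.1.top) ?_)
          V trivial) (cost_single [] V (by rw [M.one]; exact (not_le.1 hc).le))))
      rw [inC_nil]
      exact V.1.top) W r trivial e).1
  refine ⟨o, ho, fun τ _ v W e1 e2 => ?_, fun W => ?_, fun δ hδ => ?_⟩
  · refine (h τ (fun W => W.1.In (covs A v) ∧ W.1.In (M.cost v τ)) (fun r V hV e => ?_) W (-1)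
      ⟨e1, e2⟩ (h0 _ W (by norm_num))).2
    by_contra hc
    exact V.1.compl_iff.1 e (V.1.iSup_intro v (V.1.inf hV.1 (cost_intro
      (fun W => W.1.In (M.cost v τ) ∧ τ W ≤ r) (fun F V e3 e4 => (cost_elim e3.1 e4).trans e3.2)
      V ⟨hV.2, (not_le.1 hc).le⟩)))
  · refine le_of_eps (fun _ => 0) o (fun _ => True) (fun ε hε =>
      Eventually.of_forall fun V _ => ?_) W trivial
    have := h1 (-ε) V (h0 _ V (by linarith))
    push_cast at this
    linarith
  · obtain ⟨v, hv⟩ := exists_mixm (fun v => S.q ⊓ (covs A v ⊓ M.cost v fun W => o W + δ)) (by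
      intro p v v' e
      have e' : ∀ (U : Ult B) i, U.In p → (U.In (v i) ↔ U.In (v' i)) := fun U i hp =>
        ⟨fun e1 => (U.inf_iff.1 (e i ▸ U.inf hp e1)).2,
          fun e1 => (U.inf_iff.1 ((e i).symm ▸ U.inf hp e1)).2⟩
      rw [inf_left_comm]
      refine le_inf inf_le_left (inf_le_of fun W e1 => ?_)
      rw [W.1.inf_iff, W.1.inf_iff] at e1
      refine W.1.inf (covs_intro (fun W => W.1.In p ∧ W.1.In (covs A v)) (fun x V e2 e3 => ?_)
        W ⟨e1.1, e1.2.1⟩) (cost_intro (fun W => W.1.In p ∧ W.1.In (M.cost v fun W => o W + δ))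
        (fun F V e2 e3 => cost_elim e2.2 fun s hs => (e' _ s e2.1).2 (e3 s hs)) W ⟨e1.1, e1.2.2⟩)
      exact pt_iSup_elim (fun W => W.1.In p) (fun W => W.1.In (covL v' x)) (fun s V e4 e5 =>
        in_covL s ((e' _ s e4).1 (V.1.inf_iff.1 e5).1) (V.1.inf_iff.1 e5).2) V e2.1
        (covs_elim e2.2 e3))
    refine ⟨v, fun W => W.1.inf_iff.1 (of_gen (fun W =>
      W.1.In (covs A v ⊓ M.cost v fun W => o W + δ)) ?_ W)⟩
    filter_upwards [gen_above o hδ] with V ⟨r, e1, e2⟩
    refine pt_iSup_elim (fun W => (r : S.KK W) ≤ o W + δ) (fun W =>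
      W.1.In (covs A v ⊓ M.cost v fun W => o W + δ)) (fun v' V e3 e4 => ?_) V e2
      ((V.1.em (cq r)).resolve_right fun e => e1.not_ge (h1 r V e))
    rw [V.1.inf_iff] at e4
    exact (V.1.inf_iff.1 (V.1.mono (hv v') (V.1.inf V.2 (V.1.inf e4.1 (cost_intro
      (fun W => W.1.In (M.cost v' fun W => (r : S.KK W)) ∧ (r : S.KK W) ≤ o W + δ)
      (fun F V e5 e6 => (cost_elim e5.1 e6).trans e5.2) V ⟨e4.2, e3⟩))))).2

/-- the outer measure -/
noncomputable def out (A : (ℕ → B) → B) : ∀ W : Pt S.q, S.KK W := (M.exists_out A).choose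

instance (A : (ℕ → B) → B) : Rep (M.out A) := (M.exists_out A).choose_spec.choose

variable {M} {A A' : (ℕ → B) → B}

theorem out_le {W : Pt S.q} (h : W.1.In (covs A v)) (h' : W.1.In (M.cost v τ)) :
    M.out A W ≤ τ W := (M.exists_out A).choose_spec.choose_spec.1 τ v W h h'

theorem out_nonneg (A : (ℕ → B) → B) (W : Pt S.q) : 0 ≤ M.out A W :=
  (M.exists_out A).choose_spec.choose_spec.2.1 W

variable (M) in
theorem out_ex (A : (ℕ → B) → B) {δ : ℚ} (hδ : 0 < δ) : ∃ v, ∀ W : Pt S.q, W.1.In (covs A v) ∧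
    W.1.In (M.cost v fun W => M.out A W + δ) :=
  (M.exists_out A).choose_spec.choose_spec.2.2 δ hδ

theorem out_mono (P : Pt S.q → Prop) [Cl P] (h : ∀ x W, P W → W.1.In (A x) → W.1.In (A' x))
    (W : Pt S.q) (hW : P W) : M.out A W ≤ M.out A' W := by
  refine le_of_eps _ _ P (fun ε hε => ?_) W hW
  obtain ⟨v, hv⟩ := M.out_ex A' hε
  exact Eventually.of_forall fun V hV => out_le (covs_intro P
    (fun x V e1 e2 => covs_elim (hv V).1 (h x V e1 e2)) V hV) (hv V).2

theorem out_cell (P : Pt S.q → Prop) [Cl P] {s : List Bool}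
    (h : ∀ x W, P W → W.1.In (A x) → W.1.In (inC x s)) (W : Pt S.q) (hW : P W) :
    M.out A W ≤ M.mc s W := by
  classical
  exact out_le (covs_intro P (fun x V e1 e2 => in_covL s (by simpa using V.1.top) (h x V e1 e2))
    W hW) (cost_single s W le_rfl)

theorem out_bot (P : Pt S.q → Prop) [Cl P] (h : ∀ x W, P W → ¬ W.1.In (A x)) (W : Pt S.q)
    (hW : P W) : M.out A W = 0 := by
  refine le_antisymm (out_le (τ := fun _ => 0) (v := fun _ => ⊥)
    (covs_intro P (fun x V e1 e2 => (h x V e1 e2).elim) W hW)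
    (cost_intro (fun _ => True) (fun F V _ e => ?_) W trivial)) (out_nonneg _ _)
  rw [Finset.eq_empty_of_forall_notMem fun s hs => V.1.not_bot (e s hs), Finset.sum_empty]

theorem out_iSup (C : ℕ → (ℕ → B) → B) (σ : ∀ W : Pt S.q, S.KK W) [Rep σ] (P : Pt S.q → Prop)
    [Cl P] (hA : ∀ x W, P W → W.1.In (A x) → W.1.In (⨆ n, C n x))
    (h : ∀ N W, P W → ∑ n ∈ Finset.range N, M.out (C n) W ≤ σ W) (W : Pt S.q) (hW : P W) :
    M.out A W ≤ σ W := by
  classical
  refine le_of_eps _ _ P (fun ε hε => Eventually.of_forall fun W hW => ?_) W hW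
  choose v hv using fun n => M.out_ex (C n) (δ := ε / 2 ^ (n + 1)) (by positivity)
  refine out_le (τ := fun W => σ W + ε) (v := fun s => ⨆ n, v n s)
    (covs_intro P (fun x V e1 e2 => ?_) W hW) (cost_intro P (fun F => of_gen _ ?_) W hW)
  · refine pt_iSup_elim (fun _ => True) (fun W => W.1.In (covL (fun s => ⨆ n, v n s) x))
      (fun n V _ e3 => V.1.mono ?_ (covs_elim (hv n V).1 e3)) V trivial (hA x V e1 e2)
    exact iSup_mono fun s => inf_le_inf_right _ (le_iSup (fun n => v n s) n)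
  · filter_upwards [F.eventually_all.2 fun s _ => gen_iSup fun n => v n s] with V e1 e2 e3
    choose! g hg using fun s hs => e1 s hs (e3 s hs)
    have e4 : ∀ s ∈ F, g s ∈ Finset.range (F.sup g + 1) := fun s hs =>
      Finset.mem_range.2 (Nat.lt_succ_of_le (Finset.le_sup hs))
    rw [← Finset.sum_fiberwise_of_maps_to e4]
    refine (Finset.sum_le_sum fun n _ => cost_elim (hv n V).2 fun s hs => ?_).trans ?_
    · rw [Finset.mem_filter] at hs
      exact hs.2 ▸ hg s hs.1
    · rw [Finset.sum_add_distrib, ← Rat.cast_sum]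
      exact add_le_add (h _ V e2) (Rat.cast_le.2 (geom_le hε _))

theorem out_sup {C C' : (ℕ → B) → B} (P : Pt S.q → Prop) [Cl P]
    (hA : ∀ x W, P W → W.1.In (A x) → W.1.In (C x) ∨ W.1.In (C' x)) (W : Pt S.q) (hW : P W) :
    M.out A W ≤ M.out C W + M.out C' W := by
  classical
  refine le_of_eps _ (fun W => M.out C W + M.out C' W) P
    (fun ε hε => Eventually.of_forall fun W hW => ?_) W hW
  obtain ⟨v, hv⟩ := M.out_ex C (half_pos hε)
  obtain ⟨v', hv'⟩ := M.out_ex C' (half_pos hε)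
  refine out_le (τ := fun W => M.out C W + M.out C' W + ε) (v := fun s => v s ⊔ v' s)
    (covs_intro P (fun x V e1 e2 => ?_) W hW)
    (cost_intro (fun _ => True) (fun F V _ e => ?_) W trivial)
  · rcases hA x V e1 e2 with e3 | e3
    · exact V.1.mono (iSup_mono fun s => inf_le_inf_right _ le_sup_left) (covs_elim (hv V).1 e3)
    · exact V.1.mono (iSup_mono fun s => inf_le_inf_right _ le_sup_right) (covs_elim (hv' V).1 e3)
  · rw [← Finset.sum_filter_add_sum_filter_not F fun s => V.1.In (v s)]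
    have e1 := cost_elim (hv V).2 (F := F.filter fun s => V.1.In (v s))
      fun s hs => (Finset.mem_filter.1 hs).2
    have e2 := cost_elim (hv' V).2 (F := F.filter fun s => ¬ V.1.In (v s)) fun s hs =>
      (V.1.sup_iff.1 (e s (Finset.mem_filter.1 hs).1)).resolve_left (Finset.mem_filter.1 hs).2
    push_cast at e1 e2
    linarith

theorem out_split (A : (ℕ → B) → B) (u : List Bool) (W : Pt S.q) :
    M.out (fun x => A x ⊓ inC x (u ++ [false])) W + M.out (fun x => A x ⊓ inC x (u ++ [true])) W ≤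
      M.out (fun x => A x ⊓ inC x u) W := by
  classical
  refine le_of_eps (fun W => M.out (fun x => A x ⊓ inC x (u ++ [false])) W +
    M.out (fun x => A x ⊓ inC x (u ++ [true])) W) _ (fun _ => True)
    (fun ε hε => Eventually.of_forall fun W _ => ?_) W trivial
  obtain ⟨v, hv⟩ := M.out_ex (fun x => A x ⊓ inC x u) hε
  by_cases h : ∀ s ∈ u.inits.toFinset, ¬ W.1.In (v s)
  · have h1 : ∀ b (V : Pt S.q), (∀ s ∈ u.inits.toFinset, ¬ V.1.In (v s)) → V.1.In
        (covs (fun x => A x ⊓ inC x (u ++ [b])) fun s => if u ++ [b] <+: s then v s else ⊥) := by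
      intro b
      refine covs_intro _ fun x V e1 e2 => ?_
      rw [V.1.inf_iff] at e2
      refine pt_iSup_elim (fun W => (∀ s ∈ u.inits.toFinset, ¬ W.1.In (v s)) ∧
        W.1.In (inC x (u ++ [b]))) (fun W => W.1.In
          (covL (fun s => if u ++ [b] <+: s then v s else ⊥) x)) (fun s V e3 e4 => ?_) V
        ⟨e1, e2.2⟩ (covs_elim (hv V).1 (V.1.inf e2.1
          (V.1.mono (by rw [inC_concat]; exact inf_le_left) e2.2)))
      rw [V.1.inf_iff] at e4
      refine in_covL s (in_ite.2 ⟨?_, e4.1⟩) e4.2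
      have e5 := in_inC.1 e4.2
      have e6 := in_inC.1 e3.2
      rcases le_or_gt s.length u.length with e7 | e7
      · obtain ⟨t, ht⟩ := br_ext (bits V.1 x) e7
        rw [← e5, ← (concat_eq_br.1 e6).1] at ht
        exact (e3.1 s (List.mem_toFinset.2 ((List.mem_inits _ _).2 ⟨t, ht.symm⟩)) e4.1).elim
      · obtain ⟨t, ht⟩ := br_ext (bits V.1 x) (show (u ++ [b]).length ≤ s.length by simpa using e7)
        rw [← e5, ← e6] at ht
        exact ⟨t, ht.symm⟩
    have h2 := out_le (M := M) (τ := fun W => M.out (fun x => A x ⊓ inC x u) W + ε -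
      M.out (fun x => A x ⊓ inC x (u ++ [false])) W) (h1 true W h) (cost_intro
        (fun W => ∀ s ∈ u.inits.toFinset, ¬ W.1.In (v s)) (fun F V e1 e2 => by
      have h3 := out_le (M := M) (τ := fun W => M.out (fun x => A x ⊓ inC x u) W + ε -
        ∑ s ∈ F, M.mc s W) (h1 false V e1) (cost_intro
          (fun W => ∀ s ∈ F, W.1.In (if u ++ [true] <+: s then v s else ⊥))
          (fun F' V e3 e4 => by
        have h4 : Disjoint F F' := Finset.disjoint_left.2 fun s hs hs' => by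
          exact not_both (in_ite.1 (e4 s hs')).1 (in_ite.1 (e3 s hs)).1
        have h5 := cost_elim (hv V).2 (F := F ∪ F') fun s hs =>
          (Finset.mem_union.1 hs).elim (fun hs => (in_ite.1 (e3 s hs)).2)
            fun hs => (in_ite.1 (e4 s hs)).2
        rw [Finset.sum_union h4] at h5
        linarith) V e2)
      linarith) W h)
    linarith
  · push Not at h
    obtain ⟨s, hs, h1⟩ := h
    obtain ⟨t, rfl⟩ := (List.mem_inits _ _).1 (List.mem_toFinset.1 hs)
    have h2 := cost_elim (hv W).2 (F := {s}) (by simpa using h1)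
    rw [Finset.sum_singleton] at h2
    have h3 := fun b => out_cell (M := M) (A := fun x => A x ⊓ inC x (s ++ t ++ [b]))
      (fun _ => True) (fun x V _ e => (V.1.inf_iff.1 e).2) W trivial
    linarith [h3 false, h3 true, M.add (s ++ t) W, M.mc_le s t W]

theorem out_top (W : Pt S.q) : 1 ≤ M.out (fun _ => ⊤) W := by
  classical
  refine le_of_eps (fun _ => 1) _ (fun _ => True)
    (fun ε hε => Eventually.of_forall fun W _ => ?_) W trivial
  obtain ⟨v, hv⟩ := M.out_ex (fun _ => ⊤) hε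
  let g : List Bool → B := fun s => ⨆ F : {F : Finset (List Bool) // ∀ t ∈ F, s <+: t},
    F.1.inf v ⊓ tv fun W => M.mc s W ≤ ∑ t ∈ F.1, M.mc t W
  have h1 : ∀ s (V : Pt S.q), V.1.In (g (s ++ [true])) → V.1.In (g (s ++ [false])) →
      V.1.In (g s) := fun s => by
    refine pt_iSup_elim (fun W => W.1.In (g (s ++ [true]))) (fun W => W.1.In (g s))
      fun F V e1 e2 => pt_iSup_elim (fun W => W.1.In (F.1.inf v ⊓
      tv fun W => M.mc (s ++ [false]) W ≤ ∑ t ∈ F.1, M.mc t W)) (fun W => W.1.In (g s))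
      (fun F' V e3 e4 => ?_) V e2 e1
    rw [V.1.inf_iff, in_tv, in_finset_inf] at e3 e4
    have h4 : Disjoint F.1 F'.1 := Finset.disjoint_left.2 fun s hs hs' => by
      exact not_both (F.2 s hs) (F'.2 s hs')
    refine V.1.iSup_intro ⟨F.1 ∪ F'.1, fun t ht => (Finset.mem_union.1 ht).elim
      (fun ht => (List.prefix_append _ _).trans (F.2 t ht))
      fun ht => (List.prefix_append _ _).trans (F'.2 t ht)⟩ ?_
    rw [V.1.inf_iff, in_tv, in_finset_inf, Finset.sum_union h4, M.add]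
    exact ⟨fun t ht => (Finset.mem_union.1 ht).elim (e3.1 t) (e4.1 t), add_le_add e3.2 e4.2⟩
  obtain ⟨x, hx⟩ := konig (fun s => S.q ⊓ (g s)ᶜ) fun s => inf_le_of fun V e => by
    rw [V.1.sup_iff, V.1.inf_iff, V.1.inf_iff, V.1.compl_iff, V.1.compl_iff]
    by_contra hc
    push Not at hc
    exact V.1.compl_iff.1 e (h1 s V (hc.2 V.2) (hc.1 V.2))
  have h2 : W.1.In (g []) := by
    refine pt_iSup_elim (fun _ => True) (fun W => W.1.In (g [])) (fun s V _ e => ?_) W trivial
      (covs_elim (hv W).1 (x := x) W.1.top)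
    rw [V.1.inf_iff] at e
    by_contra hc
    have e1 := hx V.1 (V.1.inf V.2 (V.1.compl_iff.2 hc)) s.length
    rw [← in_inC.1 e.2, V.1.inf_iff, V.1.compl_iff] at e1
    refine e1.2 (V.1.iSup_intro ⟨{s}, by simp⟩ ?_)
    rw [V.1.inf_iff, in_tv]
    simpa using e.1
  refine pt_iSup_elim (fun _ => True) (fun W => 1 ≤ M.out (fun _ => ⊤) W + ε)
    (fun F V _ e => ?_) W trivial h2
  rw [V.1.inf_iff, in_tv, in_finset_inf, M.one] at e
  exact e.2.trans (cost_elim (hv V).2 e.1)

theorem out_pt (y : ℕ → B) (W : Pt S.q) : M.out (fun x => eqv x y) W = 0 := by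
  refine le_antisymm (le_of_eps _ (fun _ => 0) (fun _ => True) (fun ε hε => ?_) W trivial)
    (out_nonneg _ _)
  filter_upwards [M.small ε hε] with V ⟨n, hn⟩ _
  rw [zero_add]
  refine (out_cell (s := br (bits V.1 y) n) (fun W => W.1.In (inC y (br (bits V.1 y) n)))
    (fun x V' e1 e2 => ?_) V (in_inC_br _ _ _)).trans (hn _ (mem_cells.2 (br_length _ _)))
  exact V'.1.mono (ext_inC _ y x) (V'.1.inf (eqv_comm x y ▸ e2) e1)

theorem out_const (W : Pt S.q) : M.out (fun x => (nonc x)ᶜ) W = 0 := by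
  obtain ⟨e, he⟩ := exists_surjective_nat (List Bool × Bool)
  let y : List Bool × Bool → ℕ → B := fun t n => lit (t.1.getD n t.2) ⊤
  refine le_antisymm (out_iSup (fun k x => eqv x (y (e k))) (fun _ => 0) (fun _ => True)
    (fun x => ?_) (fun N V _ => by simp [out_pt]) W trivial) (out_nonneg _ _)
  have h1 : ∀ (b : Bool) n (V : Pt S.q), V.1.In (⨅ m, ⨅ _ : n ≤ m, lit b (x m)) →
      V.1.In (⨆ k, eqv x (y (e k))) := by
    intro b n V hV
    obtain ⟨k, hk⟩ := he (br (bits V.1 x) n, b)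
    refine V.1.iSup_intro k ?_
    rw [hk]
    have h2 := br_length (bits V.1 x) n
    have h3 := in_inC_br V.1 x n
    generalize br (bits V.1 x) n = s at h2 h3
    refine in_iInf (fun W => W.1.In (inC x s) ∧ W.1.In (⨅ m, ⨅ _ : n ≤ m, lit b (x m)))
      (fun m V e1 => ?_) V ⟨h3, hV⟩
    have h4 : V.1.In (lit (s.getD m b) (x m)) := by
      rcases lt_or_ge m s.length with h5 | h5
      · rw [List.getD_eq_getElem _ _ h5]
        exact V.1.mono (le_inC.1 le_rfl m h5) e1.1
      · rw [List.getD_eq_default _ _ h5]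
        exact V.1.iInf_elim (V.1.iInf_elim e1.2 m) (h2 ▸ h5)
    rw [V.1.inf_iff, V.1.himp_iff, V.1.himp_iff]
    show (_ → V.1.In (lit (s.getD m b) ⊤)) ∧ (V.1.In (lit (s.getD m b) ⊤) → _)
    generalize s.getD m b = c at h4
    cases c
    · exact ⟨fun h5 => (V.1.compl_iff.1 h4 h5).elim, fun h5 => (V.1.compl_iff.1 h5 V.1.top).elim⟩
    · exact ⟨fun _ => V.1.top, fun _ => h4⟩
  intro V _ hV
  rw [nonc, compl_inf, V.1.sup_iff] at hV
  simp only [compl_iInf, compl_iSup, compl_compl] at hV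
  rcases hV with hV | hV
  · exact pt_iSup_elim (fun _ => True) _ (fun n V _ => h1 false n V) V trivial hV
  · exact pt_iSup_elim (fun _ => True) _ (fun n V _ => h1 true n V) V trivial hV

end CM

end Pool.Agent.Lib.MP_f79ffc_lc.St
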